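import Mathlib
import Pool.Agent.H667R2.FG.OpDefs
import Pool.Agent.H667R2.FG.TL2

/-! Definitions for the proof that `L(F_n)` and `L(F_{n+1})` are isomorphic: group rings of free
groups, derivations and flows, systems of free Haar unitaries. -/

namespace Pool.Agent.H581R.FF

open Pool.Agent.H667R2.FG (Ell permOp lam rho delta LG EltG tau)
open scoped ComplexConjugate

/-- bounded operators on `ℓ²(G)` -/
abbrev Op (G : Type) : Type := Ell G →L[ℂ] Ell G

/-- the complex group ring of the free group on `κ` -/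
abbrev GR (κ : Type) : Type := MonoidAlgebra ℂ (FreeGroup κ)

/-- the basis element of the group ring given by a group element -/
noncomputable abbrev bs {κ : Type} (w : FreeGroup κ) : GR κ := MonoidAlgebra.single w 1

/-- evaluation of elements of the group ring at a family of unitaries -/
noncomputable def ev {κ A : Type} [Ring A] [StarMul A] [Algebra ℂ A]
    (π : FreeGroup κ →* unitary A) : GR κ →ₐ[ℂ] A :=
  MonoidAlgebra.lift ℂ A (FreeGroup κ) ((unitary A).subtype.comp π)

/-- the `ℓ¹`-norm on the group ring -/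
noncomputable def l1 {κ : Type} (f : GR κ) : ℝ := ∑ w ∈ f.coeff.support, ‖f.coeff w‖

/-- the `ℓ²`-norm on the group ring -/
noncomputable def l2 {κ : Type} (f : GR κ) : ℝ :=
  Real.sqrt (∑ w ∈ f.coeff.support, ‖f.coeff w‖ ^ 2)

/-- the `ℓ²`-norm of a finitely supported real function -/
noncomputable def n2 {α : Type} (c : α →₀ ℝ) : ℝ := Real.sqrt (∑ w ∈ c.support, c w ^ 2)

/-- the involution of the group ring -/
noncomputable def st {κ : Type} (f : GR κ) : GR κ :=
  f.coeff.sum fun w c => MonoidAlgebra.single w⁻¹ (conj c)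

/-- `π` is a family of free Haar unitaries on `ℓ²(G)` commuting with the right translations -/
structure Std {κ G : Type} [Group G] (π : FreeGroup κ →* unitary (Op G)) : Prop where
  comm : ∀ (w : FreeGroup κ) (g : G), (π w : Op G) * rho g = rho g * (π w : Op G)
  free : ∀ w : FreeGroup κ, w ≠ 1 → tau (π w : Op G) = 0

/-- the vector `δ_1` is cyclic for `π` -/
def Cyc {κ G : Type} [Group G] (π : FreeGroup κ →* unitary (Op G)) : Prop :=
  ∀ (ξ : Ell G) (ε : ℝ), 0 < ε → ∃ f : GR κ, ‖ξ - ev π f (delta 1)‖ < ε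

/-- trace preserving star derivations of the group ring -/
structure IsDer {κ : Type} (D : GR κ →ₗ[ℂ] GR κ) : Prop where
  leib : ∀ x y, D (x * y) = D x * y + x * D y
  star : ∀ x, D (st x) = st (D x)
  tr : ∀ x, (D x).coeff 1 = 0

/-- `D` satisfies the analytic bound with constant `K` -/
def Bdd {κ : Type} [DecidableEq κ] (D : GR κ →ₗ[ℂ] GR κ) (K : ℝ) : Prop :=
  ∀ (n : ℕ) (w : FreeGroup κ), l1 (D^[n] (bs w)) ≤ n.factorial * K ^ n * 2 ^ w.norm

/-- `π'` is obtained from `π` by the flow of `D` for time `t` -/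
def Flow {κ G : Type} (D : GR κ →ₗ[ℂ] GR κ) (t : ℝ)
    (π π' : FreeGroup κ →* unitary (Op G)) : Prop :=
  ∀ f : GR κ, HasSum (fun n : ℕ => ((t : ℂ) ^ n / (n.factorial : ℂ)) • ev π (D^[n] f)) (ev π' f)

/-- the free group `F = FreeGroup (Option ι)` contains `G = FreeGroup ι` -/
noncomputable abbrev jj {ι : Type} : FreeGroup ι →* FreeGroup (Option ι) := FreeGroup.map some

/-- the extra generator `v` of `F` -/
abbrev vv {ι : Type} : FreeGroup (Option ι) := FreeGroup.of none

/-- `k(v) = ∑ k_m v^m` -/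
noncomputable def kk {ι : Type} (k : ℤ →₀ ℂ) : GR (Option ι) :=
  k.sum fun m s => MonoidAlgebra.single (vv ^ m) s

/-- `∑_β c(β) β k(v) β⁻¹` -/
noncomputable def Ad {ι : Type} (c : FreeGroup ι →₀ ℝ) (k : ℤ →₀ ℂ) : GR (Option ι) :=
  c.sum fun β r => (r : ℂ) • (bs (jj β) * kk k * bs (jj β)⁻¹)

/-- left translation of a function on the group by `x` -/
noncomputable def act {α : Type} [Group α] (x : α) (c : α →₀ ℝ) : α →₀ ℝ :=
  c.mapDomain fun w => x * w

/-- `Z c = ∑_x x c` -/
noncomputable def ZZ {α : Type} [Group α] (xs : List α) (c : α →₀ ℝ) : α →₀ ℝ :=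
  (xs.map fun x => act x c).sum

/-- the word `y₁ u y₂ u … y_L u` -/
def wrd {α : Type} [Group α] (u : α) : List α → α
  | [] => 1
  | y :: ys => y * u * wrd u ys

/-- the prefixes `y₁ u … y_l u` -/
def pref {α : Type} [Group α] (u : α) : List α → List α
  | [] => []
  | y :: ys => (y * u) :: (pref u ys).map fun x => y * u * x

end Pool.Agent.H581R.FF
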