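import Mathlib
import Pool.Agent.H581R.FF.Defs

/-! Statements of all the tasks. -/

namespace Pool.Agent.H581R.FF

open Pool.Agent.H667R2.FG (Ell permOp lam rho delta LG EltG tau)
open scoped ComplexConjugate

/-- `ℓ²`-norm of a finitely supported complex function -/
noncomputable def nk {α : Type} (k : α →₀ ℂ) : ℝ := Real.sqrt (∑ m ∈ k.support, ‖k m‖ ^ 2)

/-! ### A. group ring, derivations, flows -/

/-- Leibniz rule -/
def Leib {κ : Type} (D : GR κ →ₗ[ℂ] GR κ) : Prop := ∀ x y, D (x * y) = D x * y + x * D y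

/-- existence of a derivation with given values on the generators -/
def S_DER : Prop := ∀ (κ : Type) (d : κ → GR κ), ∃ D : GR κ →ₗ[ℂ] GR κ,
  Leib D ∧ ∀ z, D (bs (FreeGroup.of z)) = d z

/-- the `ℓ¹`-norm is a submultiplicative norm -/
def S_L1 : Prop := ∀ (κ : Type) (f g : GR κ) (s : ℂ),
  l1 (f + g) ≤ l1 f + l1 g ∧ l1 (f * g) ≤ l1 f * l1 g ∧ l1 (s • f) = ‖s‖ * l1 f ∧ 0 ≤ l1 f ∧
  ∀ (w : FreeGroup κ), l1 (bs w) = 1

/-- evaluations are contractive for the `ℓ¹`-norm -/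
def S_EV1 : Prop := ∀ (κ G : Type) [Group G] (π : FreeGroup κ →* unitary (Op G)) (f : GR κ),
  ‖ev π f‖ ≤ l1 f

/-- evaluations are isometric for the 2-norms -/
def S_EV2 : Prop := ∀ (κ G : Type) [Group G] (π : FreeGroup κ →* unitary (Op G)), Std π →
  ∀ f : GR κ, tau (ev π f) = f.coeff 1 ∧ ‖(ev π f) (delta 1)‖ = l2 f

/-- evaluations and the involution -/
def S_EVST : Prop := ∀ (κ G : Type) [Group G] (π : FreeGroup κ →* unitary (Op G)) (f g : GR κ),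
  ev π (st f) = star (ev π f) ∧ st (f * g) = st g * st f ∧ st (f + g) = st f + st g ∧ st (st f) = f

/-- analytic bound for a derivation which is nonzero at one generator only -/
def S_BND : Prop := ∀ (κ : Type) [DecidableEq κ] (z0 : κ) (D : GR κ →ₗ[ℂ] GR κ), Leib D →
  (∀ z, z ≠ z0 → D (bs (FreeGroup.of z)) = 0) → ∃ K : ℝ, 0 < K ∧ Bdd D K

/-- existence of the flow for short times -/
def S_FLOW : Prop := ∀ (κ : Type) [DecidableEq κ] (D : GR κ →ₗ[ℂ] GR κ), IsDer D →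
  ∀ K : ℝ, 0 < K → Bdd D K → ∀ (G : Type) [Group G] (π : FreeGroup κ →* unitary (Op G)) (t : ℝ),
  |t| * K < 1 → ∃ π' : FreeGroup κ →* unitary (Op G), Flow D t π π'

/-- second order Taylor bound -/
def S_TAY : Prop := ∀ (κ : Type) [DecidableEq κ] (D : GR κ →ₗ[ℂ] GR κ), IsDer D →
  ∀ K : ℝ, 0 < K → Bdd D K → ∀ f : GR κ, ∃ C : ℝ, 0 ≤ C ∧
  ∀ (G : Type) [Group G] (π π' : FreeGroup κ →* unitary (Op G)) (t : ℝ), |t| * K ≤ 1 / 2 →
  Flow D t π π' → ‖ev π' f - ev π f - (t : ℂ) • ev π (D f)‖ ≤ C * t ^ 2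

/-- the reverse flow -/
def S_BACK : Prop := ∀ (κ : Type) [DecidableEq κ] (D : GR κ →ₗ[ℂ] GR κ),
  ∀ K : ℝ, 0 < K → Bdd D K → ∀ (G : Type) [Group G] (π π' : FreeGroup κ →* unitary (Op G)) (t : ℝ),
  |t| * K < 1 / 2 → Flow D t π π' → Flow D (-t) π' π

/-- the flow preserves the law -/
def S_FSTD : Prop := ∀ (κ : Type) (D : GR κ →ₗ[ℂ] GR κ), IsDer D →
  ∀ (G : Type) [Group G] (π π' : FreeGroup κ →* unitary (Op G)) (t : ℝ),
  Flow D t π π' → Std π → Std π'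

/-- cyclicity -/
def S_FCYC : Prop := ∀ (κ : Type) (D : GR κ →ₗ[ℂ] GR κ)
  (G : Type) [Group G] (π π' : FreeGroup κ →* unitary (Op G)) (t : ℝ),
  Flow D t π' π → Cyc π → Cyc π'

/-- elements killed by the derivation do not move -/
def S_FFIX : Prop := ∀ (κ : Type) (D : GR κ →ₗ[ℂ] GR κ)
  (G : Type) [Group G] (π π' : FreeGroup κ →* unitary (Op G)) (t : ℝ),
  Flow D t π π' → ∀ w : FreeGroup κ, D (bs w) = 0 → π' w = π w

/-! ### B. the special derivation -/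

/-- the derivation `u ↦ i u h`, `h = ∑ c(β) β k(v) β⁻¹`, all the other generators fixed -/
structure DU {ι : Type} (u : ι) (c : FreeGroup ι →₀ ℝ) (k : ℤ →₀ ℂ)
    (D : GR (Option ι) →ₗ[ℂ] GR (Option ι)) : Prop where
  k0 : k 0 = 0
  ks : ∀ m, k (-m) = conj (k m)
  leib : Leib D
  du : D (bs (FreeGroup.of (some u))) = Complex.I • (bs (FreeGroup.of (some u)) * Ad c k)
  dz : ∀ z : Option ι, z ≠ some u → D (bs (FreeGroup.of z)) = 0

/-- the derivation is trace preserving -/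
def S_TR : Prop := ∀ (ι : Type) (u : ι) (c : FreeGroup ι →₀ ℝ) (k : ℤ →₀ ℂ)
  (D : GR (Option ι) →ₗ[ℂ] GR (Option ι)), DU u c k D → ∀ x, (D x).coeff 1 = 0

/-- the derivation commutes with the involution -/
def S_STAR : Prop := ∀ (ι : Type) (u : ι) (c : FreeGroup ι →₀ ℝ) (k : ℤ →₀ ℂ)
  (D : GR (Option ι) →ₗ[ℂ] GR (Option ι)), DU u c k D → st (Ad c k) = Ad c k ∧
  ∀ x, D (st x) = st (D x)

/-- the derivative of the word `y₁ u … y_L u` -/
def S_FORM : Prop := ∀ (ι : Type) (u : ι) (c : FreeGroup ι →₀ ℝ) (k : ℤ →₀ ℂ)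
  (D : GR (Option ι) →ₗ[ℂ] GR (Option ι)), DU u c k D → ∀ ys : List (FreeGroup ι),
  (∀ y ∈ ys, D (bs (jj y)) = 0) →
  D (bs (jj (wrd (FreeGroup.of u) ys))) =
    Complex.I • (Ad (ZZ (pref (FreeGroup.of u) ys) c) k * bs (jj (wrd (FreeGroup.of u) ys)))

/-- words in letters different from `u` are fixed -/
def S_FIX0 : Prop := ∀ (ι : Type) (u : ι) (c : FreeGroup ι →₀ ℝ) (k : ℤ →₀ ℂ)
  (D : GR (Option ι) →ₗ[ℂ] GR (Option ι)), DU u c k D →
  (∀ y ∈ Subgroup.closure (Set.range (FreeGroup.of : Option ι → _) \ {FreeGroup.of (some u)}),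
    D (bs y) = 0) ∧ D (kk k) = 0

/-- 2-norm of `∑ c(β) β k β⁻¹` and linearity in `c` -/
def S_AD : Prop := ∀ (ι : Type) (c c' : FreeGroup ι →₀ ℝ) (k : ℤ →₀ ℂ), k 0 = 0 →
  l2 (Ad c k) = n2 c * nk k ∧ Ad (c + c') k = Ad c k + Ad c' k ∧
  Ad (c - c') k = Ad c k - Ad c' k ∧ Ad (Finsupp.single (1 : FreeGroup ι) 1) k = kk k

/-- 2-norms are invariant under multiplication by group elements -/
def S_L2 : Prop := ∀ (κ : Type) (f : GR κ) (w : FreeGroup κ) (s : ℂ),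
  l2 (f * bs w) = l2 f ∧ l2 (bs w * f) = l2 f ∧ l2 (s • f) = ‖s‖ * l2 f

/-! ### C. the word and the coefficients -/

/-- the small solution of `Z c ≈ 1` for free generators -/
def S_CORE : Prop := ∀ (Γ : Type) [Group Γ] (x : ∀ L : ℕ, Fin L → Γ),
  (∀ L, Function.Injective (FreeGroup.lift (x L))) → ∀ ε : ℝ, 0 < ε →
  ∃ (L : ℕ) (c : Γ →₀ ℝ), n2 c < ε ∧ n2 (ZZ (List.ofFn (x L)) c - Finsupp.single 1 1) < ε

/-- words with free prefixes -/
def S_WORD : Prop := ∀ (ι : Type) (a b u : ι), a ≠ b → a ≠ u → b ≠ u → ∀ L : ℕ,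
  ∃ (ys : List (FreeGroup ι)) (x : Fin L → FreeGroup ι),
    (∀ y ∈ ys, y ∈ Subgroup.closure {FreeGroup.of a, FreeGroup.of b}) ∧
    pref (FreeGroup.of u) ys = List.ofFn x ∧ Function.Injective (FreeGroup.lift x)

/-! ### D. Fourier -/

/-- `arg` is approximated by trigonometric polynomials -/
def S_FOU : Prop := ∀ ε : ℝ, 0 < ε → ∃ k : ℤ →₀ ℂ, k 0 = 0 ∧ (∀ m, k (-m) = conj (k m)) ∧
  nk k ≤ 2 ∧ ∀ (G : Type) [Group G] (V : unitary (Op G)),
    (∀ m : ℤ, m ≠ 0 → tau ((V ^ m : unitary (Op G)) : Op G) = 0) →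
    ‖(NormedSpace.exp (Complex.I • k.sum fun m s => s • ((V ^ m : unitary (Op G)) : Op G))
      - (V : Op G)) (delta 1)‖ < ε

/-! ### E. stage lemma, limit, isomorphism -/

/-- flow for time one -/
def S_NSTEP : Prop := ∀ (κ : Type) [DecidableEq κ] (D : GR κ →ₗ[ℂ] GR κ), IsDer D →
  ∀ K : ℝ, 0 < K → Bdd D K → ∀ (k0 E : GR κ) (g u : FreeGroup κ),
  D (bs g) = Complex.I • ((k0 + E) * bs g) → D k0 = 0 → st k0 = k0 → ∀ η : ℝ, 0 < η →
  ∀ (G : Type) [Group G] (π : FreeGroup κ →* unitary (Op G)), Std π → Cyc π →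
  ∃ π' : FreeGroup κ →* unitary (Op G), Std π' ∧ Cyc π' ∧
    (∀ w, D (bs w) = 0 → π' w = π w) ∧
    ‖((π' u : Op G) - (π u : Op G)) (delta 1)‖ ≤ l2 (D (bs u)) + η ∧
    ‖((π' g : Op G) - NormedSpace.exp (Complex.I • ev π k0) * (π g : Op G)) (delta 1)‖ ≤ l2 E + η

/-- conclusion of the stage lemma for a system `π` -/
def StageAt {ι G : Type} [Group G] (a b u : ι) (π : FreeGroup (Option ι) →* unitary (Op G)) : Prop :=
  ∀ ε : ℝ, 0 < ε → ∃ (π' : FreeGroup (Option ι) →* unitary (Op G)) (g : FreeGroup ι),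
    Std π' ∧ Cyc π' ∧ g ∈ Subgroup.closure {FreeGroup.of a, FreeGroup.of b, FreeGroup.of u} ∧
    (∀ i : ι, i ≠ u → π' (FreeGroup.of (some i)) = π (FreeGroup.of (some i))) ∧
    ‖((π' (FreeGroup.of (some u)) : Op G) - (π (FreeGroup.of (some u)) : Op G)) (delta 1)‖ < ε ∧
    ‖((π' (jj g) : Op G) - (π vv : Op G)) (delta 1)‖ < ε

/-- the stage lemma -/
def S_STAGE : Prop := ∀ (ι G : Type) [Group G] (a b u : ι), a ≠ b → a ≠ u → b ≠ u →
  ∀ π : FreeGroup (Option ι) →* unitary (Op G), Std π → Cyc π → StageAt a b u π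

/-- strong limits of systems -/
def S_SLIM : Prop := ∀ (κ G : Type) [Group G] (π : ℕ → FreeGroup κ →* unitary (Op G)),
  (∀ n, Std (π n)) → (∀ z : κ, CauchySeq fun n => (π n (FreeGroup.of z) : Op G) (delta 1)) →
  ∃ σ : FreeGroup κ →* unitary (Op G), Std σ ∧
    ∀ w, Filter.Tendsto (fun n => (π n w : Op G) (delta 1)) Filter.atTop
      (nhds ((σ w : Op G) (delta 1)))

/-- distance of the values at a word is controlled by the distances at the generators -/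
def S_WDIST : Prop := ∀ (κ G : Type) [Group G] [DecidableEq κ] (π π' : FreeGroup κ →* unitary (Op G))
  (e : ℝ), (∀ (w : FreeGroup κ) (g : G), (π w : Op G) * rho g = rho g * (π w : Op G)) →
  (∀ (w : FreeGroup κ) (g : G), (π' w : Op G) * rho g = rho g * (π' w : Op G)) →
  (∀ z, ‖((π (FreeGroup.of z) : Op G) - (π' (FreeGroup.of z) : Op G)) (delta 1)‖ ≤ e) →
  ∀ w : FreeGroup κ, ‖((π w : Op G) - (π' w : Op G)) (delta 1)‖ ≤ w.norm * e

/-- the limit of the construction -/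
def S_LIM : Prop := ∀ (ι G : Type) [Finite ι] [Group G] [Countable G] (a b u : ι),
  (∀ π : FreeGroup (Option ι) →* unitary (Op G), Std π → Cyc π → StageAt a b u π) →
  (∃ π : FreeGroup (Option ι) →* unitary (Op G), Std π ∧ Cyc π) →
  ∃ σ : FreeGroup ι →* unitary (Op G), Std σ ∧ Cyc σ

/-- the left regular representation is a cyclic system -/
def S_INIT : Prop := ∀ κ : Type, ∃ π : FreeGroup κ →* unitary (Op (FreeGroup κ)), Std π ∧ Cyc π

/-- a cyclic system gives an isomorphism -/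
def S_ISO : Prop := ∀ (κ G : Type) [Group G] (σ : FreeGroup κ →* unitary (Op G)), Std σ → Cyc σ →
  Nonempty (EltG (FreeGroup κ) ≃⋆ₐ[ℂ] EltG G)

/-- isomorphic groups have isomorphic von Neumann algebras -/
def S_CONG : Prop := ∀ (G G' : Type) [Group G] [Group G'], (G ≃* G') →
  Nonempty (EltG G ≃⋆ₐ[ℂ] EltG G')

/-- the main theorem -/
def S_MAIN : Prop := ∀ n : ℕ, 3 ≤ n →
  Nonempty (EltG (FreeGroup (Fin n)) ≃⋆ₐ[ℂ] EltG (FreeGroup (Fin (n + 1))))

end Pool.Agent.H581R.FF
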