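import Mathlib
import Pool.Agent.H581R.FF.Stubs

/-! Task LIM: the limit construction. -/

namespace Pool.Agent.H581R.FF.TLIM

open Pool.Agent.H581R.FF
open Pool.Agent.H667R2.FG (Ell permOp lam rho delta LG EltG tau)
open scoped ComplexConjugate
open Filter Topology

/-- total length of an element of the group ring -/
noncomputable def cost {κ : Type} [DecidableEq κ] (f : GR κ) : ℝ :=
  ∑ w ∈ f.coeff.support, ‖f.coeff w‖ * w.norm

theorem cost_nonneg {κ : Type} [DecidableEq κ] (f : GR κ) : 0 ≤ cost f :=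
  Finset.sum_nonneg fun _ _ => by positivity

theorem ev_apply {κ G : Type} [Group G] (π : FreeGroup κ →* unitary (Op G)) (f : GR κ)
    (x : Ell G) : ev π f x = ∑ w ∈ f.coeff.support, f.coeff w • (π w : Op G) x := by
  unfold ev
  rw [MonoidAlgebra.lift_apply, Finsupp.sum, ContinuousLinearMap.sum_apply]
  rfl

theorem dist_ev (hW : S_WDIST) {κ G : Type} [Group G] [DecidableEq κ]
    (π π' : FreeGroup κ →* unitary (Op G)) (e : ℝ)
    (h1 : ∀ (w : FreeGroup κ) (g : G), (π w : Op G) * rho g = rho g * (π w : Op G))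
    (h2 : ∀ (w : FreeGroup κ) (g : G), (π' w : Op G) * rho g = rho g * (π' w : Op G))
    (h : ∀ z, ‖((π (FreeGroup.of z) : Op G) - (π' (FreeGroup.of z) : Op G)) (delta 1)‖ ≤ e)
    (f : GR κ) : ‖ev π f (delta 1) - ev π' f (delta 1)‖ ≤ cost f * e := by
  rw [ev_apply, ev_apply, ← Finset.sum_sub_distrib]
  refine (norm_sum_le _ _).trans ?_
  unfold cost
  rw [Finset.sum_mul]
  refine Finset.sum_le_sum fun w _ => ?_
  rw [← smul_sub, norm_smul, mul_assoc]
  refine mul_le_mul_of_nonneg_left ?_ (norm_nonneg _)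
  have := hW κ G π π' e h1 h2 h w
  rwa [ContinuousLinearMap.sub_apply] at this

/-- change of variables in the group ring -/
theorem exists_image {κ κ' G : Type} [Group G] (s : FreeGroup κ →* FreeGroup κ')
    (π : FreeGroup κ' →* unitary (Op G)) (f : GR κ) :
    ∃ f' : GR κ', ev π f' = ev (π.comp s) f := by
  induction f using MonoidAlgebra.induction_linear with
  | zero => exact ⟨0, by rw [map_zero, map_zero]⟩
  | add f g hf hg =>
    obtain ⟨f', hf⟩ := hf
    obtain ⟨g', hg⟩ := hg
    exact ⟨f' + g', by rw [map_add, map_add, hf, hg]⟩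
  | single w c =>
    refine ⟨MonoidAlgebra.single (s w) c, ?_⟩
    unfold ev
    rw [MonoidAlgebra.lift_single, MonoidAlgebra.lift_single]
    rfl

/-- it suffices to approximate the vectors `δ_g` -/
theorem cyc_of_delta {κ G : Type} [Group G] (σ : FreeGroup κ →* unitary (Op G))
    (h : ∀ (g : G) (ε : ℝ), 0 < ε → ∃ f : GR κ, ‖delta g - ev σ f (delta 1)‖ < ε) : Cyc σ := by
  classical
  let S : Submodule ℂ (Ell G) := LinearMap.range
    ({ toFun := fun f => ev σ f (delta 1)
       map_add' := fun f g => by rw [map_add]; rfl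
       map_smul' := fun c f => by rw [map_smul]; rfl } : GR κ →ₗ[ℂ] Ell G)
  have hd : ∀ g : G, delta g ∈ S.topologicalClosure := by
    intro g
    rw [← SetLike.mem_coe, Submodule.topologicalClosure_coe, Metric.mem_closure_iff]
    intro ε hε
    obtain ⟨f, hf⟩ := h g ε hε
    exact ⟨_, ⟨f, rfl⟩, by rw [dist_eq_norm]; exact hf⟩
  intro ξ ε hε
  have hξ : ξ ∈ S.topologicalClosure := by
    have hs := lp.hasSum_single (p := 2) (E := fun _ : G => ℂ) (by norm_num) ξ
    refine S.isClosed_topologicalClosure.mem_of_tendsto hs (Eventually.of_forall fun s => ?_)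
    refine Submodule.sum_mem _ fun g _ => ?_
    have e : lp.single (E := fun _ : G => ℂ) 2 g (ξ g) = (ξ g) • delta g := by
      unfold delta
      ext j
      by_cases hj : j = g
      · subst hj
        simp
      · simp [lp.single_apply_ne, hj]
    rw [e]
    exact Submodule.smul_mem _ _ (hd g)
  rw [← SetLike.mem_coe, Submodule.topologicalClosure_coe, Metric.mem_closure_iff] at hξ
  obtain ⟨_, ⟨f, rfl⟩, hf⟩ := hξ ε hε
  exact ⟨f, by rw [dist_eq_norm] at hf; exact hf⟩

theorem jj_injective {ι : Type} (u : ι) : Function.Injective (jj : FreeGroup ι →* _) := by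
  have h : Function.LeftInverse (FreeGroup.map (fun o : Option ι => o.getD u)) (jj (ι := ι)) := by
    intro w
    have : (FreeGroup.map (fun o : Option ι => o.getD u)).comp (jj (ι := ι)) =
        MonoidHom.id (FreeGroup ι) := by
      ext z
      simp [jj]
    exact DFunLike.congr_fun this w
  exact h.injective

theorem std_jj {ι G : Type} [Group G] (u : ι) (π : FreeGroup (Option ι) →* unitary (Op G))
    (h : Std π) : Std (π.comp jj) where
  comm := fun w g => h.comm (jj w) g
  free := fun w hw => h.free (jj w) fun h0 => hw (jj_injective u (by rw [h0, map_one]))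

/-- a state of the construction -/
def St (ι G : Type) [Group G] : Type :=
  {p : (FreeGroup (Option ι) →* unitary (Op G)) × ℝ // Std p.1 ∧ Cyc p.1 ∧ 0 < p.2}

theorem step (hW : S_WDIST) {ι G : Type} [Group G] [DecidableEq ι] (a b u : ι)
    (hst : ∀ π : FreeGroup (Option ι) →* unitary (Op G), Std π → Cyc π → StageAt a b u π)
    (s : St ι G) (ξ : Ell G) (η : ℝ) (hη : 0 < η) :
    ∃ (s' : St ι G) (f' : GR ι),
      (∀ z : ι, ‖((s'.1.1 (FreeGroup.of (some z)) : Op G) -
        (s.1.1 (FreeGroup.of (some z)) : Op G)) (delta 1)‖ ≤ s.1.2) ∧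
      s'.1.2 ≤ s.1.2 / 2 ∧ cost f' * s'.1.2 ≤ η ∧
      ‖ξ - ev (s'.1.1.comp jj) f' (delta 1)‖ ≤ η := by
  obtain ⟨⟨π, e0⟩, hS, hC, he0⟩ := s
  simp only at hS hC he0 ⊢
  obtain ⟨f, hf⟩ := hC ξ (η / 2) (by linarith)
  have hcf := cost_nonneg f
  set ε := min e0 (η / (2 * (cost f + 1))) with hε
  have hε0 : 0 < ε := lt_min he0 (by positivity)
  have hε1 : ε ≤ e0 := min_le_left _ _
  have hε2 : cost f * ε ≤ η / 2 := by
    have h1 : ε ≤ η / (2 * (cost f + 1)) := min_le_right _ _
    rw [le_div_iff₀ (by positivity)] at h1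
    nlinarith
  obtain ⟨π', g, hS', hC', _, hfix, hu, hv⟩ := hst π hS hC ε hε0
  let sg : FreeGroup (Option ι) →* FreeGroup ι :=
    FreeGroup.lift fun o => o.elim g FreeGroup.of
  obtain ⟨f', hf'⟩ := exists_image sg (π'.comp jj) f
  have hcf' := cost_nonneg f'
  refine ⟨⟨(π', min (e0 / 2) (η / (cost f' + 1))), hS', hC', lt_min (by linarith)
    (by positivity)⟩, f', ?_, ?_, ?_, ?_⟩
  · intro z
    by_cases hz : z = u
    · subst hz
      exact hu.le.trans hε1
    · show ‖((π' (FreeGroup.of (some z)) : Op G) - (π (FreeGroup.of (some z)) : Op G)) (delta 1)‖ ≤ e0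
      rw [hfix z hz, sub_self, ContinuousLinearMap.zero_apply, norm_zero]
      exact he0.le
  · exact min_le_left _ _
  · show cost f' * min (e0 / 2) (η / (cost f' + 1)) ≤ η
    have h1 : min (e0 / 2) (η / (cost f' + 1)) ≤ η / (cost f' + 1) := min_le_right _ _
    have h2 : 0 < min (e0 / 2) (η / (cost f' + 1)) := lt_min (by linarith) (by positivity)
    rw [le_div_iff₀ (by positivity)] at h1
    nlinarith
  · show ‖ξ - ev (π'.comp jj) f' (delta 1)‖ ≤ η
    rw [hf']
    have hd : ‖ev π f (delta 1) - ev ((π'.comp jj).comp sg) f (delta 1)‖ ≤ cost f * ε := by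
      apply dist_ev hW π _ ε hS.comm (fun w g' => hS'.comm (jj (sg w)) g')
      intro o
      cases o with
      | none =>
        have e1 : ((π'.comp jj).comp sg) (FreeGroup.of none) = π' (jj g) := by
          simp [sg]
        rw [e1]
        have h3 : ((π (FreeGroup.of none) : Op G) - (π' (jj g) : Op G)) (delta 1) =
            -(((π' (jj g) : Op G) - (π vv : Op G)) (delta 1)) := by
          rw [ContinuousLinearMap.sub_apply, ContinuousLinearMap.sub_apply, neg_sub]
        rw [h3, norm_neg]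
        exact hv.le
      | some i =>
        have e1 : ((π'.comp jj).comp sg) (FreeGroup.of (some i)) = π' (FreeGroup.of (some i)) := by
          simp [sg, jj]
        rw [e1]
        by_cases hi : i = u
        · subst hi
          have h3 : ((π (FreeGroup.of (some i)) : Op G) - (π' (FreeGroup.of (some i)) : Op G))
              (delta 1) = -(((π' (FreeGroup.of (some i)) : Op G) -
                (π (FreeGroup.of (some i)) : Op G)) (delta 1)) := by
            rw [ContinuousLinearMap.sub_apply, ContinuousLinearMap.sub_apply, neg_sub]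
          rw [h3, norm_neg]
          exact hu.le
        · rw [hfix i hi, sub_self, ContinuousLinearMap.zero_apply, norm_zero]
          exact hε0.le
    calc ‖ξ - ev ((π'.comp jj).comp sg) f (delta 1)‖
        = ‖(ξ - ev π f (delta 1)) + (ev π f (delta 1) - ev ((π'.comp jj).comp sg) f (delta 1))‖ := by
          congr 1; abel
      _ ≤ ‖ξ - ev π f (delta 1)‖ + ‖ev π f (delta 1) - ev ((π'.comp jj).comp sg) f (delta 1)‖ :=
          norm_add_le _ _
      _ ≤ η / 2 + η / 2 := add_le_add hf.le (hd.trans hε2)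
      _ = η := by ring

theorem t_LIM (hSL : S_SLIM) (hW : S_WDIST) : S_LIM := by
  classical
  intro ι G _ _ _ a b u hst ⟨π0, hS0, hC0⟩
  obtain ⟨en, hen⟩ := exists_surjective_nat G
  choose nx ff h1 h2 h3 h4 using fun (s : St ι G) (ξ : Ell G) (n : ℕ) =>
    step hW a b u hst s ξ ((1 / 2 : ℝ) ^ n) (by positivity)
  let ξ : ℕ → Ell G := fun n => delta (en n.unpair.1)
  let s : ℕ → St ι G := fun n => Nat.rec ⟨(π0, 1), hS0, hC0, one_pos⟩
    (fun n s => nx s (ξ n) n) n
  have hs : ∀ n, s (n + 1) = nx (s n) (ξ n) n := fun n => rfl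
  let F : ℕ → GR ι := fun n => ff (s n) (ξ n) n
  have hpos : ∀ n, 0 < (s n).1.2 := fun n => (s n).2.2.2
  have g1 : ∀ n (z : ι), ‖(((s (n + 1)).1.1 (FreeGroup.of (some z)) : Op G) -
        ((s n).1.1 (FreeGroup.of (some z)) : Op G)) (delta 1)‖ ≤ (s n).1.2 :=
    fun n z => h1 (s n) (ξ n) n z
  have g2 : ∀ n, (s (n + 1)).1.2 ≤ (s n).1.2 / 2 := fun n => h2 (s n) (ξ n) n
  have g3 : ∀ n, cost (F n) * (s (n + 1)).1.2 ≤ (1 / 2 : ℝ) ^ n := fun n => h3 (s n) (ξ n) n
  have g4 : ∀ n, ‖ξ n - ev ((s (n + 1)).1.1.comp jj) (F n) (delta 1)‖ ≤ (1 / 2 : ℝ) ^ n :=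
    fun n => h4 (s n) (ξ n) n
  have gk : ∀ n k, (s (n + k)).1.2 ≤ (s n).1.2 / 2 ^ k := by
    intro n k
    induction k with
    | zero => simp
    | succ k ih =>
      have := g2 (n + k)
      rw [← add_assoc]
      calc (s (n + k + 1)).1.2 ≤ (s (n + k)).1.2 / 2 := this
        _ ≤ (s n).1.2 / 2 ^ k / 2 := by linarith
        _ = (s n).1.2 / 2 ^ (k + 1) := by rw [pow_succ, div_div]
  have hdist : ∀ (z : ι) (n k : ℕ),
      dist ((((s (n + k)).1.1.comp jj) (FreeGroup.of z) : Op G) (delta 1))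
        ((((s (n + (k + 1))).1.1.comp jj) (FreeGroup.of z) : Op G) (delta 1)) ≤
        (2 * (s n).1.2) / 2 / 2 ^ k := by
    intro z n k
    rw [dist_comm, dist_eq_norm]
    have e1 : ∀ π : FreeGroup (Option ι) →* unitary (Op G),
        (π.comp jj) (FreeGroup.of z) = π (FreeGroup.of (some z)) := by
      intro π; simp [jj]
    rw [e1, e1, ← ContinuousLinearMap.sub_apply]
    have := (g1 (n + k) z).trans (gk n k)
    rw [mul_div_cancel_left₀ _ (by norm_num : (2:ℝ) ≠ 0)]
    exact this
  obtain ⟨σ, hσ, hlim⟩ := hSL ι G (fun n => (s n).1.1.comp jj) (fun n => std_jj u _ (s n).2.1)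
    (by
      intro z
      refine cauchySeq_of_le_geometric_two (C := 2 * (s 0).1.2) fun n => ?_
      have := hdist z 0 n
      simpa using this)
  refine ⟨σ, hσ, cyc_of_delta σ ?_⟩
  have htail : ∀ (z : ι) (n : ℕ), ‖((((s n).1.1.comp jj) (FreeGroup.of z) : Op G) -
      (σ (FreeGroup.of z) : Op G)) (delta 1)‖ ≤ 2 * (s n).1.2 := by
    intro z n
    rw [ContinuousLinearMap.sub_apply, ← dist_eq_norm]
    have ht : Tendsto (fun k => (((s (n + k)).1.1.comp jj) (FreeGroup.of z) : Op G) (delta 1))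
        atTop (𝓝 ((σ (FreeGroup.of z) : Op G) (delta 1))) := by
      have h := hlim (FreeGroup.of z)
      have h' := h.comp (tendsto_add_atTop_nat n)
      refine h'.congr fun k => ?_
      simp only [Function.comp_apply]
      rw [add_comm k n]
    have := dist_le_of_le_geometric_two_of_tendsto₀ (C := 2 * (s n).1.2)
      (f := fun k => (((s (n + k)).1.1.comp jj) (FreeGroup.of z) : Op G) (delta 1))
      (fun k => hdist z n k) ht
    simpa using this
  intro g ε hε
  obtain ⟨k, hk⟩ := hen g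
  obtain ⟨m, hm⟩ := exists_pow_lt_of_lt_one (show (0:ℝ) < ε / 3 by positivity)
    (show (1 / 2 : ℝ) < 1 by norm_num)
  set n := Nat.pair k m with hn
  have hmn : m ≤ n := Nat.right_le_pair k m
  have hξ : ξ n = delta g := by
    show delta (en n.unpair.1) = delta g
    rw [hn, Nat.unpair_pair, hk]
  have hpow : (1 / 2 : ℝ) ^ n < ε / 3 :=
    lt_of_le_of_lt (pow_le_pow_of_le_one (by norm_num) (by norm_num) hmn) hm
  refine ⟨F n, ?_⟩
  have hA := g4 n
  rw [hξ] at hA
  have hB := dist_ev hW ((s (n + 1)).1.1.comp jj) σ (2 * (s (n + 1)).1.2)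
    (std_jj u _ (s (n + 1)).2.1).comm hσ.comm (fun z => htail z (n + 1)) (F n)
  have hB2 : cost (F n) * (2 * (s (n + 1)).1.2) ≤ 2 * (1 / 2 : ℝ) ^ n := by
    have := g3 n
    linarith
  calc ‖delta g - ev σ (F n) (delta 1)‖
      = ‖(delta g - ev ((s (n + 1)).1.1.comp jj) (F n) (delta 1)) +
        (ev ((s (n + 1)).1.1.comp jj) (F n) (delta 1) - ev σ (F n) (delta 1))‖ := by
        congr 1; abel
    _ ≤ (1 / 2 : ℝ) ^ n + 2 * (1 / 2 : ℝ) ^ n :=
        (norm_add_le _ _).trans (add_le_add hA (hB.trans hB2))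
    _ < ε := by linarith

end Pool.Agent.H581R.FF.TLIM
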