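import Mathlib
import Pool.Agent.H581R.FF.Stubs

/-! The 2-norm of `∑ c(β) β k β⁻¹`. -/

set_option autoImplicit false

namespace Pool.Agent.H581R.FF.TAD

open Pool.Agent.H581R.FF
open scoped ComplexConjugate

variable {ι : Type}

open Classical in
/-- Translation in the fibre of `1`. -/
noncomputable def T (m : ℤ) : Equiv.Perm (FreeGroup ι × ℤ) where
  toFun q := if q.1 = 1 then (q.1, q.2 + m) else q
  invFun q := if q.1 = 1 then (q.1, q.2 - m) else q
  left_inv q := by
    by_cases h : q.1 = 1 <;> simp [h]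
    exact Prod.ext h.symm rfl
  right_inv q := by
    by_cases h : q.1 = 1 <;> simp [h]
    exact Prod.ext h.symm rfl

theorem T_zero : (T 0 : Equiv.Perm (FreeGroup ι × ℤ)) = 1 := by
  ext q : 1
  simp [T]

theorem T_add (m n : ℤ) : (T (m + n) : Equiv.Perm (FreeGroup ι × ℤ)) = T m * T n := by
  ext q : 1
  by_cases h : q.1 = 1
  · simp [T, h, add_comm, add_left_comm]
  · simp [T, h]

theorem T_zpow (m : ℤ) : (T 1 : Equiv.Perm (FreeGroup ι × ℤ)) ^ m = T m := by
  induction m using Int.induction_on with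
  | zero => rw [zpow_zero, T_zero]
  | succ n ih => rw [zpow_add_one, ih, T_add]
  | pred n ih =>
    rw [zpow_sub_one, ih, sub_eq_add_neg, T_add]
    have h : (T 1 : Equiv.Perm (FreeGroup ι × ℤ))⁻¹ = T (-1) := by
      rw [inv_eq_iff_mul_eq_one, ← T_add, add_neg_cancel, T_zero]
    rw [h]

/-- The permutation representation. -/
noncomputable def rep : FreeGroup (Option ι) →* Equiv.Perm (FreeGroup ι × ℤ) :=
  FreeGroup.lift (fun z => match z with
    | none => T 1
    | some i => (Equiv.mulLeft (FreeGroup.of i)).prodCongr (Equiv.refl ℤ))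

theorem rep_jj (β : FreeGroup ι) (q : FreeGroup ι × ℤ) : rep (jj β) q = (β * q.1, q.2) := by
  induction β using FreeGroup.induction_on generalizing q with
  | C1 => simp
  | of i =>
    simp only [rep, FreeGroup.map.of, FreeGroup.lift_apply_of]
    rfl
  | inv_of i ih =>
    have h1 : (rep (jj (FreeGroup.of i)⁻¹) : Equiv.Perm (FreeGroup ι × ℤ)) =
        (rep (jj (FreeGroup.of i)))⁻¹ := by rw [map_inv, map_inv]
    rw [h1, Equiv.Perm.inv_eq_iff_eq, ih]
    simp
  | mul x y hx hy => rw [map_mul, map_mul, Equiv.Perm.mul_apply, hy, hx, mul_assoc]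

theorem rep_vv (m : ℤ) : rep (vv ^ m : FreeGroup (Option ι)) = T m := by
  rw [map_zpow, ← T_zpow]
  simp [rep]

theorem e_inj {β β' : FreeGroup ι} {m m' : ℤ} (hm : m ≠ 0)
    (h : jj β * vv ^ m * (jj β)⁻¹ = jj β' * vv ^ m' * (jj β')⁻¹) : β = β' ∧ m = m' := by
  classical
  have h1 := DFunLike.congr_fun (congrArg rep h) (β, 0)
  have h2 : ∀ (γ : FreeGroup ι) (n : ℤ), rep (jj γ * vv ^ n * (jj γ)⁻¹) (β, 0) =
      (β, if γ = β then n else 0) := by
    intro γ n
    have e : (rep (jj γ)⁻¹ : Equiv.Perm (FreeGroup ι × ℤ)) (β, 0) = (γ⁻¹ * β, 0) := by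
      rw [← map_inv, rep_jj]
    rw [map_mul, map_mul, Equiv.Perm.mul_apply, Equiv.Perm.mul_apply, e, rep_vv]
    by_cases hg : γ = β
    · subst hg
      simp [T, rep_jj]
    · have : γ⁻¹ * β ≠ 1 := fun h0 => hg (inv_mul_eq_one.1 h0)
      simp [T, rep_jj, this, hg]
  rw [h2, h2, if_pos rfl] at h1
  have h3 := (Prod.ext_iff.1 h1).2
  simp only at h3
  by_cases hg : β' = β
  · rw [if_pos hg] at h3
    exact ⟨hg.symm, h3⟩
  · rw [if_neg hg] at h3
    exact absurd h3 hm

/-- The sum of squares of the coefficients of an injective family. -/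
theorem sq_sum {P κ : Type} (S : Finset P) (e : P → FreeGroup κ) (a : P → ℂ)
    (he : ∀ p ∈ S, ∀ q ∈ S, e p = e q → p = q) :
    ∑ w ∈ (∑ p ∈ S, MonoidAlgebra.single (e p) (a p) : GR κ).coeff.support,
      ‖(∑ p ∈ S, MonoidAlgebra.single (e p) (a p) : GR κ).coeff w‖ ^ 2 = ∑ p ∈ S, ‖a p‖ ^ 2 := by
  classical
  set f : GR κ := ∑ p ∈ S, MonoidAlgebra.single (e p) (a p) with hf
  have h1 : ∀ w, f.coeff w = ∑ p ∈ S, if e p = w then a p else 0 := by
    intro w
    rw [hf, MonoidAlgebra.coeff_sum, Finsupp.finsetSum_apply]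
    refine Finset.sum_congr rfl fun p _ => ?_
    rw [MonoidAlgebra.coeff_single, Finsupp.single_apply]
  have h2 : f.coeff.support ⊆ S.image e := by
    intro w hw
    rw [Finsupp.mem_support_iff, h1] at hw
    obtain ⟨p, hp, hpw⟩ := Finset.exists_ne_zero_of_sum_ne_zero hw
    by_cases h : e p = w
    · exact Finset.mem_image.2 ⟨p, hp, h⟩
    · rw [if_neg h] at hpw
      exact absurd rfl hpw
  rw [Finset.sum_subset h2, Finset.sum_image he]
  · refine Finset.sum_congr rfl fun p hp => ?_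
    rw [h1, Finset.sum_eq_single p]
    · rw [if_pos rfl]
    · intro q hq hqp
      rw [if_neg]
      exact fun h => hqp (he q hq p hp h)
    · exact fun h => absurd hp h
  · intro w _ hw
    rw [Finsupp.notMem_support_iff.1 hw]
    simp

theorem kk_eq (k : ℤ →₀ ℂ) : (kk k : GR (Option ι)) = ∑ m ∈ k.support, MonoidAlgebra.single (vv ^ m) (k m) := rfl

theorem Ad_eq (c : FreeGroup ι →₀ ℝ) (k : ℤ →₀ ℂ) : Ad c k =
    ∑ p ∈ c.support ×ˢ k.support, MonoidAlgebra.single (jj p.1 * vv ^ p.2 * (jj p.1)⁻¹)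
      ((c p.1 : ℂ) * k p.2) := by
  rw [Finset.sum_product, Ad, Finsupp.sum]
  refine Finset.sum_congr rfl fun β _ => ?_
  rw [kk_eq, Finset.mul_sum, Finset.sum_mul, Finset.smul_sum]
  refine Finset.sum_congr rfl fun m _ => ?_
  rw [MonoidAlgebra.single_mul_single, MonoidAlgebra.single_mul_single, MonoidAlgebra.smul_single,
    one_mul, mul_one, smul_eq_mul]

theorem t_AD : S_AD := by
  intro ι c c' k hk
  refine ⟨?_, ?_, ?_, ?_⟩
  · have hm : ∀ p ∈ c.support ×ˢ k.support, p.2 ≠ 0 := by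
      intro p hp h0
      have := (Finset.mem_product.1 hp).2
      rw [h0, Finsupp.mem_support_iff] at this
      exact this hk
    rw [Ad_eq, l2, sq_sum, n2, nk, ← Real.sqrt_mul (Finset.sum_nonneg fun _ _ => sq_nonneg _),
      Finset.sum_mul_sum, Finset.sum_product]
    · congr 1
      refine Finset.sum_congr rfl fun β _ => Finset.sum_congr rfl fun m _ => ?_
      rw [norm_mul, mul_pow, Complex.norm_real, Real.norm_eq_abs, sq_abs]
    · intro p hp q _ h
      obtain ⟨h1, h2⟩ := e_inj (hm p hp) h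
      exact Prod.ext h1 h2
  · rw [Ad, Ad, Ad, Finsupp.sum_add_index']
    · simp
    · intro β r s
      push_cast
      rw [add_smul]
  · rw [Ad, Ad, Ad, Finsupp.sum_sub_index]
    intro β r s
    push_cast
    rw [sub_smul]
  · rw [Ad, Finsupp.sum_single_index]
    · rw [map_one, inv_one]
      have : (bs 1 : GR (Option ι)) = 1 := rfl
      rw [this, one_mul, mul_one]
      simp
    · simp

end Pool.Agent.H581R.FF.TAD
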