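import Mathlib
import Pool.Agent.H581R.FF.Stubs

/-! Task BACK: the reverse flow. -/

namespace Pool.Agent.H581R.FF.TBACK

open Pool.Agent.H581R.FF
open Finset

/-- divided powers form of the binomial formula -/
theorem div_pow_add {k : Type} [Field k] [CharZero k] (x y : k) (p : ℕ) :
    ∑ m ∈ antidiagonal p, (x ^ m.1 / (m.1.factorial : k)) * (y ^ m.2 / (m.2.factorial : k)) =
      (x + y) ^ p / (p.factorial : k) := by
  rw [(Commute.all x y).add_pow', Finset.sum_div]
  refine Finset.sum_congr rfl fun m hm => ?_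
  have hp : m.1 + m.2 = p := mem_antidiagonal.1 hm
  have h := Nat.choose_mul_factorial_mul_factorial (n := p) (k := m.1) (by omega)
  rw [show p - m.1 = m.2 by omega] at h
  have h1 : (m.1.factorial : k) ≠ 0 := by exact_mod_cast m.1.factorial_ne_zero
  have h2 : (m.2.factorial : k) ≠ 0 := by exact_mod_cast m.2.factorial_ne_zero
  have h3 : (p.factorial : k) ≠ 0 := by exact_mod_cast p.factorial_ne_zero
  have h' : ((p.choose m.1 : ℕ) : k) * (m.1.factorial : k) * (m.2.factorial : k) =
      (p.factorial : k) := by exact_mod_cast h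
  rw [nsmul_eq_mul, div_mul_div_comm, div_eq_div_iff (mul_ne_zero h1 h2) h3, ← h']
  ring

/-- the double series -/
theorem core {E : Type} [NormedAddCommGroup E] [NormedSpace ℂ E] [CompleteSpace E]
    (a b : ℕ → E) (K S t : ℝ) (hK : 0 < K) (hS : 0 ≤ S) (ht : |t| * K < 1 / 2)
    (ha : ∀ p, ‖a p‖ ≤ p.factorial * K ^ p * S)
    (hb : ∀ m, HasSum (fun n : ℕ => ((t : ℂ) ^ n / (n.factorial : ℂ)) • a (n + m)) (b m)) :
    HasSum (fun m : ℕ => ((((-t : ℝ)) : ℂ) ^ m / (m.factorial : ℂ)) • b m) (a 0) := by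
  set F : ℕ × ℕ → E := fun q =>
    (((((-t : ℝ)) : ℂ) ^ q.1 / (q.1.factorial : ℂ)) * ((t : ℂ) ^ q.2 / (q.2.factorial : ℂ))) •
      a (q.2 + q.1) with hF
  set H : ℕ × ℕ → ℝ := fun q =>
    ((|t| ^ q.1 / (q.1.factorial : ℝ)) * (|t| ^ q.2 / (q.2.factorial : ℝ))) *
      (((q.2 + q.1).factorial : ℝ) * K ^ (q.2 + q.1) * S) with hH
  have hH0 : ∀ q, 0 ≤ H q := fun q => by
    simp only [hH]
    positivity
  have hFH : ∀ q, ‖F q‖ ≤ H q := fun q => by
    simp only [hF, hH, norm_smul, norm_mul, norm_div, norm_pow, Complex.norm_real, norm_neg,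
      Complex.norm_natCast, Real.norm_eq_abs]
    exact mul_le_mul_of_nonneg_left (ha _) (by positivity)
  -- summability
  have hHs : Summable H := by
    rw [← (Finset.HasAntidiagonal.sigmaAntidiagonalEquivProd (A := ℕ)).summable_iff]
    refine (summable_sigma_of_nonneg (fun _ => hH0 _)).2 ⟨fun p => Summable.of_finite, ?_⟩
    have : (fun p : ℕ => ∑' y : (antidiagonal p),
        (H ∘ (Finset.HasAntidiagonal.sigmaAntidiagonalEquivProd (A := ℕ))) ⟨p, y⟩) =
        fun p : ℕ => ((|t| + |t|) * K) ^ p * S := by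
      funext p
      rw [tsum_fintype]
      have e1 : ∑ y : (antidiagonal p), (H ∘ (Finset.HasAntidiagonal.sigmaAntidiagonalEquivProd (A := ℕ))) ⟨p, y⟩
          = ∑ y ∈ antidiagonal p, H y := Finset.sum_coe_sort (antidiagonal p) H
      rw [e1]
      have e2 : ∀ q ∈ antidiagonal p, H q =
          ((|t| ^ q.1 / (q.1.factorial : ℝ)) * (|t| ^ q.2 / (q.2.factorial : ℝ))) *
            ((p.factorial : ℝ) * K ^ p * S) := by
        intro q hq
        have hp : q.2 + q.1 = p := by rw [add_comm]; exact mem_antidiagonal.1 hq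
        simp only [hH, hp]
      rw [Finset.sum_congr rfl e2, ← Finset.sum_mul, div_pow_add]
      have h3 : (p.factorial : ℝ) ≠ 0 := by exact_mod_cast p.factorial_ne_zero
      rw [mul_pow]
      field_simp
    change Summable (fun p : ℕ => ∑' y : (antidiagonal p),
        (H ∘ (Finset.HasAntidiagonal.sigmaAntidiagonalEquivProd (A := ℕ))) ⟨p, y⟩)
    rw [this]
    refine Summable.mul_right S (summable_geometric_of_lt_one (by positivity) ?_)
    nlinarith
  have hFs : Summable F := Summable.of_norm_bounded hHs hFH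
  obtain ⟨s, hs⟩ := hFs
  -- the value
  have hval : s = a 0 := by
    have h1 : HasSum (F ∘ (Finset.HasAntidiagonal.sigmaAntidiagonalEquivProd (A := ℕ))) s :=
      (Finset.HasAntidiagonal.sigmaAntidiagonalEquivProd (A := ℕ)).hasSum_iff.2 hs
    have h2 := h1.sigma (g := fun p : ℕ => if p = 0 then a 0 else 0) (fun p => by
      have e0 := hasSum_fintype (fun y : (antidiagonal p) =>
        (F ∘ (Finset.HasAntidiagonal.sigmaAntidiagonalEquivProd (A := ℕ))) ⟨p, y⟩)
      have e1 : ∑ y : (antidiagonal p), (F ∘ (Finset.HasAntidiagonal.sigmaAntidiagonalEquivProd (A := ℕ))) ⟨p, y⟩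
          = ∑ y ∈ antidiagonal p, F y := Finset.sum_coe_sort (antidiagonal p) F
      have e2 : ∀ q ∈ antidiagonal p, F q =
          (((((-t : ℝ)) : ℂ) ^ q.1 / (q.1.factorial : ℂ)) *
            ((t : ℂ) ^ q.2 / (q.2.factorial : ℂ))) • a p := by
        intro q hq
        have hp : q.2 + q.1 = p := by rw [add_comm]; exact mem_antidiagonal.1 hq
        simp only [hF, hp]
      have e3 : ∑ y ∈ antidiagonal p, F y = if p = 0 then a 0 else 0 := by
        rw [Finset.sum_congr rfl e2, ← Finset.sum_smul, div_pow_add]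
        rcases Nat.eq_zero_or_pos p with rfl | hp
        · simp
        · rw [if_neg hp.ne']
          have : (((-t : ℝ)) : ℂ) + (t : ℂ) = 0 := by push_cast; ring
          rw [this, zero_pow hp.ne', zero_div, zero_smul]
      rw [e1, e3] at e0
      exact e0)
    have h3 : HasSum (fun p : ℕ => if p = 0 then a 0 else 0) (a 0) := hasSum_ite_eq 0 (a 0)
    exact h2.unique h3
  rw [hval] at hs
  -- fibrewise
  refine hs.prod_fiberwise fun m => ?_
  have h4 := (hb m).const_smul (((((-t : ℝ)) : ℂ) ^ m / (m.factorial : ℂ)))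
  simpa only [hF, smul_smul] using h4

/-- weighted sum of the coefficients -/
noncomputable def SS {κ : Type} [DecidableEq κ] (f : GR κ) : ℝ :=
  ∑ w ∈ f.coeff.support, ‖f.coeff w‖ * 2 ^ w.norm

theorem l1_zero (h1 : S_L1) {κ : Type} : l1 (0 : GR κ) = 0 := by
  have := (h1 κ 0 0 0).2.2.1
  simpa using this

theorem l1_sum (h1 : S_L1) {κ : Type} {α : Type} (s : Finset α) (g : α → GR κ) :
    l1 (∑ a ∈ s, g a) ≤ ∑ a ∈ s, l1 (g a) := by
  classical
  induction s using Finset.induction_on with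
  | empty => simp [l1_zero h1]
  | insert a s ha ih =>
    rw [Finset.sum_insert ha, Finset.sum_insert ha]
    exact (h1 κ _ _ 0).1.trans (by gcongr)

theorem expand {κ : Type} (f : GR κ) : f = ∑ w ∈ f.coeff.support, f.coeff w • bs w := by
  have h := MonoidAlgebra.sum_coeff_single f
  conv_lhs => rw [← h]
  refine Finset.sum_congr rfl fun w _ => ?_
  simp [bs]

theorem l1_iter (h1 : S_L1) {κ : Type} [DecidableEq κ] (D : GR κ →ₗ[ℂ] GR κ) (K : ℝ)
    (hD : Bdd D K) (f : GR κ) (p : ℕ) : l1 (D^[p] f) ≤ p.factorial * K ^ p * SS f := by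
  have e : D^[p] f = ∑ w ∈ f.coeff.support, f.coeff w • D^[p] (bs w) := by
    have h := congrArg (fun x => (D ^ p) x) (expand f)
    simp only [map_sum, map_smul, Module.End.pow_apply] at h
    exact h
  rw [e]
  refine (l1_sum h1 _ _).trans ?_
  rw [SS, Finset.mul_sum]
  refine Finset.sum_le_sum fun w _ => ?_
  rw [(h1 κ (D^[p] (bs w)) 0 (f.coeff w)).2.2.1]
  have := mul_le_mul_of_nonneg_left (hD p w) (norm_nonneg (f.coeff w))
  refine this.trans (le_of_eq ?_)
  ring

theorem t_BACK (h1 : S_L1) (h2 : S_EV1) : S_BACK := by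
  intro κ _ D K hK hD G _ π π' t ht hF f
  have hS : 0 ≤ SS f := Finset.sum_nonneg fun w _ => by positivity
  have h := core (fun p => ev π (D^[p] f)) (fun m => ev π' (D^[m] f)) K (SS f) t hK hS ht
    (fun p => (h2 κ G π _).trans (l1_iter h1 D K hD f p)) (fun m => by
      have := hF (D^[m] f)
      simpa only [← Function.iterate_add_apply] using this)
  simpa using h

end Pool.Agent.H581R.FF.TBACK
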