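import Mathlib
import Pool.Agent.H581R.FF.Stubs

/-! BND: analytic bound for a derivation which is nonzero at one generator only. -/

namespace Pool.Agent.H581R.FF

open Pool.Agent.H667R2.FG (Ell permOp lam rho delta LG EltG tau)
open scoped ComplexConjugate

namespace BndAux

variable {κ : Type} [DecidableEq κ]

/-- mass at most `m` on words of length at most `r` -/
def Bb (m : ℝ) (r : ℕ) (f : GR κ) : Prop := l1 f ≤ m ∧ ∀ w ∈ f.coeff.support, w.norm ≤ r

lemma Bb_mono {m m' : ℝ} {r r' : ℕ} {f : GR κ} (hm : m ≤ m') (hr : r ≤ r') (h : Bb m r f) :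
    Bb m' r' f := ⟨h.1.trans hm, fun w hw => (h.2 w hw).trans hr⟩

lemma Bb_add (h : S_L1) {m m' : ℝ} {r : ℕ} {f g : GR κ} (hf : Bb m r f) (hg : Bb m' r g) :
    Bb (m + m') r (f + g) := by
  refine ⟨(h κ f g 0).1.trans (add_le_add hf.1 hg.1), fun w hw => ?_⟩
  rw [MonoidAlgebra.coeff_add] at hw
  rcases Finset.mem_union.1 (Finsupp.support_add hw) with hw | hw
  · exact hf.2 w hw
  · exact hg.2 w hw

lemma Bb_mul (h : S_L1) {m m' : ℝ} {r r' : ℕ} {f g : GR κ} (hm : 0 ≤ m) (hf : Bb m r f)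
    (hg : Bb m' r' g) : Bb (m * m') (r + r') (f * g) := by
  classical
  refine ⟨(h κ f g 0).2.1.trans (mul_le_mul hf.1 hg.1 (h κ g g 0).2.2.2.1 hm), fun w hw => ?_⟩
  have h1 := MonoidAlgebra.support_coeff_mul_subset f g hw
  obtain ⟨x, hx, y, hy, rfl⟩ := Finset.mem_mul.1 h1
  exact (FreeGroup.norm_mul_le x y).trans (add_le_add (hf.2 x hx) (hg.2 y hy))

lemma Bb_neg (h : S_L1) {m : ℝ} {r : ℕ} {f : GR κ} (hf : Bb m r f) : Bb m r (-f) := by
  refine ⟨?_, fun w hw => ?_⟩
  · have h1 := (h κ f f (-1)).2.2.1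
    rw [neg_one_smul, norm_neg, norm_one, one_mul] at h1
    rw [h1]
    exact hf.1
  · rw [MonoidAlgebra.coeff_neg, Finsupp.support_neg] at hw
    exact hf.2 w hw

lemma Bb_bs (h : S_L1) (w : FreeGroup κ) : Bb 1 w.norm (bs w) := by
  refine ⟨(h κ 0 0 0).2.2.2.2 w |>.le, fun w' hw => ?_⟩
  rw [MonoidAlgebra.coeff_single] at hw
  have h1 := Finsupp.support_single_subset hw
  rw [Finset.mem_singleton] at h1
  rw [h1]

lemma l1_zero (h : S_L1) : l1 (0 : GR κ) = 0 := by
  have h1 := (h κ 0 0 0).2.2.1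
  simpa using h1

lemma l1_sum (h : S_L1) {α : Type} (s : Finset α) (g : α → GR κ) :
    l1 (∑ i ∈ s, g i) ≤ ∑ i ∈ s, l1 (g i) := by
  classical
  induction s using Finset.induction_on with
  | empty => simp [l1_zero h]
  | insert a s ha ih =>
    rw [Finset.sum_insert ha, Finset.sum_insert ha]
    exact (h κ _ _ 0).1.trans (add_le_add le_rfl ih)

lemma D_one {D : GR κ →ₗ[ℂ] GR κ} (hD : Leib D) : D 1 = 0 := by
  have h1 := hD 1 1
  rw [mul_one, mul_one, one_mul] at h1
  have h2 : D 1 + D 1 = D 1 + 0 := by rw [add_zero]; exact h1.symm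
  exact add_left_cancel h2

lemma bs_one : (bs 1 : GR κ) = 1 := rfl

lemma bs_mul (x y : FreeGroup κ) : (bs (x * y) : GR κ) = bs x * bs y := by
  rw [bs, bs, bs, MonoidAlgebra.single_mul_single, one_mul]

lemma D_inv {D : GR κ →ₗ[ℂ] GR κ} (hD : Leib D) (x : FreeGroup κ) :
    D (bs x⁻¹) = -(bs x⁻¹ * D (bs x) * bs x⁻¹) := by
  have h1 := hD (bs x⁻¹) (bs x)
  rw [← bs_mul, inv_mul_cancel, bs_one, D_one hD] at h1
  have h2 : D (bs x⁻¹) * bs x = -(bs x⁻¹ * D (bs x)) := eq_neg_of_add_eq_zero_left h1.symm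
  have h3 : D (bs x⁻¹) = D (bs x⁻¹) * bs x * bs x⁻¹ := by
    rw [mul_assoc, ← bs_mul, mul_inv_cancel, bs_one, mul_one]
  rw [h3, h2, neg_mul]

/-- all the letters are mapped to elements of mass `≤ M` on words of length `≤ l` -/
lemma letters (h : S_L1) (z0 : κ) (D : GR κ →ₗ[ℂ] GR κ) (hD : Leib D)
    (hz : ∀ z, z ≠ z0 → D (bs (FreeGroup.of z)) = 0) :
    ∃ (M : ℝ) (l : ℕ), 0 < M ∧ 1 ≤ l ∧ ∀ x : κ × Bool, Bb M l (D (bs (FreeGroup.mk [x]))) := by
  set d := D (bs (FreeGroup.of z0)) with hd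
  have h0 : Bb (l1 d) (d.coeff.support.sup FreeGroup.norm) d :=
    ⟨le_rfl, fun w hw => Finset.le_sup (f := FreeGroup.norm) hw⟩
  have hl0 : 0 ≤ l1 d := (h κ d d 0).2.2.2.1
  refine ⟨l1 d + 1, d.coeff.support.sup FreeGroup.norm + 2, by linarith, by omega, ?_⟩
  have hof : ∀ z : κ, Bb (l1 d + 1) (d.coeff.support.sup FreeGroup.norm) (D (bs (FreeGroup.of z))) := by
    intro z
    by_cases hzz : z = z0
    · subst hzz
      exact Bb_mono (by linarith) le_rfl h0
    · rw [hz z hzz]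
      refine ⟨by rw [l1_zero h]; linarith, fun w hw => ?_⟩
      simp at hw
  rintro ⟨z, b⟩
  cases b
  · have e : FreeGroup.mk [(z, false)] = (FreeGroup.of z)⁻¹ := by
      rw [FreeGroup.of, FreeGroup.inv_mk]
      rfl
    rw [e, D_inv hD]
    apply Bb_neg h
    have h1 : Bb 1 1 (bs (FreeGroup.of z)⁻¹ : GR κ) := by
      refine Bb_mono le_rfl ?_ (Bb_bs h _)
      rw [FreeGroup.norm_inv_eq, FreeGroup.norm_of]
    have h2 := Bb_mul h (by linarith) (Bb_mul h zero_le_one h1 (hof z)) h1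
    refine Bb_mono (by linarith) (by omega) h2
  · exact Bb_mono le_rfl (by omega) (hof z)

lemma word (h : S_L1) (D : GR κ →ₗ[ℂ] GR κ) (hD : Leib D) (M : ℝ) (l : ℕ) (hM : 0 < M)
    (hl : ∀ x : κ × Bool, Bb M l (D (bs (FreeGroup.mk [x])))) :
    ∀ L : List (κ × Bool), Bb (L.length * M) (L.length + l) (D (bs (FreeGroup.mk L))) := by
  intro L
  induction L with
  | nil =>
    have e : (bs (FreeGroup.mk []) : GR κ) = 1 := rfl
    rw [e, D_one hD]
    refine ⟨by rw [l1_zero h]; simp, fun w hw => ?_⟩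
    simp at hw
  | cons x L ih =>
    have e : FreeGroup.mk (x :: L) = FreeGroup.mk [x] * FreeGroup.mk L := by
      rw [FreeGroup.mul_mk]; rfl
    rw [e, bs_mul, hD]
    have h1 : Bb 1 L.length (bs (FreeGroup.mk L) : GR κ) :=
      Bb_mono le_rfl FreeGroup.norm_mk_le (Bb_bs h _)
    have h2 : Bb 1 1 (bs (FreeGroup.mk [x]) : GR κ) :=
      Bb_mono le_rfl (FreeGroup.norm_mk_le (L₁ := [x])) (Bb_bs h _)
    have h3 := Bb_mul h hM.le (hl x) h1
    have h4 := Bb_mul h zero_le_one h2 ih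
    have h5 := Bb_add h (Bb_mono (le_refl (M * 1)) (show l + L.length ≤ (x :: L).length + l by
      rw [List.length_cons]; omega) h3)
      (Bb_mono (le_refl (1 * (L.length * M))) (show 1 + (L.length + l) ≤ (x :: L).length + l by
      rw [List.length_cons]; omega) h4)
    refine Bb_mono (le_of_eq ?_) le_rfl h5
    rw [List.length_cons]
    push_cast
    ring

/-- `∏_{j<n} (r + j l)` -/
def PP (l n r : ℕ) : ℝ := ∏ j ∈ Finset.range n, ((r : ℝ) + j * l)

lemma PP_nonneg (l n r : ℕ) : 0 ≤ PP l n r := Finset.prod_nonneg (fun j _ => by positivity)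

lemma PP_mono (l n : ℕ) {r r' : ℕ} (h : r ≤ r') : PP l n r ≤ PP l n r' := by
  apply Finset.prod_le_prod
  · intro j _; positivity
  · intro j _
    have : (r : ℝ) ≤ r' := by exact_mod_cast h
    linarith

lemma PP_succ (l n r : ℕ) : PP l (n + 1) r = r * PP l n (r + l) := by
  unfold PP
  rw [Finset.prod_range_succ', mul_comm]
  congr 1
  · simp
  · apply Finset.prod_congr rfl
    intro j _
    push_cast
    ring

lemma PP_le (l n r : ℕ) (hl : 1 ≤ l) : PP l n r ≤ n.factorial * (2 * (l : ℝ)) ^ n * 2 ^ r := by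
  have hl' : (1 : ℝ) ≤ l := by exact_mod_cast hl
  rcases Nat.eq_zero_or_pos r with rfl | hr
  · rcases Nat.eq_zero_or_pos n with rfl | hn
    · simp [PP]
    · have : PP l n 0 = 0 := by
        unfold PP
        apply Finset.prod_eq_zero (Finset.mem_range.2 hn)
        simp
      rw [this]
      positivity
  · obtain ⟨s, rfl⟩ : ∃ s, r = s + 1 := ⟨r - 1, by omega⟩
    have h1 : PP l n (s + 1) ≤ ∏ j ∈ Finset.range n, ((l : ℝ) * ((s + 1 : ℕ) + j : ℕ)) := by
      apply Finset.prod_le_prod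
      · intro j _; positivity
      · intro j _
        push_cast
        have : (0 : ℝ) ≤ s := by positivity
        nlinarith
    have h2 : ∏ j ∈ Finset.range n, ((l : ℝ) * ((s + 1 : ℕ) + j : ℕ)) =
        (l : ℝ) ^ n * ((s + 1).ascFactorial n : ℕ) := by
      rw [Finset.prod_mul_distrib, Finset.prod_const, Finset.card_range,
        Nat.ascFactorial_eq_prod_range, Nat.cast_prod]
    rw [h2, Nat.ascFactorial_eq_factorial_mul_choose] at h1
    refine h1.trans ?_
    have h3 : ((s + n).choose n : ℝ) ≤ 2 ^ (s + n) := by exact_mod_cast Nat.choose_le_two_pow _ _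
    have h4 : (2 : ℝ) ^ (s + n) ≤ 2 ^ n * 2 ^ (s + 1) := by
      rw [← pow_add]
      exact pow_le_pow_right₀ (by norm_num) (by omega)
    push_cast
    calc (l : ℝ) ^ n * ((n.factorial : ℝ) * ((s + n).choose n : ℝ))
        ≤ (l : ℝ) ^ n * ((n.factorial : ℝ) * (2 ^ n * 2 ^ (s + 1))) := by
          gcongr
          exact h3.trans h4
      _ = _ := by rw [mul_pow]; ring

lemma iter (h : S_L1) (D : GR κ →ₗ[ℂ] GR κ) (M : ℝ) (l : ℕ) (hM : 0 < M)
    (hw : ∀ w : FreeGroup κ, Bb (w.norm * M) (w.norm + l) (D (bs w))) :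
    ∀ (n : ℕ) (w : FreeGroup κ), l1 (D^[n] (bs w)) ≤ M ^ n * PP l n w.norm := by
  intro n
  induction n with
  | zero =>
    intro w
    simp only [Function.iterate_zero, id_eq, pow_zero, one_mul, PP, Finset.range_zero,
      Finset.prod_empty]
    exact ((h κ 0 0 0).2.2.2.2 w).le
  | succ n ih =>
    intro w
    rw [Function.iterate_succ_apply]
    obtain ⟨h1, h2⟩ := hw w
    set f := D (bs w) with hf
    have e : D^[n] f = ∑ x ∈ f.coeff.support, f.coeff x • D^[n] (bs x) := by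
      have e1 : f = ∑ x ∈ f.coeff.support, f.coeff x • (bs x : GR κ) := by
        conv_lhs => rw [← MonoidAlgebra.sum_coeff_single f]
        rw [Finsupp.sum]
        apply Finset.sum_congr rfl
        intro x _
        rw [MonoidAlgebra.smul_single, smul_eq_mul, mul_one]
      have e2 : ∀ g : GR κ, D^[n] g = (D ^ n : Module.End ℂ (GR κ)) g := fun g =>
        (Module.End.pow_apply D n g).symm
      rw [e2 f]
      conv_lhs => rw [e1]
      rw [map_sum]
      apply Finset.sum_congr rfl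
      intro x _
      rw [map_smul, e2]
    rw [e]
    have h3 : ∀ x ∈ f.coeff.support, l1 (f.coeff x • D^[n] (bs x)) ≤
        ‖f.coeff x‖ * (M ^ n * PP l n (w.norm + l)) := by
      intro x hx
      rw [(h κ _ (bs x) _).2.2.1]
      apply mul_le_mul_of_nonneg_left _ (norm_nonneg _)
      refine (ih x).trans ?_
      apply mul_le_mul_of_nonneg_left _ (by positivity)
      exact PP_mono l n (h2 x hx)
    calc l1 (∑ x ∈ f.coeff.support, f.coeff x • D^[n] (bs x))
        ≤ ∑ x ∈ f.coeff.support, l1 (f.coeff x • D^[n] (bs x)) := l1_sum h _ _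
      _ ≤ ∑ x ∈ f.coeff.support, ‖f.coeff x‖ * (M ^ n * PP l n (w.norm + l)) :=
          Finset.sum_le_sum h3
      _ = l1 f * (M ^ n * PP l n (w.norm + l)) := by rw [← Finset.sum_mul]; rfl
      _ ≤ (w.norm * M) * (M ^ n * PP l n (w.norm + l)) := by
          apply mul_le_mul_of_nonneg_right h1
          have := PP_nonneg l n (w.norm + l)
          positivity
      _ = M ^ (n + 1) * PP l (n + 1) w.norm := by
          rw [PP_succ, pow_succ]; ring

end BndAux

open BndAux in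
theorem t_BND (h : S_L1) : S_BND := by
  intro κ _ z0 D hD hz
  obtain ⟨M, l, hM, hl, hlet⟩ := letters h z0 D hD hz
  have hl' : (1 : ℝ) ≤ l := by exact_mod_cast hl
  refine ⟨2 * M * l, by positivity, ?_⟩
  intro n w
  have hw : ∀ w : FreeGroup κ, Bb (w.norm * M) (w.norm + l) (D (bs w)) := by
    intro w
    have := word h D hD M l hM hlet w.toWord
    rw [FreeGroup.mk_toWord] at this
    exact this
  refine (iter h D M l hM hw n w).trans ?_
  calc M ^ n * PP l n w.norm ≤ M ^ n * (n.factorial * (2 * (l : ℝ)) ^ n * 2 ^ w.norm) :=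
        mul_le_mul_of_nonneg_left (PP_le l n w.norm hl) (by positivity)
    _ = _ := by
      rw [mul_pow (2 * M) (l : ℝ), mul_pow 2 M, mul_pow 2 (l : ℝ)]; ring

end Pool.Agent.H581R.FF
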