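import Mathlib
import Pool.Agent.H581R.FF.Stubs

set_option autoImplicit false

namespace Pool.Agent.H581R.FF.TCONG

open Pool.Agent.H581R.FF
open Pool.Agent.H667R2.FG (Ell permOp lam rho delta LG EltG tau)

theorem mem_tr {G G' : Type} (e : G ≃ G') (f : Ell G) :
    Memℓp (fun h : G' => (f (e.symm h) : ℂ)) 2 := by
  have h1 := (lp.memℓp f).summable (by norm_num)
  refine memℓp_gen ?_
  exact (e.symm.summable_iff (f := fun h => ‖f h‖ ^ (2 : ENNReal).toReal)).2 h1

/-- transport of square summable functions by a bijection -/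
noncomputable def Wl {G G' : Type} (e : G ≃ G') : Ell G →ₗ[ℂ] Ell G' where
  toFun f := ⟨fun h => f (e.symm h), mem_tr e f⟩
  map_add' := fun f g => by ext h; rfl
  map_smul' := fun c f => by ext h; rfl

theorem Wl_apply {G G' : Type} (e : G ≃ G') (f : Ell G) (h : G') :
    (Wl e f) h = f (e.symm h) := rfl

/-- transport of square summable functions by a bijection, isometric version -/
noncomputable def We {G G' : Type} (e : G ≃ G') : Ell G ≃ₗᵢ[ℂ] Ell G' where
  toLinearEquiv := LinearEquiv.ofLinearMap (Wl e) (Wl e.symm)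
    (by ext f h; simp [Wl_apply]) (by ext f h; simp [Wl_apply])
  norm_map' := fun f => by
    have h1 : (0 : ℝ) < (2 : ENNReal).toReal := by norm_num
    rw [lp.norm_eq_tsum_rpow h1, lp.norm_eq_tsum_rpow h1]
    congr 1
    exact e.symm.tsum_eq (fun h => ‖f h‖ ^ (2 : ENNReal).toReal)

theorem We_apply {G G' : Type} (e : G ≃ G') (f : Ell G) (h : G') :
    (We e f) h = f (e.symm h) := rfl

theorem We_symm_apply {G G' : Type} (e : G ≃ G') (f : Ell G') (h : G) :
    ((We e).symm f) h = f (e h) := rfl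

theorem conj_lam {G G' : Type} [Group G] [Group G'] (e : G ≃* G') (g : G) :
    (We e.toEquiv).conjStarAlgEquiv (lam g) = lam (e g) := by
  ext f h
  rw [LinearIsometryEquiv.conjStarAlgEquiv_apply_apply, We_apply]
  change ((We e.toEquiv).symm f) (g⁻¹ * e.toEquiv.symm h) = f ((e g)⁻¹ * h)
  rw [We_symm_apply]
  have h1 : e.toEquiv (g⁻¹ * e.toEquiv.symm h) = (e g)⁻¹ * h := by
    change e (g⁻¹ * e.symm h) = _
    simp
  rw [h1]

theorem cent_iff {A B : Type} [Ring A] [StarRing A] [Algebra ℂ A] [StarModule ℂ A]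
    [Ring B] [StarRing B] [Algebra ℂ B] [StarModule ℂ B] (Φ : A ≃⋆ₐ[ℂ] B) {S : Set A} {T : Set B}
    (h : ∀ a, a ∈ S ↔ Φ a ∈ T) (x : A) :
    x ∈ StarSubalgebra.centralizer ℂ S ↔ Φ x ∈ StarSubalgebra.centralizer ℂ T := by
  rw [StarSubalgebra.mem_centralizer_iff, StarSubalgebra.mem_centralizer_iff]
  constructor
  · intro H t ht
    obtain ⟨a, rfl⟩ := (EquivLike.surjective Φ : Function.Surjective (Φ : A → B)) t
    have ha := (h a).2 ht
    obtain ⟨h1, h2⟩ := H a ha
    refine ⟨?_, ?_⟩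
    · rw [← map_mul, h1, map_mul]
    · rw [← map_star, ← map_mul, h2, map_mul]
  · intro H a ha
    obtain ⟨h1, h2⟩ := H (Φ a) ((h a).1 ha)
    have hinj : Function.Injective (Φ : A → B) := EquivLike.injective Φ
    refine ⟨?_, ?_⟩
    · apply hinj
      rw [map_mul, h1, map_mul]
    · apply hinj
      rw [map_mul, map_star, h2, map_mul, map_star]

theorem t_CONG : S_CONG := by
  intro G G' _ _ e
  set Φ := (We e.toEquiv).conjStarAlgEquiv with hΦ
  have h0 : ∀ a : Op G, a ∈ Set.range (lam (G := G)) ↔ Φ a ∈ Set.range (lam (G := G')) := by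
    intro a
    constructor
    · rintro ⟨g, rfl⟩
      exact ⟨e g, (conj_lam e g).symm⟩
    · rintro ⟨g', hg'⟩
      refine ⟨e.symm g', ?_⟩
      apply (EquivLike.injective Φ : Function.Injective (Φ : Op G → Op G'))
      rw [hΦ, conj_lam, ← hΦ, ← hg']
      simp
  have h1 := fun a => cent_iff Φ h0 a
  have h2 : ∀ a : Op G, a ∈ (LG G).toStarSubalgebra ↔ Φ a ∈ (LG G').toStarSubalgebra :=
    fun a => cent_iff Φ (S := (StarSubalgebra.centralizer ℂ (Set.range (lam (G := G))) :
      Set (Op G))) (T := (StarSubalgebra.centralizer ℂ (Set.range (lam (G := G'))) :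
      Set (Op G'))) h1 a
  have h3 : ∀ b : Op G', b ∈ (LG G').toStarSubalgebra → Φ.symm b ∈ (LG G).toStarSubalgebra := by
    intro b hb
    rw [h2]
    simpa using hb
  refine ⟨StarAlgEquiv.ofStarAlgHom
    (StarAlgHom.codRestrict ((Φ : Op G →⋆ₐ[ℂ] Op G').comp (LG G).toStarSubalgebra.subtype)
      (LG G').toStarSubalgebra (fun x => (h2 x.1).1 x.2))
    (StarAlgHom.codRestrict ((Φ.symm : Op G' →⋆ₐ[ℂ] Op G).comp (LG G').toStarSubalgebra.subtype)
      (LG G).toStarSubalgebra (fun x => h3 x.1 x.2)) ?_ ?_⟩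
  · ext x : 2
    exact Φ.symm_apply_apply x.1
  · ext x : 2
    exact Φ.apply_symm_apply x.1

end Pool.Agent.H581R.FF.TCONG
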