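import Mathlib
import Pool.Agent.H581R.FF.Stubs

/-! Existence of derivations of the group ring of a free group. -/

set_option autoImplicit false

namespace Pool.Agent.H581R.FF.TDER

open MonoidAlgebra TrivSqZeroExt Pool.Agent.H581R.FF

variable {κ : Type}

theorem bs_mul_inv (w : FreeGroup κ) : (bs w : GR κ) * bs w⁻¹ = 1 := by
  rw [MonoidAlgebra.single_mul_single, mul_inv_cancel, one_mul]; rfl

theorem bs_inv_mul (w : FreeGroup κ) : (bs w⁻¹ : GR κ) * bs w = 1 := by
  rw [MonoidAlgebra.single_mul_single, inv_mul_cancel, one_mul]; rfl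

/-- The unit `w + ε x`. -/
noncomputable def du (w : FreeGroup κ) (x : GR κ) : (DualNumber (GR κ))ˣ where
  val := inl (bs w) + inr x
  inv := inl (bs w⁻¹) + inr (-(bs w⁻¹ * x * bs w⁻¹))
  val_inv := by
    apply TrivSqZeroExt.ext
    · simp only [fst_mul, fst_add, fst_inl, fst_inr, add_zero, fst_one]
      exact bs_mul_inv w
    · simp only [snd_mul, fst_add, fst_inl, fst_inr, add_zero, snd_add, snd_inl, snd_inr, zero_add,
        smul_eq_mul, MulOpposite.smul_eq_mul_unop, MulOpposite.unop_op, snd_one]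
      rw [mul_neg, ← mul_assoc, ← mul_assoc, bs_mul_inv, one_mul, neg_add_cancel]
  inv_val := by
    apply TrivSqZeroExt.ext
    · simp only [fst_mul, fst_add, fst_inl, fst_inr, add_zero, fst_one]
      exact bs_inv_mul w
    · simp only [snd_mul, fst_add, fst_inl, fst_inr, add_zero, snd_add, snd_inl, snd_inr, zero_add,
        smul_eq_mul, MulOpposite.smul_eq_mul_unop, MulOpposite.unop_op, snd_one]
      rw [neg_mul, mul_assoc, bs_inv_mul, mul_one, add_neg_cancel]

/-- The homomorphism to the dual numbers. -/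
noncomputable def rho (d : κ → GR κ) : GR κ →ₐ[ℂ] DualNumber (GR κ) :=
  MonoidAlgebra.lift ℂ (DualNumber (GR κ)) (FreeGroup κ)
    ((Units.coeHom _).comp (FreeGroup.lift (fun z => du (FreeGroup.of z) (d z))))

theorem fst_rho (d : κ → GR κ) (x : GR κ) : fst (rho d x) = x := by
  have h1 : ∀ w : FreeGroup κ, fst (rho d (MonoidAlgebra.of ℂ (FreeGroup κ) w)) =
      MonoidAlgebra.of ℂ (FreeGroup κ) w := by
    intro w
    rw [rho, MonoidAlgebra.lift_of]
    have : ((fstHom ℂ (GR κ) (GR κ) : DualNumber (GR κ) →* GR κ).comp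
        ((Units.coeHom _).comp (FreeGroup.lift (fun z => du (FreeGroup.of z) (d z))))) =
        MonoidAlgebra.of ℂ (FreeGroup κ) := by
      apply FreeGroup.ext_hom
      intro a
      simp [du]
    exact DFunLike.congr_fun this w
  have h2 : (fstHom ℂ (GR κ) (GR κ)).comp (rho d) = AlgHom.id ℂ (GR κ) := by
    apply MonoidAlgebra.algHom_ext
    · intro w
      exact h1 w
    · exact Subsingleton.elim _ _
  exact DFunLike.congr_fun h2 x

/-- The derivation. -/
noncomputable def dl (d : κ → GR κ) : GR κ →ₗ[ℂ] GR κ :=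
  (sndHom (GR κ) (GR κ)).restrictScalars ℂ ∘ₗ (rho d).toLinearMap

theorem dl_apply (d : κ → GR κ) (x : GR κ) : dl d x = snd (rho d x) := rfl

theorem t_DER : S_DER := by
  intro κ d
  refine ⟨dl d, ?_, ?_⟩
  · intro x y
    rw [dl_apply, map_mul, snd_mul, fst_rho, fst_rho, dl_apply, dl_apply, smul_eq_mul,
      MulOpposite.smul_eq_mul_unop, MulOpposite.unop_op, add_comm]
  · intro z
    have : (bs (FreeGroup.of z) : GR κ) = MonoidAlgebra.of ℂ (FreeGroup κ) (FreeGroup.of z) := rfl
    rw [this, dl_apply, rho, MonoidAlgebra.lift_of]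
    simp [du]

end Pool.Agent.H581R.FF.TDER
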