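import Mathlib
import Pool.Agent.H581R.FF.Stubs

/-! Task EV2: evaluations at standard systems are isometric for the 2-norms. -/

namespace Pool.Agent.H581R.FF.TEV2

open Pool.Agent.H667R2.FG (Ell permOp lam rho delta LG EltG tau)
open scoped ComplexConjugate InnerProductSpace

theorem ev_sum {κ A : Type} [Ring A] [StarMul A] [Algebra ℂ A]
    (π : FreeGroup κ →* unitary A) (f : GR κ) :
    ev π f = ∑ w ∈ f.coeff.support, f.coeff w • (π w : A) := by
  unfold ev
  rw [MonoidAlgebra.lift_apply]
  rfl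

variable {κ G : Type} [Group G]

theorem tau_one : tau (1 : Op G) = 1 := by
  classical
  show (delta (1 : G) : Ell G) 1 = 1
  rw [Pool.Agent.H667R2.FG.TL2.delta_apply, if_pos rfl]

theorem tau_inner (x : Op G) : tau x = ⟪(delta (1 : G) : Ell G), x (delta 1)⟫_ℂ := by
  rw [Pool.Agent.H667R2.FG.TL2.inner_delta]
  rfl

theorem tau_sum (s : Finset (FreeGroup κ)) (c : FreeGroup κ → ℂ) (F : FreeGroup κ → Op G) :
    tau (∑ w ∈ s, c w • F w) = ∑ w ∈ s, c w * tau (F w) := by
  rw [tau_inner, _root_.sum_apply, inner_sum]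
  refine Finset.sum_congr rfl ?_
  intro w _
  rw [tau_inner, _root_.smul_apply, inner_smul_right]

theorem inner_uu (π : FreeGroup κ →* unitary (Op G)) (v w : FreeGroup κ) :
    ⟪(π v : Op G) (delta 1), (π w : Op G) (delta 1)⟫_ℂ = tau (π (v⁻¹ * w) : Op G) := by
  have h1 : (π (v⁻¹ * w) : Op G) = star (π v : Op G) * (π w : Op G) := by
    rw [map_mul, map_inv]
    rfl
  rw [h1, tau_inner, ContinuousLinearMap.star_eq_adjoint]
  show _ = ⟪(delta (1 : G) : Ell G), (ContinuousLinearMap.adjoint (π v : Op G))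
    ((π w : Op G) (delta 1))⟫_ℂ
  rw [ContinuousLinearMap.adjoint_inner_right]

theorem orth (π : FreeGroup κ →* unitary (Op G)) (h : Std π) :
    Orthonormal ℂ (fun w : FreeGroup κ => (π w : Op G) (delta 1)) := by
  classical
  rw [orthonormal_iff_ite]
  intro v w
  rw [inner_uu]
  by_cases hvw : v = w
  · subst hvw
    rw [if_pos rfl, inv_mul_cancel, map_one]
    exact tau_one
  · rw [if_neg hvw]
    refine h.free _ ?_
    intro h1
    exact hvw (inv_mul_eq_one.1 h1)

theorem t_EV2 : S_EV2 := by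
  intro κ G _ π h f
  classical
  constructor
  · rw [ev_sum, tau_sum]
    by_cases h1 : (1 : FreeGroup κ) ∈ f.coeff.support
    · rw [Finset.sum_eq_single_of_mem 1 h1]
      · have h0 : π 1 = 1 := map_one π
        rw [h0]
        show f.coeff 1 * tau (1 : Op G) = f.coeff 1
        rw [tau_one, mul_one]
      · intro w _ hw
        rw [h.free w hw, mul_zero]
    · rw [Finset.sum_eq_zero]
      · exact (Finsupp.notMem_support_iff.1 h1).symm
      · intro w hw
        have : w ≠ 1 := by
          rintro rfl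
          exact h1 hw
        rw [h.free w this, mul_zero]
  · have h2 : (ev π f) (delta 1) =
        ∑ w ∈ f.coeff.support, f.coeff w • (π w : Op G) (delta 1) := by
      rw [ev_sum, _root_.sum_apply]
      rfl
    have h3 := (orth π h).inner_sum (fun w => f.coeff w) (fun w => f.coeff w) f.coeff.support
    have h4 : (‖(ev π f) (delta 1)‖ ^ 2 : ℝ) = ∑ w ∈ f.coeff.support, ‖f.coeff w‖ ^ 2 := by
      have h5 : ((‖(ev π f) (delta 1)‖ ^ 2 : ℝ) : ℂ) =
          ((∑ w ∈ f.coeff.support, ‖f.coeff w‖ ^ 2 : ℝ) : ℂ) := by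
        push_cast
        rw [h2]
        have h6 := inner_self_eq_norm_sq_to_K (𝕜 := ℂ)
          (∑ w ∈ f.coeff.support, f.coeff w • (π w : Op G) (delta 1))
        have h7 : ((‖∑ w ∈ f.coeff.support, f.coeff w • (π w : Op G) (delta 1)‖ : ℝ) : ℂ) ^ 2 =
            ⟪∑ w ∈ f.coeff.support, f.coeff w • (π w : Op G) (delta 1),
              ∑ w ∈ f.coeff.support, f.coeff w • (π w : Op G) (delta 1)⟫_ℂ := h6.symm
        rw [h7]
        refine h3.trans ?_
        refine Finset.sum_congr rfl ?_
        intro w _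
        exact Complex.conj_mul' _
      exact_mod_cast h5
    unfold l2
    rw [← h4, Real.sqrt_sq (norm_nonneg _)]

end Pool.Agent.H581R.FF.TEV2
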