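import Mathlib
import Pool.Agent.H581R.FF.Stubs

/-! Task EVST: the involution of the group ring and evaluations. -/

namespace Pool.Agent.H581R.FF.TEVST

open Pool.Agent.H667R2.FG (Ell permOp lam rho delta LG EltG tau)
open scoped ComplexConjugate

variable {κ : Type}

theorem coeff_st (f : GR κ) (w : FreeGroup κ) : (st f).coeff w = conj (f.coeff w⁻¹) := by
  classical
  unfold st
  rw [Finsupp.sum, MonoidAlgebra.coeff_sum, Finsupp.finsetSum_apply]
  simp only [MonoidAlgebra.coeff_single]
  have h1 : ∀ v ∈ f.coeff.support, (Finsupp.single v⁻¹ (conj (f.coeff v)) : FreeGroup κ →₀ ℂ) w =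
      if v = w⁻¹ then conj (f.coeff w⁻¹) else 0 := by
    intro v _
    rw [Finsupp.single_apply]
    by_cases h : v = w⁻¹
    · subst h
      rw [inv_inv, if_pos rfl, if_pos rfl]
    · rw [if_neg h, if_neg]
      intro h2
      exact h (by rw [← h2, inv_inv])
  rw [Finset.sum_congr rfl h1, Finset.sum_ite_eq']
  by_cases h : w⁻¹ ∈ f.coeff.support
  · rw [if_pos h]
  · rw [if_neg h, Finsupp.notMem_support_iff.1 h, map_zero]

theorem st_add (f g : GR κ) : st (f + g) = st f + st g := by
  ext w
  rw [MonoidAlgebra.coeff_add, Finsupp.add_apply, coeff_st, coeff_st, coeff_st,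
    MonoidAlgebra.coeff_add, Finsupp.add_apply, map_add]

theorem st_st (f : GR κ) : st (st f) = f := by
  ext w
  rw [coeff_st, coeff_st, inv_inv, Complex.conj_conj]

theorem st_zero : st (0 : GR κ) = 0 := by
  ext w
  rw [coeff_st]
  simp

theorem st_single (v : FreeGroup κ) (c : ℂ) :
    st (MonoidAlgebra.single v c : GR κ) = MonoidAlgebra.single v⁻¹ (conj c) := by
  unfold st
  rw [MonoidAlgebra.coeff_single, Finsupp.sum_single_index]
  rw [map_zero, MonoidAlgebra.single_zero]

theorem st_sum {α : Type} (s : Finset α) (F : α → GR κ) :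
    st (∑ i ∈ s, F i) = ∑ i ∈ s, st (F i) := by
  classical
  induction s using Finset.induction_on with
  | empty => simp [st_zero]
  | insert a s ha ih =>
    rw [Finset.sum_insert ha, Finset.sum_insert ha, st_add, ih]

/-- every element is the sum of its terms -/
theorem eq_sum (f : GR κ) :
    f = ∑ w ∈ f.coeff.support, (MonoidAlgebra.single w (f.coeff w) : GR κ) := by
  apply MonoidAlgebra.coeff_injective
  rw [MonoidAlgebra.coeff_sum]
  simp only [MonoidAlgebra.coeff_single]
  exact (Finsupp.sum_single f.coeff).symm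

theorem ind {P : GR κ → Prop} (h1 : ∀ w c, P (MonoidAlgebra.single w c))
    (h2 : ∀ f g, P f → P g → P (f + g)) (h0 : P 0) (f : GR κ) : P f := by
  classical
  rw [eq_sum f]
  generalize f.coeff.support = s
  generalize (fun w => f.coeff w) = F
  induction s using Finset.induction_on with
  | empty => simpa using h0
  | insert a s ha ih =>
    rw [Finset.sum_insert ha]
    exact h2 _ _ (h1 _ _) ih

theorem st_mul (f g : GR κ) : st (f * g) = st g * st f := by
  refine ind (P := fun f => st (f * g) = st g * st f) ?_ ?_ ?_ f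
  · intro v a
    refine ind (P := fun g => st (MonoidAlgebra.single v a * g) =
      st g * st (MonoidAlgebra.single v a)) ?_ ?_ ?_ g
    · intro w b
      rw [MonoidAlgebra.single_mul_single, st_single, st_single, st_single,
        MonoidAlgebra.single_mul_single, mul_inv_rev, map_mul, mul_comm (conj a)]
    · intro x y hx hy
      rw [mul_add, st_add, hx, hy, st_add, add_mul]
    · rw [mul_zero, st_zero, zero_mul]
  · intro x y hx hy
    rw [add_mul, st_add, hx, hy, st_add, mul_add]
  · rw [zero_mul, st_zero, mul_zero]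

theorem ev_single {A : Type} [Ring A] [StarMul A] [Algebra ℂ A]
    (π : FreeGroup κ →* unitary A) (w : FreeGroup κ) (c : ℂ) :
    ev π (MonoidAlgebra.single w c) = c • (π w : A) := by
  unfold ev
  rw [MonoidAlgebra.lift_single]
  rfl

theorem ev_st {G : Type} (π : FreeGroup κ →* unitary (Op G)) (f : GR κ) :
    ev π (st f) = star (ev π f) := by
  refine ind (P := fun f => ev π (st f) = star (ev π f)) ?_ ?_ ?_ f
  · intro w c
    rw [st_single, ev_single, ev_single, star_smul, map_inv]
    rfl
  · intro x y hx hy
    rw [st_add, map_add, map_add, hx, hy, star_add]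
  · rw [st_zero, map_zero, star_zero]

theorem t_EVST : S_EVST := fun _ _ _ π f g => ⟨ev_st π f, st_mul f g, st_add f g, st_st f⟩

end Pool.Agent.H581R.FF.TEVST
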