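import Mathlib
import Pool.Agent.H581R.FF.Stubs

set_option autoImplicit false

namespace Pool.Agent.H581R.FF.TFCYC

open Pool.Agent.H581R.FF
open Pool.Agent.H667R2.FG (Ell permOp lam rho delta LG EltG tau)

theorem t_FCYC : S_FCYC := by
  intro κ D G _ π π' t hflow hcyc ξ ε hε
  obtain ⟨f, hf⟩ := hcyc ξ (ε / 2) (by positivity)
  have h1 := hflow f
  have h2 : HasSum (fun n : ℕ => ((((t : ℂ) ^ n / (n.factorial : ℂ)) • ev π' (D^[n] f)) :
      Op G) (delta 1)) ((ev π f) (delta 1)) := by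
    have := (ContinuousLinearMap.apply ℂ (Ell G) (delta (1 : G))).hasSum h1
    simpa using this
  have h3 := h2.eventually (Metric.ball_mem_nhds _ (show (0 : ℝ) < ε / 2 by positivity))
  obtain ⟨s, hs⟩ := h3.exists
  refine ⟨∑ n ∈ s, ((t : ℂ) ^ n / (n.factorial : ℂ)) • (D^[n] f), ?_⟩
  have h4 : (ev π' (∑ n ∈ s, ((t : ℂ) ^ n / (n.factorial : ℂ)) • (D^[n] f))) (delta 1) =
      ∑ n ∈ s, (((((t : ℂ) ^ n / (n.factorial : ℂ)) • ev π' (D^[n] f)) : Op G) (delta 1)) := by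
    rw [map_sum, ContinuousLinearMap.sum_apply]
    apply Finset.sum_congr rfl
    intro n _
    rw [map_smul]
  rw [h4]
  rw [dist_eq_norm] at hs
  calc ‖ξ - ∑ n ∈ s, (((((t : ℂ) ^ n / (n.factorial : ℂ)) • ev π' (D^[n] f)) : Op G) (delta 1))‖
      = ‖(ξ - (ev π f) (delta 1)) - (∑ n ∈ s, (((((t : ℂ) ^ n / (n.factorial : ℂ)) •
        ev π' (D^[n] f)) : Op G) (delta 1)) - (ev π f) (delta 1))‖ := by congr 1; abel
    _ ≤ ‖ξ - (ev π f) (delta 1)‖ + ‖∑ n ∈ s, (((((t : ℂ) ^ n / (n.factorial : ℂ)) •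
        ev π' (D^[n] f)) : Op G) (delta 1)) - (ev π f) (delta 1)‖ := norm_sub_le _ _
    _ < ε / 2 + ε / 2 := add_lt_add hf hs
    _ = ε := by ring

end Pool.Agent.H581R.FF.TFCYC
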