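import Mathlib
import Pool.Agent.H581R.FF.Stubs

namespace Pool.Agent.H581R.FF.TFFIX

open Pool.Agent.H667R2.FG (Ell permOp lam rho delta LG EltG tau)
open scoped ComplexConjugate
open Pool.Agent.H581R.FF

theorem t_FFIX : S_FFIX := by
  intro κ D G _ π π' t hF w hw
  have hz : ∀ n : ℕ, D^[n + 1] (bs w) = 0 := by
    intro n
    induction n with
    | zero => simpa using hw
    | succ n ih => rw [Function.iterate_succ_apply', ih, map_zero]
  have h1 := hF (bs w)
  have h2 : HasSum (fun n : ℕ => ((t : ℂ) ^ n / (n.factorial : ℂ)) • ev π (D^[n] (bs w)))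
      (ev π (bs w)) := by
    have h3 := hasSum_ite_eq (0 : ℕ) (ev π (bs w))
    convert h3 using 2 with n
    cases n with
    | zero => simp
    | succ n => rw [hz n]; simp
  have h4 := h1.unique h2
  have h5 : ∀ ρ : FreeGroup κ →* unitary (Op G), ev ρ (bs w) = (ρ w : Op G) := by
    intro ρ
    unfold ev bs
    simp
  rw [h5, h5] at h4
  exact Subtype.ext h4

end Pool.Agent.H581R.FF.TFFIX
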