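import Mathlib
import Pool.Agent.H581R.FF.Stubs

namespace Pool.Agent.H581R.FF.TFIX0

open Pool.Agent.H581R.FF
open scoped ComplexConjugate

private theorem bs_mul {κ : Type} (x y : FreeGroup κ) : (bs (x * y) : GR κ) = bs x * bs y := by
  rw [MonoidAlgebra.single_mul_single, one_mul]

private theorem bs_one {κ : Type} : (bs (1 : FreeGroup κ) : GR κ) = 1 := rfl

theorem t_FIX0 : S_FIX0 := by
  intro ι u c k D hD
  have h1 : D (bs (1 : FreeGroup (Option ι))) = 0 := by
    have h := hD.leib (bs 1) (bs 1)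
    rw [bs_one, mul_one, mul_one, one_mul] at h
    rw [bs_one]
    exact left_eq_add.mp h
  have hcl : ∀ y ∈ Subgroup.closure (Set.range (FreeGroup.of : Option ι → _) \
      {FreeGroup.of (some u)}), D (bs y) = 0 := by
    intro y hy
    induction hy using Subgroup.closure_induction with
    | mem x hx =>
      obtain ⟨⟨z, rfl⟩, hz⟩ := hx
      apply hD.dz z
      rintro rfl
      exact hz rfl
    | one => exact h1
    | mul x y _ _ hx hy =>
      rw [bs_mul, hD.leib, hx, hy, zero_mul, mul_zero, add_zero]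
    | inv x _ hx =>
      have h2 : D (bs x * bs x⁻¹) = 0 := by
        rw [← bs_mul, mul_inv_cancel, h1]
      rw [hD.leib, hx, zero_mul, zero_add] at h2
      have h3 : (bs x⁻¹ : GR (Option ι)) * (bs x * D (bs x⁻¹)) = 0 := by rw [h2, mul_zero]
      rwa [← mul_assoc, ← bs_mul, inv_mul_cancel, bs_one, one_mul] at h3
  refine ⟨hcl, ?_⟩
  unfold kk
  rw [Finsupp.sum, map_sum]
  refine Finset.sum_eq_zero fun m _ => ?_
  have h4 : (MonoidAlgebra.single (vv ^ m) (k m) : GR (Option ι)) = k m • bs (vv ^ m) := by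
    rw [MonoidAlgebra.smul_single, smul_eq_mul, mul_one]
  rw [h4, map_smul, hcl, smul_zero]
  apply Subgroup.zpow_mem
  apply Subgroup.subset_closure
  refine ⟨⟨none, rfl⟩, ?_⟩
  intro h
  have h5 : (none : Option ι) = some u := FreeGroup.of_injective h
  exact absurd h5 (by simp)

end Pool.Agent.H581R.FF.TFIX0
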