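import Mathlib
import Pool.Agent.H581R.FF.Stubs

/-! Task FORM: the derivative of the word. -/

namespace Pool.Agent.H581R.FF.TFORM

open Pool.Agent.H581R.FF

lemma act_add {α : Type} [Group α] (x : α) (c c' : α →₀ ℝ) :
    act x (c + c') = act x c + act x c' := Finsupp.mapDomain_add

lemma act_zero {α : Type} [Group α] (x : α) : act x (0 : α →₀ ℝ) = 0 := Finsupp.mapDomain_zero

lemma act_act {α : Type} [Group α] (p x : α) (c : α →₀ ℝ) :
    act p (act x c) = act (p * x) c := by
  unfold act
  rw [← Finsupp.mapDomain_comp]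
  congr 1
  funext w
  simp [mul_assoc]

lemma act_sum {α : Type} [Group α] (p : α) (l : List (α →₀ ℝ)) :
    act p l.sum = (l.map (act p)).sum := by
  induction l with
  | nil => simp [act_zero]
  | cons a l ih => simp [act_add, ih]

lemma ZZ_cons {α : Type} [Group α] (u y : α) (ys : List α) (c : α →₀ ℝ) :
    ZZ (pref u (y :: ys)) c = act (y * u) c + act (y * u) (ZZ (pref u ys) c) := by
  unfold ZZ
  rw [act_sum]
  simp only [pref, List.map_cons, List.sum_cons, List.map_map]
  congr 2
  refine List.map_congr_left fun x _ => ?_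
  simp only [Function.comp]
  rw [act_act]

lemma Ad_add {ι : Type} (c c' : FreeGroup ι →₀ ℝ) (k : ℤ →₀ ℂ) :
    Ad (c + c') k = Ad c k + Ad c' k := by
  unfold Ad
  rw [Finsupp.sum_add_index' (fun β => by simp) (fun β r s => by push_cast; rw [add_smul])]

lemma Ad_act {ι : Type} (x : FreeGroup ι) (c : FreeGroup ι →₀ ℝ) (k : ℤ →₀ ℂ) :
    Ad (act x c) k = bs (jj x) * Ad c k * bs (jj x)⁻¹ := by
  unfold Ad act
  rw [Finsupp.sum_mapDomain_index (fun β => by simp)
    (fun β r s => by push_cast; rw [add_smul])]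
  rw [Finsupp.sum, Finsupp.sum, Finset.mul_sum, Finset.sum_mul]
  refine Finset.sum_congr rfl fun β _ => ?_
  have h1 : (bs (jj (x * β)) : GR (Option ι)) = bs (jj x) * bs (jj β) := by
    rw [MonoidAlgebra.single_mul_single, map_mul, one_mul]
  have h2 : (bs (jj (x * β))⁻¹ : GR (Option ι)) = bs (jj β)⁻¹ * bs (jj x)⁻¹ := by
    rw [MonoidAlgebra.single_mul_single, map_mul, mul_inv_rev, one_mul]
  rw [h1, h2]
  simp only [mul_smul_comm, smul_mul_assoc, mul_assoc]

lemma bs_mul {κ : Type} (x y : FreeGroup κ) : (bs (x * y) : GR κ) = bs x * bs y := by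
  rw [MonoidAlgebra.single_mul_single, one_mul]

lemma bs_inv {κ : Type} (x : FreeGroup κ) : (bs x⁻¹ : GR κ) * bs x = 1 := by
  rw [MonoidAlgebra.single_mul_single, one_mul, inv_mul_cancel]
  rfl

theorem t_FORM : S_FORM := by
  intro ι u c k D hD ys
  have hone : D 1 = 0 := by
    have := hD.leib 1 1
    rw [mul_one, one_mul, mul_one] at this
    simpa using this
  induction ys with
  | nil =>
    intro _
    have h1 : (bs (jj (wrd (FreeGroup.of u) ([] : List (FreeGroup ι)))) : GR (Option ι)) = 1 := by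
      simp only [wrd, map_one]
      rfl
    rw [h1, hone]
    have h2 : Ad (ZZ (pref (FreeGroup.of u) ([] : List (FreeGroup ι))) c) k = 0 := by
      simp [ZZ, pref, Ad]
    rw [h2, zero_mul, smul_zero]
  | cons y ys ih =>
    intro hys
    have ih' := ih fun z hz => hys z (List.mem_cons_of_mem _ hz)
    have hy : D (bs (jj y)) = 0 := hys y List.mem_cons_self
    set p : FreeGroup ι := y * FreeGroup.of u with hp
    have hju : (jj (FreeGroup.of u) : FreeGroup (Option ι)) = FreeGroup.of (some u) := by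
      simp
    have hDp : D (bs (jj p)) = Complex.I • (bs (jj p) * Ad c k) := by
      rw [hp, map_mul, bs_mul, hD.leib, hy, zero_mul, zero_add, hju, hD.du, mul_smul_comm,
        mul_assoc]
    have hw : wrd (FreeGroup.of u) (y :: ys) = p * wrd (FreeGroup.of u) ys := rfl
    rw [hw, map_mul, bs_mul, hD.leib, hDp, ih', ZZ_cons, Ad_add, Ad_act, Ad_act, ← hp]
    have hc : ∀ T : GR (Option ι), bs (jj p) * T * bs (jj p)⁻¹ *
        (bs (jj p) * bs (jj (wrd (FreeGroup.of u) ys))) =
        bs (jj p) * T * bs (jj (wrd (FreeGroup.of u) ys)) := by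
      intro T
      have : bs (jj p) * T * bs (jj p)⁻¹ * (bs (jj p) * bs (jj (wrd (FreeGroup.of u) ys))) =
        bs (jj p) * T * (bs (jj p)⁻¹ * bs (jj p)) * bs (jj (wrd (FreeGroup.of u) ys)) := by
        simp only [mul_assoc]
      rw [this, bs_inv, mul_one]
    rw [add_mul, hc, hc, smul_add, smul_mul_assoc, mul_smul_comm, mul_assoc, mul_assoc]

end Pool.Agent.H581R.FF.TFORM
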