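import Mathlib
import Pool.Agent.H581R.FF.Stubs

/-! Approximation of a Haar unitary by exponentials of trigonometric polynomials. -/

set_option autoImplicit false

namespace Pool.Agent.H581R.FF.TFOU

open Pool.Agent.H667R2.FG (Ell permOp lam rho delta LG EltG tau)
open Pool.Agent.H581R.FF MeasureTheory
open scoped ComplexConjugate ENNReal

/-- Continuous functions on the circle. -/
abbrev Cc : Type := C(UnitAddCircle, ℂ)

/-- The class in `L²`. -/
noncomputable abbrev cl : Cc →L[ℂ] Lp ℂ 2 (@AddCircle.haarAddCircle (1 : ℝ) _) :=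
  ContinuousMap.toLp (E := ℂ) 2 AddCircle.haarAddCircle ℂ

section pair

variable {G : Type} [Group G] (V : unitary (Op G))

/-- Pairs of powers. -/
noncomputable def Wm (m : ℤ) : Op G × Cc := (((V ^ m : unitary (Op G)) : Op G), fourier m)

theorem Wm_add (m n : ℤ) : Wm V (m + n) = Wm V m * Wm V n := by
  refine Prod.ext ?_ ?_
  · simp [Wm, zpow_add]
  · ext x
    simp only [Wm, Prod.snd_mul, ContinuousMap.mul_apply]
    exact fourier_add

theorem Wm_zero : Wm V 0 = 1 := by
  refine Prod.ext ?_ ?_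
  · simp [Wm]
  · ext x
    simp only [Wm, Prod.snd_one, ContinuousMap.one_apply]
    exact fourier_zero

/-- The algebra generated by the pairs. -/
noncomputable def S : Subalgebra ℂ (Op G × Cc) :=
  (Submodule.span ℂ (Set.range (Wm V))).toSubalgebra
    (by rw [← Wm_zero V]; exact Submodule.subset_span ⟨0, rfl⟩)
    (by
      intro x y hx hy
      have h := Submodule.mul_mem_mul hx hy
      rw [Submodule.span_mul_span] at h
      refine Submodule.span_mono ?_ h
      rintro _ ⟨_, ⟨m, rfl⟩, _, ⟨n, rfl⟩, rfl⟩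
      exact ⟨m + n, Wm_add V m n⟩)

theorem mem_S {x : Op G × Cc} : x ∈ S V ↔ x ∈ Submodule.span ℂ (Set.range (Wm V)) := Iff.rfl

/-- The exponential stays in the closure. -/
theorem exp_mem {y : Op G × Cc} (hy : y ∈ S V) : NormedSpace.exp y ∈ (S V).topologicalClosure := by
  have h1 := NormedSpace.exp_series_hasSum_exp' (𝕂 := ℂ) y
  have h2 : IsClosed ((S V).topologicalClosure : Set (Op G × Cc)) := (S V).isClosed_topologicalClosure
  refine h2.mem_of_tendsto h1 (Filter.Eventually.of_forall fun s => ?_)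
  refine (S V).le_topologicalClosure ?_
  exact Subalgebra.sum_mem _ fun n _ => Subalgebra.smul_mem _ (Subalgebra.pow_mem _ hy n) _

theorem orth (hV : ∀ m : ℤ, m ≠ 0 → tau ((V ^ m : unitary (Op G)) : Op G) = 0) :
    Orthonormal ℂ (fun m : ℤ => ((V ^ m : unitary (Op G)) : Op G) (delta 1)) := by
  have h1 : ∀ m n : ℤ, inner ℂ (((V ^ m : unitary (Op G)) : Op G) (delta 1))
      (((V ^ n : unitary (Op G)) : Op G) (delta 1)) = tau ((V ^ (n - m) : unitary (Op G)) : Op G) := by
    intro m n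
    have e : ((V ^ (n - m) : unitary (Op G)) : Op G) =
        star ((V ^ m : unitary (Op G)) : Op G) * ((V ^ n : unitary (Op G)) : Op G) := by
      rw [sub_eq_neg_add, zpow_add, zpow_neg]
      rfl
    rw [e, tau, ← Pool.Agent.H667R2.FG.TL2.inner_delta, ContinuousLinearMap.star_eq_adjoint]
    simp only [ContinuousLinearMap.mul_apply]
    rw [ContinuousLinearMap.adjoint_inner_right]
  constructor
  · intro m
    have h2 := h1 m m
    rw [sub_self, zpow_zero, OneMemClass.coe_one, tau, ContinuousLinearMap.one_apply,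
      ← Pool.Agent.H667R2.FG.TL2.inner_delta, inner_self_eq_norm_sq_to_K, inner_self_eq_norm_sq_to_K,
      Pool.Agent.H667R2.FG.TL2.norm_delta] at h2
    have h3 : ‖((V ^ m : unitary (Op G)) : Op G) (delta 1)‖ ^ 2 = 1 ^ 2 := by
      exact_mod_cast h2
    have h4 := norm_nonneg (((V ^ m : unitary (Op G)) : Op G) (delta 1))
    nlinarith
  · intro m n hmn
    simp only
    rw [h1, hV]
    exact sub_ne_zero.2 (Ne.symm hmn)

theorem norm_eq (hV : ∀ m : ℤ, m ≠ 0 → tau ((V ^ m : unitary (Op G)) : Op G) = 0)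
    {x : Op G × Cc} (hx : x ∈ (S V).topologicalClosure) : ‖x.1 (delta 1)‖ = ‖cl x.2‖ := by
  have hcl : IsClosed {x : Op G × Cc | ‖x.1 (delta 1)‖ = ‖cl x.2‖} := by
    refine isClosed_eq ?_ ?_
    · exact (continuous_fst.clm_apply continuous_const).norm
    · exact (cl.continuous.comp continuous_snd).norm
  refine closure_minimal ?_ hcl hx
  intro x hx
  have h1 : x ∈ Submodule.span ℂ (Set.range (Wm V)) := hx
  obtain ⟨q, rfl⟩ := (Finsupp.mem_span_range_iff_exists_finsupp).1 h1
  have e1 : ((q.sum fun i a => a • Wm V i : Op G × Cc)).1 (delta 1) =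
      Finsupp.linearCombination ℂ (fun m : ℤ => ((V ^ m : unitary (Op G)) : Op G) (delta 1)) q := by
    rw [Finsupp.linearCombination_apply, Finsupp.sum, Finsupp.sum, Prod.fst_sum,
      ContinuousLinearMap.sum_apply]
    rfl
  have e2 : cl ((q.sum fun i a => a • Wm V i : Op G × Cc)).2 =
      Finsupp.linearCombination ℂ (@fourierLp (1 : ℝ) _ 2 _) q := by
    rw [Finsupp.linearCombination_apply, Finsupp.sum, Finsupp.sum, Prod.snd_sum, map_sum]
    refine Finset.sum_congr rfl fun m _ => ?_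
    rw [Prod.smul_snd, map_smul]
    rfl
  simp only [Set.mem_setOf_eq]
  rw [e1, e2]
  have key : ∀ {E : Type} [NormedAddCommGroup E] [InnerProductSpace ℂ E] (v : ℤ → E),
      Orthonormal ℂ v → ‖Finsupp.linearCombination ℂ v q‖ =
        √(RCLike.re (q.sum fun i y => conj y * q i)) := by
    intro E _ _ v hv
    rw [← hv.inner_finsupp_eq_sum_left, norm_eq_sqrt_re_inner (𝕜 := ℂ)]
  rw [key _ (orth V hV), key _ orthonormal_fourier]

end pair

/-! ### The argument function -/

/-- The argument. -/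
noncomputable def ag (x : UnitAddCircle) : ℂ := ((Complex.arg (fourier 1 x) : ℝ) : ℂ)

theorem ag_meas : Measurable ag := by
  have h1 : Continuous (fun x : UnitAddCircle => (fourier 1 x : ℂ)) := (fourier 1).continuous
  exact Complex.measurable_ofReal.comp (Complex.measurable_arg.comp h1.measurable)

theorem ag_bd (x : UnitAddCircle) : ‖ag x‖ ≤ Real.pi := by
  rw [ag, Complex.norm_real, Real.norm_eq_abs]
  exact Complex.abs_arg_le_pi _

theorem ag_memLp : MemLp ag 2 (@AddCircle.haarAddCircle (1 : ℝ) _) :=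
  MemLp.of_bound ag_meas.aestronglyMeasurable Real.pi (Filter.Eventually.of_forall ag_bd)

theorem ag_conj (x : UnitAddCircle) : conj (ag x) = ag x := Complex.conj_ofReal _

theorem exp_ag (x : UnitAddCircle) : Complex.exp (Complex.I * ag x) = fourier 1 x := by
  have h1 : ‖(fourier 1 x : ℂ)‖ = 1 := by
    rw [fourier_one]; exact Circle.norm_coe _
  have h2 := Complex.norm_mul_exp_arg_mul_I (fourier 1 x : ℂ)
  rw [h1, Complex.ofReal_one, one_mul] at h2
  rw [ag, mul_comm]
  exact h2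

theorem ag_coe {x : ℝ} (h : x ∈ Set.Ioc (-(1/2) : ℝ) (1/2)) : ag (x : UnitAddCircle) = 2 * Real.pi * x := by
  rw [ag, fourier_coe_apply]
  have : (2 * Real.pi * Complex.I * (1 : ℤ) * x / (1 : ℝ) : ℂ) = ((2 * Real.pi * x : ℝ) : ℂ) * Complex.I := by
    push_cast; ring
  rw [this, Complex.arg_exp_mul_I, (toIocMod_eq_self Real.two_pi_pos).2]
  · push_cast; ring
  · have hp := Real.pi_pos
    constructor
    · nlinarith [h.1]
    · nlinarith [h.2]

theorem fc_zero : fourierCoeff ag 0 = 0 := by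
  rw [fourierCoeff_eq_intervalIntegral ag 0 (-(1/2)), intervalIntegral.integral_of_le (by norm_num)]
  have h1 : ∫ x in Set.Ioc (-(1/2) : ℝ) (-(1/2) + 1), (fourier (-0) (x : UnitAddCircle) : ℂ) • ag x =
      ∫ x in Set.Ioc (-(1/2) : ℝ) (-(1/2) + 1), (2 * Real.pi * x : ℂ) := by
    refine setIntegral_congr_fun measurableSet_Ioc fun x hx => ?_
    have hx' : x ∈ Set.Ioc (-(1/2) : ℝ) (1/2) := ⟨hx.1, by linarith [hx.2]⟩
    simp only [neg_zero, fourier_zero, one_smul]
    exact ag_coe hx'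
  rw [h1, ← intervalIntegral.integral_of_le (by norm_num)]
  have h2 : ∫ x in (-(1/2) : ℝ)..(-(1/2) + 1), (2 * Real.pi * x : ℂ) =
      ((∫ x in (-(1/2) : ℝ)..(-(1/2) + 1), 2 * Real.pi * x : ℝ) : ℂ) := by
    rw [← intervalIntegral.integral_ofReal]
    push_cast
    rfl
  rw [h2, intervalIntegral.integral_const_mul, integral_id]
  norm_num

theorem fc_neg (m : ℤ) : fourierCoeff ag (-m) = conj (fourierCoeff ag m) := by
  rw [fourierCoeff, fourierCoeff, ← integral_conj]
  refine integral_congr_ae (Filter.Eventually.of_forall fun x => ?_)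
  simp only [smul_eq_mul, map_mul, ag_conj]
  rw [← fourier_neg]

theorem sq_int : ∫ x, ‖ag x‖ ^ 2 ∂(@AddCircle.haarAddCircle (1 : ℝ) _) = Real.pi ^ 2 / 3 := by
  rw [AddCircle.integral_haarAddCircle,
    ← AddCircle.intervalIntegral_preimage 1 (-(1/2)) (fun x => ‖ag x‖ ^ 2),
    intervalIntegral.integral_of_le (by norm_num)]
  have h1 : ∫ x in Set.Ioc (-(1/2) : ℝ) (-(1/2) + 1), ‖ag (x : UnitAddCircle)‖ ^ 2 =
      ∫ x in Set.Ioc (-(1/2) : ℝ) (-(1/2) + 1), 4 * Real.pi ^ 2 * x ^ 2 := by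
    refine setIntegral_congr_fun measurableSet_Ioc fun x hx => ?_
    have hx' : x ∈ Set.Ioc (-(1/2) : ℝ) (1/2) := ⟨hx.1, by linarith [hx.2]⟩
    rw [ag_coe hx']
    have : (2 * Real.pi * x : ℂ) = ((2 * Real.pi * x : ℝ) : ℂ) := by push_cast; rfl
    rw [this, Complex.norm_real, Real.norm_eq_abs, sq_abs]
    ring
  rw [h1, ← intervalIntegral.integral_of_le (by norm_num), intervalIntegral.integral_const_mul,
    integral_pow]
  norm_num
  ring

/-- The class of the argument function. -/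
noncomputable def agL : Lp ℂ 2 (@AddCircle.haarAddCircle (1 : ℝ) _) := ag_memLp.toLp ag

theorem fc_agL (m : ℤ) : fourierCoeff (agL : UnitAddCircle → ℂ) m = fourierCoeff ag m :=
  congrFun (fourierCoeff_congr_ae ag_memLp.coeFn_toLp) m

theorem sum_sq_le (s : Finset ℤ) : ∑ m ∈ s, ‖fourierCoeff ag m‖ ^ 2 ≤ 4 := by
  have h1 := hasSum_sq_fourierCoeff agL
  have h2 : ∫ x, ‖(agL : UnitAddCircle → ℂ) x‖ ^ 2 ∂(@AddCircle.haarAddCircle (1 : ℝ) _) =
      Real.pi ^ 2 / 3 := by
    rw [← sq_int]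
    refine integral_congr_ae ?_
    filter_upwards [ag_memLp.coeFn_toLp] with x hx
    rw [agL, hx]
  rw [h2] at h1
  have h3 : ∑ m ∈ s, ‖fourierCoeff (agL : UnitAddCircle → ℂ) m‖ ^ 2 ≤ Real.pi ^ 2 / 3 :=
    sum_le_hasSum s (fun _ _ => sq_nonneg _) h1
  simp only [fc_agL] at h3
  have h4 : Real.pi ^ 2 / 3 ≤ 4 := by
    have := Real.pi_lt_d2
    have := Real.pi_pos
    nlinarith
  exact h3.trans h4

/-- The coefficients. -/
noncomputable def kf (s : Finset ℤ) : ℤ →₀ ℂ :=
  Finsupp.onFinset (s ∪ s.image (fun m => -m))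
    (fun m => if m ∈ s ∪ s.image (fun m => -m) then fourierCoeff ag m else 0)
    (fun m h => by
      by_contra h1
      exact h (if_neg h1))

theorem kf_apply (s : Finset ℤ) (m : ℤ) :
    kf s m = if m ∈ s ∪ s.image (fun m => -m) then fourierCoeff ag m else 0 := rfl

theorem kf_neg (s : Finset ℤ) (m : ℤ) : kf s (-m) = conj (kf s m) := by
  have h : -m ∈ s ∪ s.image (fun m => -m) ↔ m ∈ s ∪ s.image (fun m => -m) := by
    simp only [Finset.mem_union, Finset.mem_image, neg_eq_iff_eq_neg, exists_eq_right, neg_neg]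
    tauto
  rw [kf_apply, kf_apply]
  by_cases h1 : m ∈ s ∪ s.image (fun m => -m)
  · rw [if_pos h1, if_pos (h.2 h1), fc_neg]
  · rw [if_neg h1, if_neg (fun h2 => h1 (h.1 h2)), map_zero]

theorem kf_zero (s : Finset ℤ) : kf s 0 = 0 := by
  rw [kf_apply, fc_zero, ite_self]

theorem nk_kf (s : Finset ℤ) : nk (kf s) ≤ 2 := by
  rw [nk, show (2 : ℝ) = √4 by rw [show (4 : ℝ) = 2 ^ 2 by norm_num, Real.sqrt_sq (by norm_num)]]
  refine Real.sqrt_le_sqrt (le_trans (Finset.sum_le_sum fun m _ => ?_) (sum_sq_le (kf s).support))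
  rw [kf_apply]
  split_ifs
  · exact le_refl _
  · simp

/-- The trigonometric polynomial. -/
noncomputable def pf (k : ℤ →₀ ℂ) : Cc := k.sum fun m a => a • fourier m

theorem pf_conj {k : ℤ →₀ ℂ} (hk : ∀ m, k (-m) = conj (k m)) (x : UnitAddCircle) :
    conj (pf k x) = pf k x := by
  have e1 : pf k x = k.sum fun m a => a * fourier m x := by
    rw [pf, Finsupp.sum, Finsupp.sum, ContinuousMap.sum_apply]
    rfl
  have e2 : ∀ m, m ∈ k.support ↔ -m ∈ k.support := by
    intro m
    rw [Finsupp.mem_support_iff, Finsupp.mem_support_iff, hk]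
    simp
  rw [e1, Finsupp.sum, map_sum]
  refine Finset.sum_nbij' (fun m => -m) (fun m => -m) ?_ ?_ ?_ ?_ ?_
  · intro m hm; exact (e2 m).1 hm
  · intro m hm; exact (e2 m).1 hm
  · intro m _; exact neg_neg m
  · intro m _; exact neg_neg m
  · intro m _
    rw [map_mul, hk, fourier_neg]

theorem exp_eval (f : Cc) (x : UnitAddCircle) : (NormedSpace.exp f) x = Complex.exp (f x) := by
  letI : NormedAlgebra ℚ Cc := NormedAlgebra.restrictScalars ℚ ℂ _
  have h := NormedSpace.map_exp ((Pi.evalRingHom (fun _ : UnitAddCircle => ℂ) x).comp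
    (ContinuousMap.coeFnRingHom : Cc →+* (UnitAddCircle → ℂ)))
    (ContinuousEvalConst.continuous_eval_const x) f
  rw [Complex.exp_eq_exp_ℂ]
  exact h

theorem key {k : ℤ →₀ ℂ} (hk : ∀ m, k (-m) = conj (k m)) :
    ‖cl (NormedSpace.exp (Complex.I • pf k) - fourier 1)‖ ≤ ‖cl (pf k) - agL‖ := by
  refine Lp.norm_le_norm_of_ae_le ?_
  filter_upwards [ContinuousMap.coeFn_toLp (𝕜 := ℂ) (p := 2) (@AddCircle.haarAddCircle (1 : ℝ) _)
    (NormedSpace.exp (Complex.I • pf k) - fourier 1), Lp.coeFn_sub (cl (pf k)) agL,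
    ContinuousMap.coeFn_toLp (𝕜 := ℂ) (p := 2) (@AddCircle.haarAddCircle (1 : ℝ) _) (pf k),
    ag_memLp.coeFn_toLp] with x h1 h2 h3 h4
  rw [h1, h2, Pi.sub_apply, h3, agL, h4, ContinuousMap.sub_apply, exp_eval, ← exp_ag,
    ContinuousMap.smul_apply, smul_eq_mul]
  obtain ⟨a, ha⟩ := Complex.conj_eq_iff_real.1 (pf_conj hk x)
  obtain ⟨b, hb⟩ := Complex.conj_eq_iff_real.1 (ag_conj x)
  rw [ha, hb]
  have e : Complex.exp (Complex.I * a) - Complex.exp (Complex.I * b) =
      Complex.exp (Complex.I * b) * (Complex.exp (Complex.I * ((a - b : ℝ) : ℂ)) - 1) := by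
    rw [mul_sub, mul_one, ← Complex.exp_add]
    congr 2
    push_cast
    ring
  rw [e, norm_mul, mul_comm Complex.I (b : ℂ), Complex.norm_exp_ofReal_mul_I, one_mul]
  refine Real.norm_exp_I_mul_ofReal_sub_one_le.trans ?_
  rw [← Complex.ofReal_sub, Complex.norm_real]

theorem cl_pf (s : Finset ℤ) : cl (pf (kf s)) = ∑ m ∈ s ∪ s.image (fun m => -m),
    fourierCoeff (agL : UnitAddCircle → ℂ) m • fourierLp 2 m := by
  rw [pf, Finsupp.sum_of_support_subset (s := s ∪ s.image (fun m => -m)), map_sum]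
  · refine Finset.sum_congr rfl fun m hm => ?_
    rw [map_smul, fc_agL, kf_apply, if_pos hm]
  · exact Finsupp.support_onFinset_subset
  · intro m _
    exact zero_smul ℂ (fourier m : Cc)

theorem t_FOU : S_FOU := by
  intro ε hε
  have h1 := hasSum_fourier_series_L2 agL
  obtain ⟨s, hs⟩ := (Metric.tendsto_atTop.1 h1) ε hε
  have h2 := hs (s ∪ s.image (fun m => -m)) Finset.subset_union_left
  rw [← cl_pf, dist_eq_norm] at h2
  refine ⟨kf s, kf_zero s, kf_neg s, nk_kf s, ?_⟩
  intro G _ V hV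
  set y : Op G × Cc := (kf s).sum fun m a => a • Wm V m with hy
  have hyS : y ∈ S V := by
    rw [mem_S]
    exact Submodule.sum_mem _ fun m _ => Submodule.smul_mem _ _ (Submodule.subset_span ⟨m, rfl⟩)
  have y1 : y.1 = (kf s).sum fun m a => a • ((V ^ m : unitary (Op G)) : Op G) := by
    rw [hy, Finsupp.sum, Prod.fst_sum]; rfl
  have y2 : y.2 = pf (kf s) := by
    rw [hy, Finsupp.sum, Prod.snd_sum]; rfl
  have hz : NormedSpace.exp (Complex.I • y) - Wm V 1 ∈ (S V).topologicalClosure := by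
    refine sub_mem (exp_mem V (Subalgebra.smul_mem _ hyS _)) ?_
    exact (S V).le_topologicalClosure (Submodule.subset_span ⟨1, rfl⟩)
  have h3 := norm_eq V hV hz
  letI : NormedAlgebra ℚ (Op G × Cc) := NormedAlgebra.restrictScalars ℚ ℂ _
  letI : Algebra ℚ (Op G) := Algebra.restrictScalars ℚ ℂ _
  have e1 : (NormedSpace.exp (Complex.I • y)).1 = NormedSpace.exp (Complex.I • y).1 :=
    NormedSpace.map_exp (RingHom.fst (Op G) Cc) continuous_fst _
  have e2 : (NormedSpace.exp (Complex.I • y)).2 = NormedSpace.exp (Complex.I • y).2 :=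
    NormedSpace.map_exp (RingHom.snd (Op G) Cc) continuous_snd _
  rw [Prod.fst_sub, Prod.snd_sub, e1, e2, Prod.smul_fst, Prod.smul_snd, y1, y2] at h3
  have h4 : (Wm V 1).1 = (V : Op G) := by simp [Wm]
  have h5 : (Wm V 1).2 = fourier 1 := rfl
  rw [h4, h5] at h3
  rw [h3]
  exact (key (kf_neg s)).trans_lt h2

end Pool.Agent.H581R.FF.TFOU
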