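import Mathlib
import Pool.Agent.H581R.FF.Stubs

/-! The flow of a trace preserving derivation preserves the law. -/

namespace Pool.Agent.H581R.FF.TFSTD

open Pool.Agent.H667R2.FG (Ell permOp lam rho delta LG EltG tau)
open scoped ComplexConjugate

lemma ev_bs {κ G : Type} [Group G] (π : FreeGroup κ →* unitary (Op G)) (w : FreeGroup κ) :
    ev π (bs w) = (π w : Op G) := by
  simp [ev, bs]

lemma ev_comm {κ G : Type} [Group G] (π : FreeGroup κ →* unitary (Op G)) (hπ : Std π)
    (g : G) (f : GR κ) : ev π f * rho g = rho g * ev π f := by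
  induction f using MonoidAlgebra.induction_linear with
  | zero => simp
  | add f g h1 h2 => rw [map_add, add_mul, mul_add, h1, h2]
  | single w c =>
    have h : (MonoidAlgebra.single w c : GR κ) = c • bs w := by
      simp [bs]
    rw [h, map_smul, ev_bs, smul_mul_assoc, mul_smul_comm, hπ.comm]

/-- the trace as a continuous linear map -/
noncomputable def tauL (G : Type) [Group G] : Op G →L[ℂ] ℂ :=
  (innerSL ℂ (delta (1 : G))).comp (ContinuousLinearMap.apply ℂ (Ell G) (delta (1 : G)))

lemma tauL_apply {G : Type} [Group G] (x : Op G) : tauL G x = tau x := by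
  classical
  have h : tauL G x = inner ℂ (delta (1 : G)) (x (delta 1)) := rfl
  rw [h, tau]
  unfold delta
  rw [lp.inner_single_left]
  simp

theorem t_FSTD (h2 : S_EV2) : S_FSTD := by
  intro κ D hD G _ π π' t hF hπ
  constructor
  · intro w g
    have h := hF (bs w)
    rw [ev_bs] at h
    have h1 := h.mul_right (rho g)
    have h2 := h.mul_left (rho g)
    refine h1.unique ?_
    convert h2 using 2 with n
    rw [smul_mul_assoc, mul_smul_comm, ev_comm π hπ]
  · intro w hw
    have h := hF (bs w)
    rw [ev_bs] at h
    have h3 := h.mapL (tauL G)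
    have h4 : HasSum (fun n : ℕ => tauL G (((t : ℂ) ^ n / (n.factorial : ℂ)) • ev π (D^[n] (bs w))))
        0 := by
      convert hasSum_zero with n
      rw [map_smul, tauL_apply, (h2 κ G π hπ _).1]
      cases n with
      | zero =>
        have : (bs w : GR κ).coeff 1 = 0 := by
          simp [bs, hw]
        rw [Function.iterate_zero, id_eq, this, smul_zero]
      | succ n =>
        rw [Function.iterate_succ_apply', hD.tr, smul_zero]
    rw [← tauL_apply]
    exact h3.unique h4

end Pool.Agent.H581R.FF.TFSTD
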