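import Mathlib
import Pool.Agent.H581R.FF.Stubs

namespace Pool.Agent.H581R.FF.TINIT

open Pool.Agent.H667R2.FG (Ell permOp lam rho delta LG EltG tau)
open scoped ComplexConjugate

theorem ev_single {κ A : Type} [Ring A] [StarMul A] [Algebra ℂ A]
    (π : FreeGroup κ →* unitary A) (w : FreeGroup κ) (c : ℂ) :
    ev π (MonoidAlgebra.single w c) = c • (π w : A) := by
  unfold ev
  rw [MonoidAlgebra.lift_single]
  rfl

theorem t_INIT : S_INIT := by
  classical
  intro κ
  let π : FreeGroup κ →* unitary (Op (FreeGroup κ)) :=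
    { toFun := fun w => ⟨lam w, Pool.Agent.H667R2.FG.lam_unitary w⟩
      map_one' := Subtype.ext Pool.Agent.H667R2.FG.lam_one
      map_mul' := fun x y => Subtype.ext (Pool.Agent.H667R2.FG.lam_mul x y) }
  refine ⟨π, ⟨fun w g => Pool.Agent.H667R2.FG.lam_rho w g, fun w hw => ?_⟩, ?_⟩
  · show (lam w (delta 1)) 1 = 0
    rw [Pool.Agent.H667R2.FG.lam_delta, mul_one, Pool.Agent.H667R2.FG.delta_apply, if_neg]
    exact fun h => hw h.symm
  · intro ξ ε hε
    have h1 : HasSum (fun w : FreeGroup κ => lp.single 2 w (ξ w)) ξ :=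
      lp.hasSum_single (by norm_num) ξ
    have h2 := h1.eventually (Metric.ball_mem_nhds ξ hε)
    rw [SummationFilter.unconditional_filter] at h2
    obtain ⟨s, h3⟩ := h2.exists
    refine ⟨∑ w ∈ s, MonoidAlgebra.single w (ξ w), ?_⟩
    have h4 : ev π (∑ w ∈ s, MonoidAlgebra.single w (ξ w)) (delta 1)
        = ∑ w ∈ s, lp.single 2 w (ξ w) := by
      rw [map_sum, _root_.sum_apply]
      refine Finset.sum_congr rfl fun w _ => ?_
      rw [ev_single]
      show ξ w • (lam w (delta 1)) = _
      rw [Pool.Agent.H667R2.FG.lam_delta, mul_one]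
      ext k
      rw [lp.coeFn_smul, Pi.smul_apply, Pool.Agent.H667R2.FG.delta_apply]
      by_cases hk : k = w
      · subst hk
        rw [if_pos rfl, lp.single_apply_self, smul_eq_mul, mul_one]
      · rw [if_neg hk, lp.single_apply_ne _ _ _ hk, smul_zero]
    rw [h4]
    rw [dist_comm, dist_eq_norm] at h3
    exact h3

end Pool.Agent.H581R.FF.TINIT
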