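import Mathlib
import Pool.Agent.H581R.FF.Stubs

/-! Statements for all `n ≥ 2` (only one fixed letter `a` and the moving letter `u`). -/

namespace Pool.Agent.H581R.FF

open Pool.Agent.H667R2.FG (Ell permOp lam rho delta LG EltG tau)
open scoped ComplexConjugate

/-- the word and the small solution of `Z c ≈ 1`, with one fixed letter `a` only -/
def S_CW : Prop := ∀ (ι : Type) (a u : ι), a ≠ u → ∀ ε : ℝ, 0 < ε →
  ∃ ys : List (FreeGroup ι), (∀ y ∈ ys, y ∈ Subgroup.closure {FreeGroup.of a}) ∧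
  ∃ c : FreeGroup ι →₀ ℝ, n2 c < ε ∧
    n2 (ZZ (pref (FreeGroup.of u) ys) c - Finsupp.single 1 1) < ε

/-- the stage lemma with one fixed letter only -/
def S_STAGE2 : Prop := ∀ (ι G : Type) [Group G] (a u : ι), a ≠ u →
  ∀ π : FreeGroup (Option ι) →* unitary (Op G), Std π → Cyc π → StageAt a a u π

/-- the main theorem for `n ≥ 2` -/
def S_MAIN2 : Prop := ∀ n : ℕ, 2 ≤ n →
  Nonempty (EltG (FreeGroup (Fin n)) ≃⋆ₐ[ℂ] EltG (FreeGroup (Fin (n + 1))))

end Pool.Agent.H581R.FF
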