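import Mathlib
import Pool.Agent.H581R.FF.Stubs2

/-! Spatial isomorphism and the description of `L(G)` as weak operator closure. -/

namespace Pool.Agent.H581R.FF

open Pool.Agent.H667R2.FG (Ell permOp lam rho delta LG EltG tau)
open scoped ComplexConjugate

/-- a cyclic system gives a unitary which conjugates the von Neumann algebras -/
def S_SPAT : Prop := ∀ (κ G : Type) [Group G] (σ : FreeGroup κ →* unitary (Op G)), Std σ → Cyc σ →
  ∃ W : Ell (FreeGroup κ) ≃ₗᵢ[ℂ] Ell G,
    ∀ T : Op (FreeGroup κ), T ∈ LG (FreeGroup κ) ↔ W.conjStarAlgEquiv T ∈ LG G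

/-- `L(G)` is the closure of the group algebra in the weak operator topology -/
def S_WOT : Prop := ∀ (G : Type) [Group G] (T : Op G), T ∈ LG G ↔
  ContinuousLinearMapWOT.ofCLM T ∈ closure
    (ContinuousLinearMapWOT.ofCLM '' (Submodule.span ℂ (Set.range (lam (G := G))) : Set (Op G)))

end Pool.Agent.H581R.FF
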