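import Mathlib
import Pool.Agent.H581R.FF.Stubs3

/-! Task SPAT: a cyclic system gives a unitary which conjugates the von Neumann algebras. -/

namespace Pool.Agent.H581R.FF.TSPAT

open Pool.Agent.H667R2.FG (Ell permOp lam rho delta LG EltG tau)
open Pool.Agent.H667R2.FG.TL2
open scoped ComplexConjugate InnerProductSpace

/-! ### centralizers -/

theorem mem_cent {A B : Type} [Mul A] [Mul B] (φ : A ≃* B) (S : Set A) (T : Set B)
    (hT : φ '' S = T) (x : A) : φ x ∈ Set.centralizer T ↔ x ∈ Set.centralizer S := by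
  subst hT
  simp only [Set.mem_centralizer_iff]
  constructor
  · intro h m hm
    apply φ.injective
    rw [map_mul, map_mul]
    exact h (φ m) ⟨m, hm, rfl⟩
  · rintro h _ ⟨m, hm, rfl⟩
    rw [← map_mul, ← map_mul, h m hm]

theorem image_cent {A B : Type} [Mul A] [Mul B] (φ : A ≃* B) (S : Set A) (T : Set B)
    (hT : φ '' S = T) : φ '' (Set.centralizer S) = Set.centralizer T := by
  ext y
  constructor
  · rintro ⟨x, hx, rfl⟩
    exact (mem_cent φ S T hT x).2 hx
  · intro hy
    refine ⟨φ.symm y, ?_, φ.apply_symm_apply y⟩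
    rw [← mem_cent φ S T hT, φ.apply_symm_apply]
    exact hy

theorem LG_coe (G : Type) [Group G] :
    ((LG G).toStarSubalgebra : Set (Ell G →L[ℂ] Ell G))
      = Set.centralizer (Set.centralizer (Set.range (lam (G := G)))) := by
  show ((StarSubalgebra.centralizer ℂ
    (StarSubalgebra.centralizer ℂ (Set.range (lam (G := G))) : Set (Ell G →L[ℂ] Ell G)) :
      StarSubalgebra ℂ (Ell G →L[ℂ] Ell G)) : Set (Ell G →L[ℂ] Ell G)) = _
  rw [StarSubalgebra.coe_centralizer_centralizer]
  congr 2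
  rw [Set.union_eq_left]
  intro x hx
  obtain ⟨g, hg⟩ : star x ∈ Set.range (lam (G := G)) := hx
  refine ⟨g⁻¹, ?_⟩
  rw [← star_lam, hg, star_star]

/-! ### approximation -/

section
variable {G : Type} [Group G]

theorem hasSum_delta (ξ : Ell G) : HasSum (fun g : G => ξ g • (delta g : Ell G)) ξ := by
  classical
  have h1 : HasSum (fun w : G => (lp.single 2 w (ξ w) : Ell G)) ξ :=
    lp.hasSum_single (by norm_num) ξ
  refine h1.congr_fun ?_
  intro w
  ext k
  rw [lp.coeFn_smul, Pi.smul_apply, delta_apply]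
  by_cases hk : k = w
  · subst hk
    rw [if_pos rfl, lp.single_apply_self, smul_eq_mul, mul_one]
  · rw [if_neg hk, lp.single_apply_ne _ _ _ hk, smul_zero]

theorem eq_zero_of_delta (A : Op G) (h : ∀ g, A (delta g) = 0) : A = 0 := by
  ext1 ξ
  have h1 := A.hasSum (hasSum_delta ξ)
  have h2 : HasSum (fun g : G => A (ξ g • (delta g : Ell G))) 0 := by
    have : (fun g : G => A (ξ g • (delta g : Ell G))) = fun _ => 0 := by
      funext g
      rw [map_smul, h g, smul_zero]
    rw [this]
    exact hasSum_zero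
  exact h1.unique h2

theorem norm_delta_eq (y : Op G) (hy : ∀ g, y * rho g = rho g * y) (h : G) :
    ‖y (delta h)‖ = ‖y (delta 1)‖ := by
  have h1 : (delta h : Ell G) = rho h⁻¹ (delta 1) := by
    rw [rho_delta]
    congr 1
    group
  have h2 := congrArg (fun z : Op G => z (delta 1)) (hy h⁻¹)
  have h3 : y (rho h⁻¹ (delta 1)) = rho h⁻¹ (y (delta 1)) := h2
  have hu : (rho h⁻¹ : Op G) ∈ unitary (Op G) := by
    rw [Unitary.mem_iff, star_rho, inv_inv]
    constructor
    · unfold rho; rw [permOp_mul, ← permOp_refl]; congr 1; ext k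
      show k * h * h⁻¹ = k
      group
    · unfold rho; rw [permOp_mul, ← permOp_refl]; congr 1; ext k
      show k * h⁻¹ * h = k
      group
  rw [h1, h3, ContinuousLinearMap.norm_map_of_mem_unitary hu]

/-- an operator commuting with operators which approximate `x` at `δ_1` commutes with `x` -/
theorem key (T x : Op G) (hx : ∀ g, x * rho g = rho g * x)
    (h : ∀ ε : ℝ, 0 < ε → ∃ n : Op G, (∀ g, n * rho g = rho g * n) ∧ T * n = n * T ∧
      ‖x (delta 1) - n (delta 1)‖ < ε) : T * x = x * T := by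
  rw [← sub_eq_zero]
  apply eq_zero_of_delta
  intro g
  ext k
  rw [← inner_delta k]
  show _ = (0 : ℂ)
  rw [← norm_eq_zero]
  by_contra hne
  have hpos : 0 < ‖⟪(delta k : Ell G), (T * x - x * T) (delta g)⟫_ℂ‖ :=
    lt_of_le_of_ne (norm_nonneg _) (Ne.symm hne)
  set r := ‖⟪(delta k : Ell G), (T * x - x * T) (delta g)⟫_ℂ‖ with hr
  obtain ⟨n, hn1, hn2, hn3⟩ := h (r / (2 * ‖T‖ + 1)) (by positivity)
  set y := x - n with hy
  have hy1 : ∀ g, y * rho g = rho g * y := by
    intro g
    rw [hy, sub_mul, mul_sub, hx, hn1]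
  have hy2 : ‖y (delta 1)‖ < r / (2 * ‖T‖ + 1) := by
    rw [hy, _root_.sub_apply]; exact hn3
  have e1 : T * x - x * T = T * y - y * T := by
    rw [hy, mul_sub, sub_mul, hn2]
    abel
  have e2 : ⟪(delta k : Ell G), (T * y - y * T) (delta g)⟫_ℂ =
      ⟪(delta k : Ell G), T (y (delta g))⟫_ℂ - ⟪(star y) (delta k : Ell G), T (delta g)⟫_ℂ := by
    rw [_root_.sub_apply, inner_sub_right, ContinuousLinearMap.star_eq_adjoint,
      ContinuousLinearMap.adjoint_inner_left]
    rfl
  have b1 : ‖⟪(delta k : Ell G), T (y (delta g))⟫_ℂ‖ ≤ ‖T‖ * ‖y (delta 1)‖ := by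
    refine (norm_inner_le_norm _ _).trans ?_
    rw [norm_delta, one_mul, ← norm_delta_eq y hy1 g]
    exact T.le_opNorm _
  have b2 : ‖⟪(star y) (delta k : Ell G), T (delta g)⟫_ℂ‖ ≤ ‖T‖ * ‖y (delta 1)‖ := by
    refine (norm_inner_le_norm _ _).trans ?_
    rw [norm_delta_eq (star y) (star_comm_rho y hy1) k, norm_star_delta y hy1, mul_comm]
    apply mul_le_mul_of_nonneg_right _ (norm_nonneg _)
    refine (T.le_opNorm _).trans ?_
    rw [norm_delta, mul_one]
  have b3 : r ≤ (2 * ‖T‖) * ‖y (delta 1)‖ := by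
    rw [hr, e1, e2]
    refine (norm_sub_le _ _).trans ?_
    linarith
  have b4 : (2 * ‖T‖) * ‖y (delta 1)‖ ≤ (2 * ‖T‖ + 1) * ‖y (delta 1)‖ :=
    mul_le_mul_of_nonneg_right (by linarith) (norm_nonneg _)
  have b5 : (2 * ‖T‖ + 1) * ‖y (delta 1)‖ < r := by
    have h0 : 0 < 2 * ‖T‖ + 1 := by positivity
    rw [lt_div_iff₀ h0] at hy2
    linarith
  linarith

/-- operators commuting with the left translations commute with all operators that commute with
the right translations -/
theorem comm_of_lam (T x : Op G) (hT : ∀ g, lam g * T = T * lam g)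
    (hx : ∀ g, x * rho g = rho g * x) : T * x = x * T := by
  apply key T x hx
  intro ε hε
  have h2 := (hasSum_delta (x (delta 1))).eventually (Metric.ball_mem_nhds _ hε)
  rw [SummationFilter.unconditional_filter] at h2
  obtain ⟨s, h3⟩ := h2.exists
  refine ⟨∑ g ∈ s, (x (delta 1)) g • lam g, ?_, ?_, ?_⟩
  · intro g
    rw [Finset.sum_mul, Finset.mul_sum]
    refine Finset.sum_congr rfl fun h _ => ?_
    rw [smul_mul_assoc, mul_smul_comm, lam_rho]
  · rw [Finset.sum_mul, Finset.mul_sum]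
    refine Finset.sum_congr rfl fun h _ => ?_
    rw [smul_mul_assoc, mul_smul_comm, hT]
  · rw [_root_.sum_apply]
    have e : ∀ g ∈ s, ((x (delta 1)) g • lam g : Op G) (delta 1) = (x (delta 1)) g • delta g := by
      intro g _
      rw [_root_.smul_apply, lam_delta, mul_one]
    rw [Finset.sum_congr rfl e]
    rw [dist_comm, dist_eq_norm] at h3
    exact h3

end

/-! ### evaluations -/

theorem ev_sum {κ A : Type} [Ring A] [StarMul A] [Algebra ℂ A]
    (π : FreeGroup κ →* unitary A) (f : GR κ) :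
    ev π f = ∑ w ∈ f.coeff.support, f.coeff w • (π w : A) := by
  unfold ev
  rw [MonoidAlgebra.lift_apply]
  rfl

section
variable {κ G : Type} [Group G]

theorem comm_of_sys (σ : FreeGroup κ →* unitary (Op G)) (hs : Std σ) (hc : Cyc σ) (T x : Op G)
    (hT : ∀ w, (σ w : Op G) * T = T * (σ w : Op G))
    (hx : ∀ g, x * rho g = rho g * x) : T * x = x * T := by
  apply key T x hx
  intro ε hε
  obtain ⟨f, hf⟩ := hc (x (delta 1)) ε hε
  refine ⟨ev σ f, ?_, ?_, hf⟩
  · intro g
    rw [ev_sum, Finset.sum_mul, Finset.mul_sum]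
    refine Finset.sum_congr rfl fun h _ => ?_
    rw [smul_mul_assoc, mul_smul_comm, hs.comm]
  · rw [ev_sum, Finset.sum_mul, Finset.mul_sum]
    refine Finset.sum_congr rfl fun h _ => ?_
    rw [smul_mul_assoc, mul_smul_comm, hT]

theorem cent_eq (σ : FreeGroup κ →* unitary (Op G)) (hs : Std σ) (hc : Cyc σ) :
    Set.centralizer (Set.range fun w => (σ w : Op G)) =
      Set.centralizer (Set.range (lam (G := G))) := by
  ext T
  simp only [Set.mem_centralizer_iff, Set.forall_mem_range]
  constructor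
  · intro h g
    exact (comm_of_sys σ hs hc T (lam g) h (fun g' => lam_rho g g')).symm
  · intro h w
    exact (comm_of_lam T (σ w : Op G) h (fun g => hs.comm w g)).symm

theorem orth (σ : FreeGroup κ →* unitary (Op G)) (hs : Std σ) :
    Orthonormal ℂ (fun w : FreeGroup κ => (σ w : Op G) (delta 1)) := by
  classical
  rw [orthonormal_iff_ite]
  intro w w'
  have e1 : ⟪(σ w : Op G) (delta 1), (σ w' : Op G) (delta 1)⟫_ℂ = tau ((σ (w⁻¹ * w') : unitary (Op G)) : Op G) := by
    unfold tau
    rw [map_mul, map_inv, ← inner_delta 1]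
    show _ = ⟪(delta 1 : Ell G), (star (σ w : Op G) * (σ w' : Op G)) (delta 1)⟫_ℂ
    rw [ContinuousLinearMap.star_eq_adjoint]
    show _ = ⟪(delta 1 : Ell G), (ContinuousLinearMap.adjoint (σ w : Op G)) ((σ w' : Op G) (delta 1))⟫_ℂ
    rw [ContinuousLinearMap.adjoint_inner_right]
  rw [e1]
  split_ifs with h
  · subst h
    rw [inv_mul_cancel, map_one]
    show (delta 1 : Ell G) 1 = 1
    rw [delta_apply, if_pos rfl]
  · apply hs.free
    intro h1
    exact h (by rw [← mul_one w, ← h1, mul_inv_cancel_left])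

/-- the basis `σ(w) δ_1` -/
noncomputable def hb (σ : FreeGroup κ →* unitary (Op G)) (hs : Std σ) (hc : Cyc σ) :
    HilbertBasis (FreeGroup κ) ℂ (Ell G) :=
  HilbertBasis.mk (orth σ hs) (by
    intro ξ _
    rw [← SetLike.mem_coe, Submodule.topologicalClosure_coe, Metric.mem_closure_iff]
    intro ε hε
    obtain ⟨f, hf⟩ := hc ξ ε hε
    refine ⟨(ev σ f) (delta 1), ?_, by rw [dist_eq_norm]; exact hf⟩
    rw [ev_sum, _root_.sum_apply]
    apply Submodule.sum_mem
    intro w _
    rw [_root_.smul_apply]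
    exact Submodule.smul_mem _ _ (Submodule.subset_span ⟨w, rfl⟩))

theorem hb_apply (σ : FreeGroup κ →* unitary (Op G)) (hs : Std σ) (hc : Cyc σ) (w : FreeGroup κ) :
    hb σ hs hc w = (σ w : Op G) (delta 1) := by
  unfold hb
  rw [HilbertBasis.coe_mk]

theorem delta_eq {Γ : Type} [Group Γ] [DecidableEq Γ] (g : Γ) :
    (delta g : Ell Γ) = lp.single 2 g (1 : ℂ) := by
  unfold delta
  congr
  exact Subsingleton.elim _ _

theorem phi_lam (σ : FreeGroup κ →* unitary (Op G)) (hs : Std σ) (hc : Cyc σ) (g : FreeGroup κ) :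
    (hb σ hs hc).repr.conjStarAlgEquiv (σ g : Op G) = (lam g : Op (FreeGroup κ)) := by
  classical
  have h1 : (σ g : Op G) = (hb σ hs hc).repr.conjStarAlgEquiv.symm (lam g : Op (FreeGroup κ)) := by
    refine ContinuousLinearMap.ext_on (s := Set.range (hb σ hs hc)) ?_ ?_
    · have := (hb σ hs hc).dense_span
      rw [Submodule.dense_iff_topologicalClosure_eq_top]
      exact this
    · rintro _ ⟨h, rfl⟩
      rw [LinearIsometryEquiv.symm_conjStarAlgEquiv_apply_apply]
      have e1 : (hb σ hs hc).repr (hb σ hs hc h) = (delta h : Ell (FreeGroup κ)) := by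
        rw [delta_eq]; exact (hb σ hs hc).repr_self h
      have e2 : (hb σ hs hc).repr (hb σ hs hc (g * h)) = (delta (g * h) : Ell (FreeGroup κ)) := by
        rw [delta_eq]; exact (hb σ hs hc).repr_self (g * h)
      rw [e1, lam_delta, ← e2, LinearIsometryEquiv.symm_apply_apply, hb_apply, hb_apply, map_mul]
      rfl
  rw [h1]
  exact (hb σ hs hc).repr.conjStarAlgEquiv.apply_symm_apply _

end

theorem t_SPAT : S_SPAT := by
  intro κ G _ σ hs hc
  let W := (hb σ hs hc).repr
  refine ⟨W.symm, ?_⟩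
  intro T
  let φ : Op G ≃* Op (FreeGroup κ) :=
    { toFun := W.conjStarAlgEquiv
      invFun := W.conjStarAlgEquiv.symm
      left_inv := W.conjStarAlgEquiv.symm_apply_apply
      right_inv := W.conjStarAlgEquiv.apply_symm_apply
      map_mul' := fun x y => map_mul W.conjStarAlgEquiv x y }
  have h0 : φ '' (Set.range fun w => (σ w : Op G)) = Set.range (lam (G := FreeGroup κ)) := by
    rw [← Set.range_comp]
    congr 1
    funext g
    exact phi_lam σ hs hc g
  have h1 := image_cent φ _ _ h0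
  have h2 := mem_cent φ _ _ h1 (W.conjStarAlgEquiv.symm T)
  rw [cent_eq σ hs hc] at h2
  have e1 : φ (W.conjStarAlgEquiv.symm T) = T := W.conjStarAlgEquiv.apply_symm_apply T
  rw [e1] at h2
  have e3 : W.symm.conjStarAlgEquiv T = W.conjStarAlgEquiv.symm T := rfl
  have e4 : T ∈ LG (FreeGroup κ) ↔
      T ∈ ((LG (FreeGroup κ)).toStarSubalgebra : Set (Op (FreeGroup κ))) := Iff.rfl
  have e5 : W.symm.conjStarAlgEquiv T ∈ LG G ↔
      W.symm.conjStarAlgEquiv T ∈ ((LG G).toStarSubalgebra : Set (Op G)) := Iff.rfl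
  rw [e4, e5, LG_coe, LG_coe, e3]
  exact h2

end Pool.Agent.H581R.FF.TSPAT
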