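import Mathlib
import Pool.Agent.H581R.FF.TSPAT

/-! ISO from the spatial version. -/

namespace Pool.Agent.H581R.FF.TISOb

open Pool.Agent.H667R2.FG (Ell permOp lam rho delta LG EltG tau)

theorem iso_of_spat {Γ G : Type} [Group Γ] [Group G] (W : Ell Γ ≃ₗᵢ[ℂ] Ell G)
    (h : ∀ T : Op Γ, T ∈ LG Γ ↔ W.conjStarAlgEquiv T ∈ LG G) :
    Nonempty (EltG Γ ≃⋆ₐ[ℂ] EltG G) :=
  ⟨{ toFun := fun x => ⟨W.conjStarAlgEquiv (x : Op Γ), (h _).1 x.2⟩
     invFun := fun y => ⟨W.conjStarAlgEquiv.symm (y : Op G), (h _).2 (by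
       rw [StarAlgEquiv.apply_symm_apply]; exact y.2)⟩
     left_inv := fun x => Subtype.ext (W.conjStarAlgEquiv.symm_apply_apply _)
     right_inv := fun y => Subtype.ext (W.conjStarAlgEquiv.apply_symm_apply _)
     map_mul' := fun _ _ => Subtype.ext (map_mul W.conjStarAlgEquiv _ _)
     map_add' := fun _ _ => Subtype.ext (map_add W.conjStarAlgEquiv _ _)
     map_smul' := fun _ _ => Subtype.ext (map_smul W.conjStarAlgEquiv _ _)
     map_star' := fun _ => Subtype.ext (map_star W.conjStarAlgEquiv _) }⟩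

theorem t_ISO : S_ISO := by
  intro κ G _ σ hs hc
  obtain ⟨W, hW⟩ := TSPAT.t_SPAT κ G σ hs hc
  exact iso_of_spat W hW

end Pool.Agent.H581R.FF.TISOb
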