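import Mathlib
import Pool.Agent.H581R.FF.Stubs

/-! Task L1: the `ℓ¹`-norm on the group ring. -/

namespace Pool.Agent.H581R.FF.TL1

variable {κ : Type}

/-- the `ℓ¹`-norm is a sum over any finite set containing the support -/
theorem l1_eq (f : GR κ) (s : Finset (FreeGroup κ)) (hs : f.coeff.support ⊆ s) :
    l1 f = ∑ w ∈ s, ‖f.coeff w‖ := by
  unfold l1
  refine Finset.sum_subset hs ?_
  intro w _ hw
  rw [Finsupp.notMem_support_iff.1 hw, norm_zero]

theorem l1_nonneg (f : GR κ) : 0 ≤ l1 f := by
  unfold l1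
  exact Finset.sum_nonneg fun w _ => norm_nonneg _

theorem l1_add (f g : GR κ) : l1 (f + g) ≤ l1 f + l1 g := by
  classical
  rw [l1_eq (f + g) (f.coeff.support ∪ g.coeff.support) (by
      rw [MonoidAlgebra.coeff_add]
      exact Finsupp.support_add),
    l1_eq f (f.coeff.support ∪ g.coeff.support) Finset.subset_union_left,
    l1_eq g (f.coeff.support ∪ g.coeff.support) Finset.subset_union_right,
    ← Finset.sum_add_distrib]
  refine Finset.sum_le_sum ?_
  intro w _
  rw [MonoidAlgebra.coeff_add, Finsupp.add_apply]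
  exact norm_add_le _ _

theorem l1_zero : l1 (0 : GR κ) = 0 := by
  unfold l1
  simp

theorem l1_smul (s : ℂ) (f : GR κ) : l1 (s • f) = ‖s‖ * l1 f := by
  classical
  rw [l1_eq (s • f) f.coeff.support (by
      rw [MonoidAlgebra.coeff_smul]
      exact Finsupp.support_smul)]
  unfold l1
  rw [Finset.mul_sum]
  refine Finset.sum_congr rfl ?_
  intro w _
  rw [MonoidAlgebra.coeff_smul, Finsupp.smul_apply, smul_eq_mul, norm_mul]

theorem l1_single (w : FreeGroup κ) (c : ℂ) : l1 (MonoidAlgebra.single w c : GR κ) = ‖c‖ := by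
  classical
  rw [l1_eq (MonoidAlgebra.single w c) {w} (by
      rw [MonoidAlgebra.coeff_single]
      exact Finsupp.support_single_subset)]
  rw [Finset.sum_singleton, MonoidAlgebra.coeff_single, Finsupp.single_eq_same]

theorem l1_sum {α : Type} (s : Finset α) (F : α → GR κ) :
    l1 (∑ i ∈ s, F i) ≤ ∑ i ∈ s, l1 (F i) := by
  classical
  induction s using Finset.induction_on with
  | empty => simp [l1_zero]
  | insert a s ha ih =>
    rw [Finset.sum_insert ha, Finset.sum_insert ha]
    exact (l1_add _ _).trans (add_le_add le_rfl ih)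

/-- every element is the sum of its terms -/
theorem eq_sum (f : GR κ) :
    f = ∑ w ∈ f.coeff.support, (MonoidAlgebra.single w (f.coeff w) : GR κ) := by
  apply MonoidAlgebra.coeff_injective
  rw [MonoidAlgebra.coeff_sum]
  simp only [MonoidAlgebra.coeff_single]
  exact (Finsupp.sum_single f.coeff).symm

theorem l1_mul (f g : GR κ) : l1 (f * g) ≤ l1 f * l1 g := by
  conv_lhs => rw [eq_sum f, eq_sum g, Finset.sum_mul_sum]
  refine (l1_sum _ _).trans ?_
  have : ∀ v ∈ f.coeff.support,
      l1 (∑ w ∈ g.coeff.support, (MonoidAlgebra.single v (f.coeff v) : GR κ) *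
        MonoidAlgebra.single w (g.coeff w)) ≤ ‖f.coeff v‖ * l1 g := by
    intro v _
    refine (l1_sum _ _).trans ?_
    unfold l1
    rw [Finset.mul_sum]
    refine Finset.sum_le_sum ?_
    intro w _
    have h := l1_single (v * w) (f.coeff v * g.coeff w)
    unfold l1 at h
    rw [MonoidAlgebra.single_mul_single, h, norm_mul]
  refine (Finset.sum_le_sum this).trans ?_
  rw [← Finset.sum_mul]
  exact le_rfl

theorem l1_bs (w : FreeGroup κ) : l1 (bs w) = 1 := by
  rw [l1_single, norm_one]

theorem t_L1 : S_L1 := fun _ f g s =>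
  ⟨l1_add f g, l1_mul f g, l1_smul s f, l1_nonneg f, l1_bs⟩

end Pool.Agent.H581R.FF.TL1
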