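import Mathlib
import Pool.Agent.H581R.FF.Stubs

namespace Pool.Agent.H581R.FF.TL2

open Pool.Agent.H581R.FF

theorem t_L2 : S_L2 := by
  intro κ f w s
  refine ⟨?_, ?_, ?_⟩
  · unfold l2
    congr 1
    refine Finset.sum_nbij' (fun m => m * w⁻¹) (fun m => m * w) ?_ ?_ ?_ ?_ ?_
    · intro m hm
      rw [Finsupp.mem_support_iff, MonoidAlgebra.coeff_mul_single_apply] at hm
      rw [Finsupp.mem_support_iff]
      intro h
      apply hm
      rw [h, zero_mul]
    · intro m hm
      rw [Finsupp.mem_support_iff] at hm
      rw [Finsupp.mem_support_iff, MonoidAlgebra.coeff_mul_single_apply]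
      simpa using hm
    · intro m _; simp
    · intro m _; simp
    · intro m _
      rw [MonoidAlgebra.coeff_mul_single_apply, mul_one]
  · unfold l2
    congr 1
    refine Finset.sum_nbij' (fun m => w⁻¹ * m) (fun m => w * m) ?_ ?_ ?_ ?_ ?_
    · intro m hm
      rw [Finsupp.mem_support_iff, MonoidAlgebra.coeff_single_mul_apply] at hm
      rw [Finsupp.mem_support_iff]
      intro h
      apply hm
      rw [h, mul_zero]
    · intro m hm
      rw [Finsupp.mem_support_iff] at hm
      rw [Finsupp.mem_support_iff, MonoidAlgebra.coeff_single_mul_apply]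
      simpa using hm
    · intro m _; simp
    · intro m _; simp
    · intro m _
      rw [MonoidAlgebra.coeff_single_mul_apply, one_mul]
  · unfold l2
    by_cases hs : s = 0
    · subst hs
      simp
    · have h1 : (s • f).coeff.support = f.coeff.support := by
        ext m
        simp [Finsupp.mem_support_iff, hs]
      rw [h1]
      have h2 : ∑ m ∈ f.coeff.support, ‖(s • f).coeff m‖ ^ 2
          = ‖s‖ ^ 2 * ∑ m ∈ f.coeff.support, ‖f.coeff m‖ ^ 2 := by
        rw [Finset.mul_sum]
        refine Finset.sum_congr rfl fun m _ => ?_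
        rw [MonoidAlgebra.coeff_smul_apply, norm_smul, mul_pow]
      rw [h2, Real.sqrt_mul (by positivity), Real.sqrt_sq (norm_nonneg s)]

end Pool.Agent.H581R.FF.TL2
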