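import Mathlib
import Pool.Agent.H581R.FF.Stubs

/-! Task SLIM: strong limits of systems. -/

namespace Pool.Agent.H581R.FF.TSLIM

open Pool.Agent.H667R2.FG (Ell permOp lam rho delta LG EltG tau)
open Pool.Agent.H667R2.FG
open Pool.Agent.H581R.FF
open Filter Topology
open scoped ComplexConjugate InnerProductSpace

section
variable {κ G : Type}

theorem uni_norm (V : unitary (Op G)) (x : Ell G) : ‖(V : Op G) x‖ = ‖x‖ :=
  ContinuousLinearMap.norm_map_of_mem_unitary V.2 x

theorem cauchy_iff (f : ℕ → Op G) (x : Ell G) :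
    CauchySeq (fun n => f n x) ↔
      Tendsto (fun p : ℕ × ℕ => ‖(f p.1 - f p.2) x‖) atTop (𝓝 0) := by
  rw [cauchySeq_iff_tendsto_dist_atTop_0]
  have : (fun p : ℕ × ℕ => dist (f p.1 x) (f p.2 x)) = fun p : ℕ × ℕ => ‖(f p.1 - f p.2) x‖ := by
    funext p
    rw [dist_eq_norm]
    rfl
  rw [this]

theorem inv_coe (π : FreeGroup κ →* unitary (Op G)) (w : FreeGroup κ) :
    ((π w⁻¹ : unitary (Op G)) : Op G) = star (π w : Op G) := by
  rw [map_inv]
  rfl

theorem mul_coe (π : FreeGroup κ →* unitary (Op G)) (w w' : FreeGroup κ) :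
    ((π (w * w') : unitary (Op G)) : Op G) = (π w : Op G) * (π w' : Op G) := by
  rw [map_mul]
  rfl

variable [Group G]

theorem sub_rho (A B : Op G) (hA : ∀ g, A * rho g = rho g * A) (hB : ∀ g, B * rho g = rho g * B)
    (g : G) : (A - B) * rho g = rho g * (A - B) := by
  rw [sub_mul, mul_sub, hA, hB]

theorem step1 (π : ℕ → FreeGroup κ →* unitary (Op G)) (hs : ∀ n, Std (π n))
    (hc : ∀ z : κ, CauchySeq fun n => (π n (FreeGroup.of z) : Op G) (delta 1))
    (w : FreeGroup κ) : CauchySeq fun n => (π n w : Op G) (delta 1) := by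
  have hinv : ∀ w : FreeGroup κ, (CauchySeq fun n => (π n w : Op G) (delta 1)) →
      CauchySeq fun n => (π n w⁻¹ : Op G) (delta 1) := by
    intro w hw
    rw [cauchy_iff (fun n => (π n w⁻¹ : Op G))]
    rw [cauchy_iff (fun n => (π n w : Op G))] at hw
    refine hw.congr fun p => ?_
    rw [inv_coe, inv_coe, ← star_sub]
    exact (norm_star_delta _ (sub_rho _ _ ((hs p.1).comm w) ((hs p.2).comm w))).symm
  induction w using FreeGroup.induction_on with
  | C1 =>
    have : (fun n => (π n 1 : Op G) (delta 1)) = fun _ : ℕ => (delta 1 : Ell G) := by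
      funext n
      rw [map_one]
      rfl
    rw [this]
    exact cauchySeq_const _
  | of z => exact hc z
  | inv_of z hz => exact hinv _ hz
  | mul x y hx hy =>
    rw [cauchy_iff (fun n => (π n (x * y) : Op G))]
    rw [cauchy_iff (fun n => (π n x : Op G))] at hx
    rw [cauchy_iff (fun n => (π n y : Op G))] at hy
    have h2 := hx.add hy
    rw [add_zero] at h2
    refine squeeze_zero (fun p => norm_nonneg _) (fun p => ?_) h2
    have e : ((π p.1 (x * y) : unitary (Op G)) : Op G) - (π p.2 (x * y) : Op G)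
        = ((π p.1 x : Op G) - (π p.2 x : Op G)) * (π p.2 y : Op G)
          + (π p.1 x : Op G) * ((π p.1 y : Op G) - (π p.2 y : Op G)) := by
      rw [mul_coe, mul_coe]
      noncomm_ring
    rw [e]
    refine (norm_add_le (((((π p.1 x : Op G) - (π p.2 x : Op G)) * (π p.2 y : Op G))) (delta 1))
      (((π p.1 x : Op G) * ((π p.1 y : Op G) - (π p.2 y : Op G))) (delta 1))).trans ?_
    refine add_le_add ?_ ?_
    · exact (norm_mul_unitary_delta _ _ (sub_rho _ _ ((hs p.1).comm x) ((hs p.2).comm x))
        ((hs p.2).comm y) (π p.2 y).2).le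
    · exact (uni_norm (π p.1 x) _).le

/-- the closed subspace of vectors on which the sequence converges -/
theorem step2 (V : ℕ → unitary (Op G)) (hr : ∀ n (g : G), (V n : Op G) * rho g = rho g * (V n : Op G))
    (hc : CauchySeq fun n => (V n : Op G) (delta 1)) (ξ : Ell G) :
    CauchySeq fun n => (V n : Op G) ξ := by
  classical
  let S : Submodule ℂ (Ell G) :=
    { carrier := {ξ | CauchySeq fun n => (V n : Op G) ξ}
      add_mem' := by
        intro a b ha hb
        have h := CauchySeq.add ha hb
        have e : ((fun n => (V n : Op G) a) + fun n => (V n : Op G) b)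
            = fun n => (V n : Op G) (a + b) := by
          funext n
          exact (map_add _ _ _).symm
        rw [e] at h
        exact h
      zero_mem' := by
        have e : (fun n => (V n : Op G) 0) = fun _ => (0 : Ell G) := by
          funext n
          exact map_zero _
        show CauchySeq fun n => (V n : Op G) 0
        rw [e]
        exact cauchySeq_const _
      smul_mem' := by
        intro c a ha
        have h : CauchySeq fun n => c • ((V n : Op G) a) :=
          (uniformContinuous_const_smul c).comp_cauchySeq ha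
        have e : (fun n => c • ((V n : Op G) a)) = fun n => (V n : Op G) (c • a) := by
          funext n
          rw [map_smul]
        rw [e] at h
        exact h }
  have hmem : ∀ x : Ell G, x ∈ S ↔ CauchySeq fun n => (V n : Op G) x := fun x => Iff.rfl
  have hcl : IsClosed (S : Set (Ell G)) := by
    rw [← isSeqClosed_iff_isClosed]
    intro xs x hxs hx
    show CauchySeq fun n => (V n : Op G) x
    rw [Metric.cauchySeq_iff']
    intro ε hε
    obtain ⟨k, hk⟩ := (Metric.tendsto_atTop.1 hx (ε / 3) (by positivity))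
    have hk' := hk k le_rfl
    have h3 : CauchySeq fun n => (V n : Op G) (xs k) := hxs k
    obtain ⟨N, hN⟩ := Metric.cauchySeq_iff'.1 h3 (ε / 3) (by positivity)
    refine ⟨N, fun n hn => ?_⟩
    have h4 := hN n hn
    rw [dist_eq_norm] at h4 hk' ⊢
    have e : (V n : Op G) x - (V N : Op G) x = (V N : Op G) (xs k - x) - (V n : Op G) (xs k - x)
        + ((V n : Op G) (xs k) - (V N : Op G) (xs k)) := by
      rw [map_sub, map_sub]
      abel
    rw [e]
    have a1 := norm_add_le ((V N : Op G) (xs k - x) - (V n : Op G) (xs k - x))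
      ((V n : Op G) (xs k) - (V N : Op G) (xs k))
    have a2 := norm_sub_le ((V N : Op G) (xs k - x)) ((V n : Op G) (xs k - x))
    rw [uni_norm, uni_norm] at a2
    linarith
  have hdelta : ∀ g : G, (delta g : Ell G) ∈ S := by
    intro g
    rw [hmem]
    have h1 : (delta g : Ell G) = rho g⁻¹ (delta 1) := by
      rw [rho_delta]
      congr 1
      group
    have h2 : ∀ n, (V n : Op G) (delta g) = rho g⁻¹ ((V n : Op G) (delta 1)) := by
      intro n
      rw [h1]
      exact congrArg (fun z : Op G => z (delta 1)) (hr n g⁻¹)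
    simp only [h2]
    exact (rho g⁻¹ : Op G).uniformContinuous.comp_cauchySeq hc
  have h1 : HasSum (fun i : G => lp.single 2 i (ξ i)) ξ := lp.hasSum_single (by norm_num) ξ
  refine hcl.mem_of_tendsto h1 (Eventually.of_forall fun s => ?_)
  refine S.sum_mem fun i _ => ?_
  have h2 : (lp.single 2 i (ξ i) : Ell G) = (ξ i) • (delta i : Ell G) := by
    ext j
    show (lp.single 2 i (ξ i) : Ell G) j = ξ i • ((delta i : Ell G) j)
    rw [delta_apply]
    by_cases hj : j = i
    · subst hj
      rw [if_pos rfl, lp.single_apply_self]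
      simp
    · rw [if_neg hj, lp.single_apply_ne _ _ _ hj]
      simp
  rw [h2]
  exact S.smul_mem _ (hdelta i)

end

theorem t_SLIM : S_SLIM := by
  intro κ G _ π hs hc
  have hA : ∀ (w : FreeGroup κ) (ξ : Ell G), ∃ y, Tendsto (fun n => (π n w : Op G) ξ) atTop (𝓝 y) :=
    fun w ξ => cauchySeq_tendsto_of_complete
      (step2 (fun n => π n w) (fun n g => (hs n).comm w g) (step1 π hs hc w) ξ)
  choose F hF using hA
  let S : FreeGroup κ → Op G := fun w =>
    continuousLinearMapOfTendsto (fun n => (π n w : Op G)) (f := F w) (tendsto_pi_nhds.2 (hF w))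
  have hS : ∀ w ξ, Tendsto (fun n => (π n w : Op G) ξ) atTop (𝓝 (S w ξ)) := fun w ξ => hF w ξ
  have hmul : ∀ w w', S (w * w') = S w * S w' := by
    intro w w'
    refine ContinuousLinearMap.ext fun ξ => ?_
    refine tendsto_nhds_unique (hS (w * w') ξ) ?_
    have h1 := hS w (S w' ξ)
    have h2 : Tendsto (fun n => (π n (w * w') : Op G) ξ - (π n w : Op G) (S w' ξ)) atTop (𝓝 0) := by
      rw [tendsto_zero_iff_norm_tendsto_zero]
      have h3 := tendsto_iff_norm_sub_tendsto_zero.1 (hS w' ξ)
      refine h3.congr fun n => ?_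
      rw [mul_coe]
      have : ((π n w : Op G) * (π n w' : Op G)) ξ - (π n w : Op G) (S w' ξ)
          = (π n w : Op G) ((π n w' : Op G) ξ - S w' ξ) := by
        rw [map_sub]
        rfl
      rw [this, uni_norm]
    have h4 := h2.add h1
    rw [zero_add] at h4
    refine h4.congr fun n => ?_
    rw [sub_add_cancel]
  have hone : S 1 = 1 := by
    refine ContinuousLinearMap.ext fun ξ => ?_
    refine tendsto_nhds_unique (hS 1 ξ) ?_
    refine tendsto_const_nhds.congr fun n => ?_
    rw [map_one]
    rfl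
  have hstar : ∀ w, star (S w) = S w⁻¹ := by
    intro w
    rw [ContinuousLinearMap.star_eq_adjoint]
    symm
    rw [ContinuousLinearMap.eq_adjoint_iff]
    intro x y
    have h1 : Tendsto (fun n => ⟪(π n w⁻¹ : Op G) x, y⟫_ℂ) atTop (𝓝 ⟪S w⁻¹ x, y⟫_ℂ) :=
      (hS w⁻¹ x).inner tendsto_const_nhds
    have h2 : Tendsto (fun n => ⟪x, (π n w : Op G) y⟫_ℂ) atTop (𝓝 ⟪x, S w y⟫_ℂ) :=
      tendsto_const_nhds.inner (hS w y)
    refine tendsto_nhds_unique h1 (h2.congr fun n => ?_)
    rw [inv_coe, ContinuousLinearMap.star_eq_adjoint, ContinuousLinearMap.adjoint_inner_left]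
  have huni : ∀ w, S w ∈ unitary (Op G) := by
    intro w
    rw [Unitary.mem_iff, hstar, ← hmul, ← hmul, inv_mul_cancel, mul_inv_cancel, hone]
    exact ⟨rfl, rfl⟩
  let σ : FreeGroup κ →* unitary (Op G) :=
    { toFun := fun w => ⟨S w, huni w⟩
      map_one' := Subtype.ext hone
      map_mul' := fun w w' => Subtype.ext (hmul w w') }
  refine ⟨σ, ⟨?_, ?_⟩, fun w => hS w (delta 1)⟩
  · intro w g
    show S w * rho g = rho g * S w
    refine ContinuousLinearMap.ext fun ξ => ?_
    refine tendsto_nhds_unique (hS w (rho g ξ)) ?_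
    have h1 : Tendsto (fun n => (rho g : Op G) ((π n w : Op G) ξ)) atTop
        (𝓝 ((rho g : Op G) (S w ξ))) :=
      ((rho g : Op G).continuous.tendsto _).comp (hS w ξ)
    refine h1.congr fun n => ?_
    exact (congrArg (fun z : Op G => z ξ) ((hs n).comm w g)).symm
  · intro w hw
    show (S w (delta 1)) 1 = 0
    rw [← TL2.inner_delta]
    have h1 : Tendsto (fun n => ⟪(delta 1 : Ell G), (π n w : Op G) (delta 1)⟫_ℂ) atTop
        (𝓝 ⟪(delta 1 : Ell G), S w (delta 1)⟫_ℂ) :=
      tendsto_const_nhds.inner (hS w (delta 1))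
    refine tendsto_nhds_unique h1 (tendsto_const_nhds.congr fun n => ?_)
    rw [TL2.inner_delta]
    exact ((hs n).free w hw).symm

end Pool.Agent.H581R.FF.TSLIM
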