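import Mathlib
import Pool.Agent.H581R.FF.Stubs

/-! The special derivation is trace preserving. -/

namespace Pool.Agent.H581R.FF.TTR

open Pool.Agent.H581R.FF
open scoped ComplexConjugate

variable {ι : Type}

theorem bs_mul {κ : Type} (w w' : FreeGroup κ) : bs (w * w') = bs w * bs w' := by
  simp [bs, MonoidAlgebra.single_mul_single]

theorem bs_mul_inv {κ : Type} (w : FreeGroup κ) : bs w * bs w⁻¹ = (1 : GR κ) := by
  rw [← bs_mul, mul_inv_cancel]; rfl

theorem bs_inv_mul {κ : Type} (w : FreeGroup κ) : bs w⁻¹ * bs w = (1 : GR κ) := by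
  rw [← bs_mul, inv_mul_cancel]; rfl

/-- the span of the conjugates of the nonzero powers of `v` -/
noncomputable def KK (ι : Type) : Submodule ℂ (GR (Option ι)) :=
  Submodule.span ℂ {x | ∃ (θ : FreeGroup (Option ι)) (m : ℤ), m ≠ 0 ∧ x = bs (θ * vv ^ m * θ⁻¹)}

theorem conj_mem (g : FreeGroup (Option ι)) {x : GR (Option ι)} (hx : x ∈ KK ι) :
    bs g * x * bs g⁻¹ ∈ KK ι := by
  unfold KK at hx
  induction hx using Submodule.span_induction with
  | mem x hx =>
    obtain ⟨θ, m, hm, rfl⟩ := hx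
    refine Submodule.subset_span ⟨g * θ, m, hm, ?_⟩
    rw [← bs_mul, ← bs_mul]
    congr 1
    group
  | zero => simp
  | add x y _ _ hx hy => rw [mul_add, add_mul]; exact Submodule.add_mem _ hx hy
  | smul a x _ hx =>
    rw [mul_smul_comm, smul_mul_assoc]; exact Submodule.smul_mem _ _ hx

theorem kk_mem (k : ℤ →₀ ℂ) (k0 : k 0 = 0) : (kk k : GR (Option ι)) ∈ KK ι := by
  unfold kk Finsupp.sum
  refine Submodule.sum_mem _ fun m hm => ?_
  have hm0 : m ≠ 0 := by
    rintro rfl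
    exact (Finsupp.mem_support_iff.mp hm) k0
  have h1 : (MonoidAlgebra.single (vv ^ m) (k m) : GR (Option ι))
      = (k m) • bs ((1 : FreeGroup (Option ι)) * vv ^ m * (1 : FreeGroup (Option ι))⁻¹) := by
    simp [bs, MonoidAlgebra.smul_single]
  change (MonoidAlgebra.single (vv ^ m) (k m) : GR (Option ι)) ∈ KK ι
  rw [h1]
  exact Submodule.smul_mem _ _ (Submodule.subset_span ⟨1, m, hm0, rfl⟩)

theorem Ad_mem (c : FreeGroup ι →₀ ℝ) (k : ℤ →₀ ℂ) (k0 : k 0 = 0) : Ad c k ∈ KK ι := by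
  unfold Ad Finsupp.sum
  exact Submodule.sum_mem _ fun β _ => Submodule.smul_mem _ _ (conj_mem _ (kk_mem k k0))

theorem leib_one {κ : Type} {D : GR κ →ₗ[ℂ] GR κ} (h : Leib D) : D 1 = 0 := by
  have := h 1 1
  simp only [one_mul, mul_one] at this
  simpa using this

theorem leib_inv {κ : Type} {D : GR κ →ₗ[ℂ] GR κ} (h : Leib D) (w : FreeGroup κ) :
    D (bs w⁻¹) = -(bs w⁻¹ * D (bs w) * bs w⁻¹) := by
  have h1 := h (bs w) (bs w⁻¹)
  rw [bs_mul_inv, leib_one h] at h1
  have h2 : bs w * D (bs w⁻¹) = -(D (bs w) * bs w⁻¹) := by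
    rw [eq_neg_iff_add_eq_zero, add_comm]; exact h1.symm
  calc D (bs w⁻¹) = (bs w⁻¹ * bs w) * D (bs w⁻¹) := by rw [bs_inv_mul, one_mul]
    _ = bs w⁻¹ * (bs w * D (bs w⁻¹)) := by rw [mul_assoc]
    _ = _ := by rw [h2, mul_neg, mul_assoc]

theorem D_mem {u : ι} {c : FreeGroup ι →₀ ℝ} {k : ℤ →₀ ℂ} {D : GR (Option ι) →ₗ[ℂ] GR (Option ι)}
    (h : DU u c k D) (w : FreeGroup (Option ι)) : D (bs w) * bs w⁻¹ ∈ KK ι := by
  induction w using FreeGroup.induction_on with
  | C1 =>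
    have : D (bs (1 : FreeGroup (Option ι))) = 0 := leib_one h.leib
    rw [this, zero_mul]
    exact Submodule.zero_mem _
  | of x =>
    by_cases hx : x = some u
    · subst hx
      rw [h.du, smul_mul_assoc]
      exact Submodule.smul_mem _ _ (conj_mem _ (Ad_mem c k h.k0))
    · rw [h.dz x hx, zero_mul]
      exact Submodule.zero_mem _
  | inv_of x hx =>
    change D (bs (FreeGroup.of x)) * bs (FreeGroup.of x)⁻¹ ∈ KK ι at hx
    rw [leib_inv h.leib, neg_mul]
    refine Submodule.neg_mem _ ?_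
    have h1 := conj_mem (FreeGroup.of x)⁻¹ hx
    rwa [mul_assoc (bs (FreeGroup.of x)⁻¹) (D (bs (FreeGroup.of x))) (bs (FreeGroup.of x)⁻¹)]
  | mul x y hx hy =>
    rw [bs_mul, h.leib, mul_inv_rev, bs_mul, add_mul]
    refine Submodule.add_mem _ ?_ ?_
    · have : D (bs x) * bs y * (bs y⁻¹ * bs x⁻¹) = D (bs x) * bs x⁻¹ := by
        rw [mul_assoc, ← mul_assoc (bs y), bs_mul_inv, one_mul]
      rw [this]; exact hx
    · have : bs x * D (bs y) * (bs y⁻¹ * bs x⁻¹) = bs x * (D (bs y) * bs y⁻¹) * bs x⁻¹ := by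
        simp only [mul_assoc]
      rw [this]; exact conj_mem x hy

theorem coeff_mem {x : GR (Option ι)} (hx : x ∈ KK ι) (g : FreeGroup (Option ι))
    (hg : ∀ (θ : FreeGroup (Option ι)) (m : ℤ), g ≠ θ * vv ^ m * θ⁻¹) : x.coeff g = 0 := by
  unfold KK at hx
  induction hx using Submodule.span_induction with
  | mem x hx =>
    obtain ⟨θ, m, hm, rfl⟩ := hx
    simp only [bs, MonoidAlgebra.coeff_single]
    exact Finsupp.single_eq_of_ne (hg θ m)
  | zero => simp
  | add x y _ _ hx hy => simp [MonoidAlgebra.coeff_add, hx, hy]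
  | smul a x _ hx => simp [MonoidAlgebra.coeff_smul, hx]

theorem tr_comm {κ : Type} (x y : GR κ) : (x * y).coeff 1 = (y * x).coeff 1 := by
  induction x using MonoidAlgebra.induction_linear with
  | zero => simp
  | add a b ha hb => simp only [add_mul, mul_add, MonoidAlgebra.coeff_add, Finsupp.add_apply, ha, hb]
  | single m r =>
    rw [MonoidAlgebra.coeff_single_mul_apply, MonoidAlgebra.coeff_mul_single_apply]
    simp [mul_comm]

theorem D_vpow {u : ι} {c : FreeGroup ι →₀ ℝ} {k : ℤ →₀ ℂ} {D : GR (Option ι) →ₗ[ℂ] GR (Option ι)}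
    (h : DU u c k D) (m : ℤ) : D (bs (vv ^ m)) = 0 := by
  have hv : D (bs (vv : FreeGroup (Option ι))) = 0 := h.dz none (by simp)
  have hn : ∀ n : ℕ, D (bs ((vv : FreeGroup (Option ι)) ^ n)) = 0 := by
    intro n
    induction n with
    | zero => rw [pow_zero]; exact leib_one h.leib
    | succ n ih => rw [pow_succ, bs_mul, h.leib, ih, hv, zero_mul, mul_zero, add_zero]
  obtain ⟨n, rfl | rfl⟩ := m.eq_nat_or_neg
  · rw [zpow_natCast]; exact hn n
  · rw [zpow_neg, zpow_natCast, leib_inv h.leib, hn n]; simp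

theorem tr_word {u : ι} {c : FreeGroup ι →₀ ℝ} {k : ℤ →₀ ℂ} {D : GR (Option ι) →ₗ[ℂ] GR (Option ι)}
    (h : DU u c k D) (w : FreeGroup (Option ι)) : (D (bs w)).coeff 1 = 0 := by
  by_cases hw : ∃ (θ : FreeGroup (Option ι)) (m : ℤ), w = θ * vv ^ m * θ⁻¹
  · obtain ⟨θ, m, rfl⟩ := hw
    rw [bs_mul, bs_mul, h.leib, h.leib, D_vpow h, mul_zero, add_zero, leib_inv h.leib]
    rw [MonoidAlgebra.coeff_add, Finsupp.add_apply]
    have e1 : (D (bs θ) * bs (vv ^ m) * bs θ⁻¹).coeff 1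
        = (bs (vv ^ m) * bs θ⁻¹ * D (bs θ)).coeff 1 := by
      rw [mul_assoc, tr_comm]
    have e2 : (bs θ * bs (vv ^ m) * -(bs θ⁻¹ * D (bs θ) * bs θ⁻¹)).coeff 1
        = -(bs (vv ^ m) * bs θ⁻¹ * D (bs θ)).coeff 1 := by
      have : bs θ * bs (vv ^ m) * -(bs θ⁻¹ * D (bs θ) * bs θ⁻¹)
          = -(bs θ * (bs (vv ^ m) * bs θ⁻¹ * D (bs θ) * bs θ⁻¹)) := by
        simp only [mul_neg, mul_assoc]
      rw [this, MonoidAlgebra.coeff_neg, Finsupp.neg_apply, tr_comm, mul_assoc _ (bs θ⁻¹) (bs θ),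
        bs_inv_mul, mul_one]
    rw [e1, e2, add_neg_cancel]
  · push Not at hw
    have h1 : D (bs w) = (D (bs w) * bs w⁻¹) * bs w := by
      rw [mul_assoc, bs_inv_mul, mul_one]
    rw [h1]
    simp only [bs]
    rw [MonoidAlgebra.coeff_mul_single_apply, mul_one, one_mul]
    refine coeff_mem (D_mem h w) _ fun θ m hm => hw θ (-m) ?_
    rw [← inv_inv w, hm]
    group

theorem t_TR : S_TR := by
  intro ι u c k D h x
  induction x using MonoidAlgebra.induction_linear with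
  | zero => simp
  | add a b ha hb => simp only [map_add, MonoidAlgebra.coeff_add, Finsupp.add_apply, ha, hb, add_zero]
  | single m r =>
    have : (MonoidAlgebra.single m r : GR (Option ι)) = r • bs m := by
      simp [bs, MonoidAlgebra.smul_single]
    rw [this, map_smul, MonoidAlgebra.coeff_smul, Finsupp.smul_apply, tr_word h, smul_zero]

end Pool.Agent.H581R.FF.TTR
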