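import Mathlib
import Pool.Agent.H581R.FF.Stubs

namespace Pool.Agent.H581R.FF.TWDIST

open Pool.Agent.H667R2.FG (Ell permOp lam rho delta LG EltG tau)
open scoped ComplexConjugate

/-- `π` commutes with the right translations -/
def Cm {κ G : Type} [Group G] (π : FreeGroup κ →* unitary (Op G)) : Prop :=
  ∀ (w : FreeGroup κ) (g : G), (π w : Op G) * rho g = rho g * (π w : Op G)

section
variable {κ G : Type} [Group G] {π π' : FreeGroup κ →* unitary (Op G)}

theorem sub_comm (hπ : Cm π) (hπ' : Cm π') (w : FreeGroup κ) (g : G) :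
    ((π w : Op G) - (π' w : Op G)) * rho g = rho g * ((π w : Op G) - (π' w : Op G)) := by
  rw [sub_mul, mul_sub, hπ, hπ']

theorem inv_eq (hπ : Cm π) (hπ' : Cm π') (w : FreeGroup κ) :
    ‖((π w⁻¹ : Op G) - (π' w⁻¹ : Op G)) (delta 1)‖ = ‖((π w : Op G) - (π' w : Op G)) (delta 1)‖ := by
  have e : (π w⁻¹ : Op G) - (π' w⁻¹ : Op G) = star ((π w : Op G) - (π' w : Op G)) := by
    rw [map_inv, map_inv, star_sub]
    rfl
  rw [e]
  exact Pool.Agent.H667R2.FG.norm_star_delta _ (sub_comm hπ hπ' w)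

theorem mul_le (hπ : Cm π) (hπ' : Cm π') (w w' : FreeGroup κ) :
    ‖((π (w * w') : Op G) - (π' (w * w') : Op G)) (delta 1)‖ ≤
      ‖((π w : Op G) - (π' w : Op G)) (delta 1)‖ +
      ‖((π w' : Op G) - (π' w' : Op G)) (delta 1)‖ := by
  have e : (π (w * w') : Op G) - (π' (w * w') : Op G) =
      ((π w : Op G) - (π' w : Op G)) * (π' w' : Op G) +
      (π w : Op G) * ((π w' : Op G) - (π' w' : Op G)) := by
    rw [map_mul, map_mul, Submonoid.coe_mul, Submonoid.coe_mul]
    rw [sub_mul, mul_sub]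
    abel
  rw [e, _root_.add_apply]
  refine (norm_add_le _ _).trans ?_
  rw [Pool.Agent.H667R2.FG.norm_mul_unitary_delta _ _ (sub_comm hπ hπ' w) (hπ' w') (π' w').2]
  have h2 : ‖((π w : Op G) * ((π w' : Op G) - (π' w' : Op G))) (delta 1)‖ =
      ‖((π w' : Op G) - (π' w' : Op G)) (delta 1)‖ :=
    ContinuousLinearMap.norm_map_of_mem_unitary (π w).2 _
  rw [h2]

theorem list_le (hπ : Cm π) (hπ' : Cm π') {e : ℝ}
    (h : ∀ z, ‖((π (FreeGroup.of z) : Op G) - (π' (FreeGroup.of z) : Op G)) (delta 1)‖ ≤ e)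
    (L : List (κ × Bool)) :
    ‖((π (FreeGroup.mk L) : Op G) - (π' (FreeGroup.mk L) : Op G)) (delta 1)‖ ≤ L.length * e := by
  induction L with
  | nil =>
    have h1 : (FreeGroup.mk [] : FreeGroup κ) = 1 := rfl
    rw [h1, map_one, map_one, sub_self]
    simp
  | cons x L ih =>
    obtain ⟨z, b⟩ := x
    have e1 : (FreeGroup.mk ((z, b) :: L) : FreeGroup κ) = FreeGroup.mk [(z, b)] * FreeGroup.mk L := by
      rw [FreeGroup.mul_mk]; rfl
    rw [e1]
    refine (mul_le hπ hπ' _ _).trans ?_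
    have h2 : ‖((π (FreeGroup.mk [(z, b)]) : Op G) - (π' (FreeGroup.mk [(z, b)]) : Op G)) (delta 1)‖
        ≤ e := by
      cases b with
      | true => exact h z
      | false =>
        have e2 : (FreeGroup.mk [(z, false)] : FreeGroup κ) = (FreeGroup.of z)⁻¹ := by
          rw [FreeGroup.of, FreeGroup.inv_mk]; rfl
        rw [e2, inv_eq hπ hπ']
        exact h z
    rw [List.length_cons]
    have h3 : ((L.length + 1 : ℕ) : ℝ) * e = e + L.length * e := by push_cast; ring
    rw [h3]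
    exact add_le_add h2 ih

end

theorem t_WDIST : S_WDIST := by
  intro κ G _ _ π π' e hπ hπ' h w
  have := list_le hπ hπ' h w.toWord
  rwa [FreeGroup.mk_toWord] at this

end Pool.Agent.H581R.FF.TWDIST
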