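import Mathlib
import Pool.Agent.H581R.FF.Stubs3
import Pool.Agent.H770R2.Kad.Kap

namespace Pool.Agent.H581R.FF.TWOT

open Pool.Agent.H667R2.FG (Ell permOp lam rho delta LG EltG tau)
open scoped ComplexConjugate

variable {G : Type} [Group G]

/-- the group algebra as a star subalgebra -/
noncomputable def gal (G : Type) [Group G] : StarSubalgebra ℂ (Op G) where
  carrier := (Submodule.span ℂ (Set.range (lam (G := G))) : Set (Op G))
  zero_mem' := Submodule.zero_mem _
  one_mem' := by
    rw [← Pool.Agent.H667R2.FG.lam_one]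
    exact Submodule.subset_span ⟨1, rfl⟩
  add_mem' := fun ha hb => Submodule.add_mem _ ha hb
  mul_mem' := by
    intro a b ha hb
    have h : a * b ∈ Submodule.span ℂ (Set.range (lam (G := G))) *
        Submodule.span ℂ (Set.range (lam (G := G))) := Submodule.mul_mem_mul ha hb
    rw [Submodule.span_mul_span] at h
    refine Submodule.span_mono ?_ h
    rintro _ ⟨_, ⟨g, rfl⟩, _, ⟨k, rfl⟩, rfl⟩
    exact ⟨g * k, Pool.Agent.H667R2.FG.lam_mul g k⟩
  algebraMap_mem' := by
    intro r
    rw [Algebra.algebraMap_eq_smul_one, ← Pool.Agent.H667R2.FG.lam_one]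
    exact Submodule.smul_mem _ _ (Submodule.subset_span ⟨1, rfl⟩)
  star_mem' := by
    intro a ha
    refine Submodule.span_induction ?_ ?_ ?_ ?_ ha
    · rintro _ ⟨g, rfl⟩
      rw [Pool.Agent.H667R2.FG.star_lam]
      exact Submodule.subset_span ⟨g⁻¹, rfl⟩
    · rw [star_zero]; exact Submodule.zero_mem _
    · intro x y _ _ hx hy
      rw [star_add]; exact Submodule.add_mem _ hx hy
    · intro c x _ hx
      rw [star_smul]; exact Submodule.smul_mem _ _ hx

/-- its norm closure -/
noncomputable def cal (G : Type) [Group G] : StarSubalgebra ℂ (Op G) := (gal G).topologicalClosure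

instance isClosed_cal : IsClosed ((cal G : StarSubalgebra ℂ (Op G)) : Set (Op G)) :=
  StarSubalgebra.isClosed_topologicalClosure _

theorem approx (T : Op G) (hT : T ∈ LG G) (n : ℕ) (ξ : Fin n → Ell G) (ε : ℝ) (hε : 0 < ε) :
    ∃ S ∈ Submodule.span ℂ (Set.range (lam (G := G))), ∀ k, ‖S (ξ k) - T (ξ k)‖ < ε := by
  have hcomm : ∀ y : Op G, (∀ a : cal G, y * (cal G).subtype a = (cal G).subtype a * y) →
      y * T = T * y := by
    intro y hy
    have h1 : y ∈ StarSubalgebra.centralizer ℂ (Set.range (lam (G := G))) := by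
      rw [Pool.Agent.H667R2.FG.TL2.mem_comm]
      intro g
      have h2 : lam g ∈ cal G :=
        (gal G).le_topologicalClosure (show lam g ∈ gal G from Submodule.subset_span ⟨g, rfl⟩)
      exact (hy ⟨lam g, h2⟩).symm
    exact ((Pool.Agent.H667R2.FG.TL2.mem_LG T).1 hT y h1).1
  obtain ⟨a, ha⟩ := H770R2.Kad.bicomm (cal G).subtype T hcomm n ξ (ε / 2) (by positivity)
  -- approximate `a` by an element of the group algebra
  set M : ℝ := ∑ k, ‖ξ k‖ + 1 with hM
  have hMpos : 0 < M := by positivity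
  have hmem : (a : Op G) ∈ closure ((gal G : StarSubalgebra ℂ (Op G)) : Set (Op G)) := by
    have h : (a : Op G) ∈ ((gal G).topologicalClosure : Set (Op G)) := a.2
    rwa [StarSubalgebra.topologicalClosure_coe] at h
  obtain ⟨S, hS, hdist⟩ := Metric.mem_closure_iff.mp hmem (ε / 2 / M) (by positivity)
  refine ⟨S, hS, fun k => ?_⟩
  have h1 : ‖S (ξ k) - (a : Op G) (ξ k)‖ ≤ ε / 2 := by
    rw [← sub_apply]
    refine (ContinuousLinearMap.le_opNorm _ _).trans ?_
    have h2 : ‖S - (a : Op G)‖ ≤ ε / 2 / M := by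
      rw [norm_sub_rev, ← dist_eq_norm]; exact hdist.le
    have h3 : ‖ξ k‖ ≤ M := by
      have := Finset.single_le_sum (f := fun k => ‖ξ k‖) (fun i _ => norm_nonneg _)
        (Finset.mem_univ k)
      linarith
    calc ‖S - (a : Op G)‖ * ‖ξ k‖ ≤ (ε / 2 / M) * M :=
          mul_le_mul h2 h3 (norm_nonneg _) (by positivity)
      _ = ε / 2 := by field_simp
  have h2 : ‖(a : Op G) (ξ k) - T (ξ k)‖ < ε / 2 := ha k
  calc ‖S (ξ k) - T (ξ k)‖ = ‖(S (ξ k) - (a : Op G) (ξ k)) + ((a : Op G) (ξ k) - T (ξ k))‖ := by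
        congr 1; abel
    _ ≤ ‖S (ξ k) - (a : Op G) (ξ k)‖ + ‖(a : Op G) (ξ k) - T (ξ k)‖ := norm_add_le _ _
    _ < ε := by linarith

/-- the set of operators commuting with `t` is weakly closed -/
theorem closed_comm (t : Op G) : IsClosed {A : Ell G →WOT[ℂ] Ell G |
    ∀ (x : Ell G) (y : StrongDual ℂ (Ell G)), y (t (A x)) = y (A (t x))} := by
  have : {A : Ell G →WOT[ℂ] Ell G |
      ∀ (x : Ell G) (y : StrongDual ℂ (Ell G)), y (t (A x)) = y (A (t x))} =
      ⋂ (x : Ell G) (y : StrongDual ℂ (Ell G)),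
        {A : Ell G →WOT[ℂ] Ell G | (y.comp t) (A x) = y (A (t x))} := by
    ext A; simp
  rw [this]
  refine isClosed_iInter fun x => isClosed_iInter fun y => ?_
  exact isClosed_eq (ContinuousLinearMapWOT.continuous_dual_apply x (y.comp t))
    (ContinuousLinearMapWOT.continuous_dual_apply (t x) y)

theorem t_WOT : S_WOT := by
  intro G _ T
  constructor
  · intro hT
    rw [mem_closure_iff_nhds]
    intro U hU
    obtain ⟨s, r, hr, hsub⟩ := (ContinuousLinearMapWOT.withSeminorms.mem_nhds_iff _ _).mp hU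
    -- vectors and functionals
    classical
    set B : ℝ := ∑ q ∈ s, ‖q.2‖ + 1 with hB
    have hBpos : 0 < B := by positivity
    let e := s.equivFin
    obtain ⟨S, hS, hSk⟩ := approx T hT s.card (fun k => ((e.symm k : s) : Ell G × StrongDual ℂ (Ell G)).1) (r / (2 * B))
      (by positivity)
    refine ⟨ContinuousLinearMapWOT.ofCLM S, ?_, ⟨S, hS, rfl⟩⟩
    apply hsub
    rw [Seminorm.mem_ball]
    refine Seminorm.finset_sup_apply_lt hr ?_
    intro q hq
    have h1 := hSk (e ⟨q, hq⟩)
    rw [Equiv.symm_apply_apply] at h1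
    have h2 : (ContinuousLinearMapWOT.seminormFamily (RingHom.id ℂ) (Ell G) (Ell G)) q
        (ContinuousLinearMapWOT.ofCLM S - ContinuousLinearMapWOT.ofCLM T) =
        ‖q.2 (S q.1 - T q.1)‖ := rfl
    rw [h2]
    have h3 : ‖q.2‖ ≤ B := by
      have := Finset.single_le_sum (f := fun q : Ell G × StrongDual ℂ (Ell G) => ‖q.2‖)
        (fun i _ => norm_nonneg _) hq
      linarith
    calc ‖q.2 (S q.1 - T q.1)‖ ≤ ‖q.2‖ * ‖S q.1 - T q.1‖ := ContinuousLinearMap.le_opNorm _ _
      _ ≤ B * (r / (2 * B)) := mul_le_mul h3 h1.le (norm_nonneg _) hBpos.le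
      _ = r / 2 := by field_simp
      _ < r := by linarith
  · intro hT
    rw [Pool.Agent.H667R2.FG.TL2.mem_LG]
    have key : ∀ t ∈ StarSubalgebra.centralizer ℂ (Set.range (lam (G := G))), t * T = T * t := by
      intro t ht
      have ht' := (Pool.Agent.H667R2.FG.TL2.mem_comm t).1 ht
      have hsub : (ContinuousLinearMapWOT.ofCLM '' (Submodule.span ℂ (Set.range (lam (G := G))) :
          Set (Op G)) : Set (Ell G →WOT[ℂ] Ell G)) ⊆ {A : Ell G →WOT[ℂ] Ell G |
          ∀ (x : Ell G) (y : StrongDual ℂ (Ell G)), y (t (A x)) = y (A (t x))} := by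
        rintro _ ⟨S, hS, rfl⟩ x y
        have hc : t * S = S * t := by
          refine Submodule.span_induction ?_ ?_ ?_ ?_ hS
          · rintro _ ⟨g, rfl⟩
            exact (ht' g).symm
          · rw [mul_zero, zero_mul]
          · intro a b _ _ ha hb
            rw [mul_add, add_mul, ha, hb]
          · intro c a _ ha
            rw [mul_smul_comm, smul_mul_assoc, ha]
        have := congrArg (fun Z : Op G => y (Z x)) hc
        exact this
      have hmem := closure_minimal hsub (closed_comm t) hT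
      ext1 x
      refine (SeparatingDual.eq_iff_forall_dual_eq (R := ℂ)).2 ?_
      intro y
      exact hmem x y
    intro t ht
    exact ⟨key t ht, key (star t) (star_mem ht)⟩

end Pool.Agent.H581R.FF.TWOT
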