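import Mathlib
import Pool.Agent.H581R.FF.TDER
import Pool.Agent.H581R.FF.TL1
import Pool.Agent.H581R.FF.TEV1
import Pool.Agent.H581R.FF.TEV2
import Pool.Agent.H581R.FF.TEVST
import Pool.Agent.H581R.FF.TBND
import Pool.Agent.H581R.FF.TFLOW
import Pool.Agent.H581R.FF.TTAY
import Pool.Agent.H581R.FF.TBACK
import Pool.Agent.H581R.FF.TFSTD
import Pool.Agent.H581R.FF.TFCYC
import Pool.Agent.H581R.FF.TFFIX
import Pool.Agent.H581R.FF.TTR
import Pool.Agent.H581R.FF.TSTAR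
import Pool.Agent.H581R.FF.TFORM
import Pool.Agent.H581R.FF.TFIX0
import Pool.Agent.H581R.FF.TAD
import Pool.Agent.H581R.FF.TL2
import Pool.Agent.H581R.FF.TFOU
import Pool.Agent.H581R.FF.TWDIST
import Pool.Agent.H581R.FF.TSLIM
import Pool.Agent.H581R.FF.TLIM
import Pool.Agent.H581R.FF.TINIT
import Pool.Agent.H581R.FF.TCONG
import Pool.Agent.H581R.FF.TSTAGE2
import Pool.Agent.H581R.FF.TSPAT
import Pool.Agent.H581R.FF.TISOb
import Pool.Agent.H581R.FF.TNSTEP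
import Pool.Agent.H581R.FF.TWOT
import Pool.Agent.H722.FG.CW

/-! Assembly: `L(F_m)` and `L(F_n)` are spatially isomorphic for all `m, n ≥ 2`. -/

namespace Pool.Agent.H581R.FF.Final

open Pool.Agent.H581R.FF
open Pool.Agent.H667R2.FG (Ell permOp lam rho delta LG EltG tau)

theorem nstep : S_NSTEP :=
  t_NSTEP TL1.t_L1 TEV1.t_EV1 TEV2.t_EV2 TEVST.t_EVST
    (TFLOW.t_FLOW TL1.t_L1 TEV1.t_EV1 TEVST.t_EVST) (TTAY.t_TAY TL1.t_L1 TEV1.t_EV1)
    (TBACK.t_BACK TL1.t_L1 TEV1.t_EV1) (TFSTD.t_FSTD TEV2.t_EV2) TFCYC.t_FCYC TFFIX.t_FFIX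
    TL2.t_L2

/-- the stage lemma -/
theorem stage2 : S_STAGE2 :=
  TSTAGE2.t_STAGE2 TDER.t_DER (t_BND TL1.t_L1) TTR.t_TR TSTAR.t_STAR TFORM.t_FORM
    TFIX0.t_FIX0 TAD.t_AD TL2.t_L2 Pool.Agent.H722.FG.t_CW TFOU.t_FOU nstep

theorem lim : S_LIM := TLIM.t_LIM TSLIM.t_SLIM TWDIST.t_WDIST

/-- spatial isomorphism of group von Neumann algebras -/
def Sp (G G' : Type) [Group G] [Group G'] : Prop :=
  ∃ W : Ell G ≃ₗᵢ[ℂ] Ell G', ∀ T : Op G, T ∈ LG G ↔ W.conjStarAlgEquiv T ∈ LG G'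

theorem sp_refl (G : Type) [Group G] : Sp G G :=
  ⟨LinearIsometryEquiv.refl ℂ (Ell G), fun _ => Iff.rfl⟩

theorem sp_symm {G G' : Type} [Group G] [Group G'] (h : Sp G G') : Sp G' G := by
  obtain ⟨W, hW⟩ := h
  refine ⟨W.symm, fun T => ?_⟩
  rw [hW]
  have e : W.conjStarAlgEquiv (W.symm.conjStarAlgEquiv T) = T := by
    ext1 x
    simp
  rw [e]

theorem sp_trans {G G' G'' : Type} [Group G] [Group G'] [Group G''] (h : Sp G G')
    (h' : Sp G' G'') : Sp G G'' := by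
  obtain ⟨W, hW⟩ := h
  obtain ⟨W', hW'⟩ := h'
  refine ⟨W.trans W', fun T => ?_⟩
  rw [hW, hW']
  rfl

theorem sp_cong {G G' : Type} [Group G] [Group G'] (e : G ≃* G') : Sp G G' := by
  refine ⟨TCONG.We e.toEquiv, ?_⟩
  set Φ := (TCONG.We e.toEquiv).conjStarAlgEquiv with hΦ
  have h0 : ∀ a : Op G, a ∈ Set.range (lam (G := G)) ↔ Φ a ∈ Set.range (lam (G := G')) := by
    intro a
    constructor
    · rintro ⟨g, rfl⟩
      exact ⟨e g, (TCONG.conj_lam e g).symm⟩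
    · rintro ⟨g', hg'⟩
      refine ⟨e.symm g', ?_⟩
      apply (EquivLike.injective Φ : Function.Injective (Φ : Op G → Op G'))
      rw [hΦ, TCONG.conj_lam, ← hΦ, ← hg']
      simp
  have h1 := fun a => TCONG.cent_iff Φ h0 a
  exact fun a => TCONG.cent_iff Φ (S := (StarSubalgebra.centralizer ℂ (Set.range (lam (G := G))) :
      Set (Op G))) (T := (StarSubalgebra.centralizer ℂ (Set.range (lam (G := G'))) :
      Set (Op G'))) h1 a

theorem sp_iso {G G' : Type} [Group G] [Group G'] (h : Sp G G') :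
    Nonempty (EltG G ≃⋆ₐ[ℂ] EltG G') := by
  obtain ⟨W, hW⟩ := h
  exact TISOb.iso_of_spat W hW

theorem countable_freeGroup (κ : Type) [Countable κ] : Countable (FreeGroup κ) := by
  have : Function.Surjective (FreeGroup.mk : List (κ × Bool) → FreeGroup κ) :=
    Quot.mk_surjective
  exact this.countable

theorem step (n : ℕ) (hn : 2 ≤ n) : Sp (FreeGroup (Fin n)) (FreeGroup (Fin (n + 1))) := by
  have : Countable (FreeGroup (Option (Fin n))) := countable_freeGroup _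
  obtain ⟨a, u, hau⟩ : ∃ a u : Fin n, a ≠ u := by
    refine ⟨⟨0, by omega⟩, ⟨1, by omega⟩, ?_⟩
    simp [Fin.ext_iff]
  obtain ⟨σ, hσ, hσc⟩ := lim (Fin n) (FreeGroup (Option (Fin n))) a a u
    (fun π h1 h2 => stage2 (Fin n) (FreeGroup (Option (Fin n))) a u hau π h1 h2)
    (TINIT.t_INIT (Option (Fin n)))
  have h1 : Sp (FreeGroup (Fin n)) (FreeGroup (Option (Fin n))) :=
    TSPAT.t_SPAT (Fin n) (FreeGroup (Option (Fin n))) σ hσ hσc
  exact sp_trans h1 (sp_cong (FreeGroup.freeGroupCongr (finSuccEquiv n).symm))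

theorem all (n : ℕ) (hn : 2 ≤ n) : Sp (FreeGroup (Fin 2)) (FreeGroup (Fin n)) := by
  induction n, hn using Nat.le_induction with
  | base => exact sp_refl _
  | succ k hk ih => exact sp_trans ih (step k hk)

/-- all free group factors are spatially isomorphic -/
theorem main (m n : ℕ) (hm : 2 ≤ m) (hn : 2 ≤ n) :
    Sp (FreeGroup (Fin m)) (FreeGroup (Fin n)) :=
  sp_trans (sp_symm (all m hm)) (all n hn)

end Pool.Agent.H581R.FF.Final
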