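import Mathlib
import Pool.Agent.H581R.FF.Final

/-! Transfer to an abstract Hilbert space with an orthonormal basis indexed by the group. -/

namespace Pool.Agent.H581R.FF.Abst

open Pool.Agent.H581R.FF
open Pool.Agent.H667R2.FG (Ell lam LG delta)

section
variable {H K : Type} [NormedAddCommGroup H] [InnerProductSpace ℂ H] [CompleteSpace H]
  [NormedAddCommGroup K] [InnerProductSpace ℂ K] [CompleteSpace K]

/-- closure in the weak operator topology -/
def wot (S : Set (H →L[ℂ] H)) : Set (H →L[ℂ] H) :=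
  ContinuousLinearMapWOT.ofCLM ⁻¹' closure (ContinuousLinearMapWOT.ofCLM '' S)

theorem wot_conj_le (W : H ≃ₗᵢ[ℂ] K) (S : Set (H →L[ℂ] H)) (T : H →L[ℂ] H) (hT : T ∈ wot S) :
    W.conjStarAlgEquiv T ∈ wot ((fun T => W.conjStarAlgEquiv T) '' S) := by
  let Φ : (H →WOT[ℂ] H) → (K →WOT[ℂ] K) :=
    fun A => ContinuousLinearMapWOT.ofCLM (W.conjStarAlgEquiv A.toCLM)
  have hc : Continuous Φ := by
    refine ContinuousLinearMapWOT.continuous_of_dual_apply_continuous fun x y => ?_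
    exact ContinuousLinearMapWOT.continuous_dual_apply (W.symm x)
      (y.comp (W.toContinuousLinearEquiv : H →L[ℂ] K))
  have h1 : Φ (ContinuousLinearMapWOT.ofCLM T) ∈
      closure (Φ '' (ContinuousLinearMapWOT.ofCLM '' S)) :=
    image_closure_subset_closure_image hc ⟨_, hT, rfl⟩
  have h2 : Φ '' (ContinuousLinearMapWOT.ofCLM '' S) =
      ContinuousLinearMapWOT.ofCLM '' ((fun T => W.conjStarAlgEquiv T) '' S) := by
    rw [Set.image_image, Set.image_image]
  rw [h2] at h1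
  exact h1

theorem symm_conj (W : H ≃ₗᵢ[ℂ] K) (T : H →L[ℂ] H) :
    W.symm.conjStarAlgEquiv (W.conjStarAlgEquiv T) = T := by
  ext1 x
  simp

theorem conj_symm (W : H ≃ₗᵢ[ℂ] K) (T : K →L[ℂ] K) :
    W.conjStarAlgEquiv (W.symm.conjStarAlgEquiv T) = T := by
  ext1 x
  simp

theorem wot_conj (W : H ≃ₗᵢ[ℂ] K) (S : Set (H →L[ℂ] H)) (T : H →L[ℂ] H) :
    T ∈ wot S ↔ W.conjStarAlgEquiv T ∈ wot ((fun T => W.conjStarAlgEquiv T) '' S) := by
  refine ⟨wot_conj_le W S T, fun h => ?_⟩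
  have h1 := wot_conj_le W.symm _ _ h
  rw [symm_conj, Set.image_image] at h1
  simp only [symm_conj, Set.image_id'] at h1
  exact h1

end

section
variable {Γ : Type} [Group Γ] {H : Type} [NormedAddCommGroup H] [InnerProductSpace ℂ H]
  [CompleteSpace H]

/-- the left translations of a Hilbert space with an orthonormal basis indexed by `Γ` -/
def tr (δ : HilbertBasis Γ ℂ H) : Set (H →L[ℂ] H) := {T | ∃ g, ∀ h, T (δ h) = δ (g * h)}

theorem repr_delta (δ : HilbertBasis Γ ℂ H) (g : Γ) : δ.repr (δ g) = (delta g : Ell Γ) := by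
  letI := Classical.decEq Γ
  rw [δ.repr_self]
  unfold delta
  rfl

theorem tr_iff (δ : HilbertBasis Γ ℂ H) (T : H →L[ℂ] H) :
    T ∈ tr δ ↔ δ.repr.conjStarAlgEquiv T ∈ Set.range (lam (G := Γ)) := by
  constructor
  · rintro ⟨g, hg⟩
    refine ⟨g, ?_⟩
    have h1 : T = δ.repr.symm.conjStarAlgEquiv (lam g : Ell Γ →L[ℂ] Ell Γ) := by
      refine ContinuousLinearMap.ext_on (s := Set.range δ) ?_ ?_
      · have := δ.dense_span
        rw [Submodule.dense_iff_topologicalClosure_eq_top]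
        exact this
      · rintro _ ⟨h, rfl⟩
        rw [hg, LinearIsometryEquiv.conjStarAlgEquiv_apply_apply]
        have e1 : δ.repr.symm.symm (δ h) = (delta h : Ell Γ) := repr_delta δ h
        rw [e1, Pool.Agent.H667R2.FG.lam_delta, ← repr_delta δ (g * h),
          LinearIsometryEquiv.symm_apply_apply]
    rw [h1]
    exact (conj_symm δ.repr _).symm
  · rintro ⟨g, hg⟩
    refine ⟨g, fun h => ?_⟩
    apply δ.repr.injective
    have h1 : δ.repr (T (δ h)) = (δ.repr.conjStarAlgEquiv T) (δ.repr (δ h)) := by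
      rw [LinearIsometryEquiv.conjStarAlgEquiv_apply_apply, LinearIsometryEquiv.symm_apply_apply]
    rw [h1, ← hg, repr_delta, repr_delta, Pool.Agent.H667R2.FG.lam_delta]

/-- the group von Neumann algebra on `H` -/
def LL (δ : HilbertBasis Γ ℂ H) : Set (H →L[ℂ] H) :=
  wot (Submodule.span ℂ (tr δ) : Set (H →L[ℂ] H))

theorem image_span (δ : HilbertBasis Γ ℂ H) :
    (fun T => δ.repr.conjStarAlgEquiv T) '' (Submodule.span ℂ (tr δ) : Set (H →L[ℂ] H)) =
      (Submodule.span ℂ (Set.range (lam (G := Γ))) : Set (Ell Γ →L[ℂ] Ell Γ)) := by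
  have h1 : (fun T => δ.repr.conjStarAlgEquiv T) '' (tr δ) = Set.range (lam (G := Γ)) := by
    ext S
    constructor
    · rintro ⟨T, hT, rfl⟩
      exact (tr_iff δ T).1 hT
    · intro hS
      refine ⟨δ.repr.symm.conjStarAlgEquiv S, (tr_iff δ _).2 ?_, conj_symm _ _⟩
      rw [conj_symm]
      exact hS
  have h2 := Submodule.map_span
    ((δ.repr.conjStarAlgEquiv : (H →L[ℂ] H) →⋆ₐ[ℂ] (Ell Γ →L[ℂ] Ell Γ)).toAlgHom.toLinearMap) (tr δ)
  have h3 := congrArg (fun M : Submodule ℂ (Ell Γ →L[ℂ] Ell Γ) => (M : Set (Ell Γ →L[ℂ] Ell Γ))) h2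
  have h4 : (⇑((δ.repr.conjStarAlgEquiv : (H →L[ℂ] H) →⋆ₐ[ℂ] (Ell Γ →L[ℂ] Ell Γ)).toAlgHom.toLinearMap)
    : (H →L[ℂ] H) → (Ell Γ →L[ℂ] Ell Γ)) = fun T => δ.repr.conjStarAlgEquiv T := rfl
  rw [Submodule.map_coe, h4, h1] at h3
  exact h3

theorem LL_iff (δ : HilbertBasis Γ ℂ H) (T : H →L[ℂ] H) :
    T ∈ LL δ ↔ δ.repr.conjStarAlgEquiv T ∈ LG Γ := by
  unfold LL
  rw [wot_conj δ.repr, image_span]
  exact (TWOT.t_WOT Γ _).symm

/-- the group von Neumann algebra on `H` as a von Neumann algebra -/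
noncomputable def VN (δ : HilbertBasis Γ ℂ H) : VonNeumannAlgebra H where
  toStarSubalgebra := (LG Γ).toStarSubalgebra.comap
    (δ.repr.conjStarAlgEquiv : (H →L[ℂ] H) →⋆ₐ[ℂ] (Ell Γ →L[ℂ] Ell Γ))
  centralizer_centralizer' := by
    let Φ := δ.repr.conjStarAlgEquiv
    have hs : ∀ S, Φ (δ.repr.symm.conjStarAlgEquiv S) = S := conj_symm δ.repr
    have key : ∀ (A : Set (H →L[ℂ] H)) (A' : Set (Ell Γ →L[ℂ] Ell Γ)), (∀ x, x ∈ A ↔ Φ x ∈ A') →
        ∀ x, x ∈ Set.centralizer A ↔ Φ x ∈ Set.centralizer A' := by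
      intro A A' h x
      rw [Set.mem_centralizer_iff, Set.mem_centralizer_iff]
      constructor
      · intro hx m hm
        have h1 : δ.repr.symm.conjStarAlgEquiv m ∈ A := (h _).2 (by rw [hs]; exact hm)
        have h2 := congrArg Φ (hx _ h1)
        rw [map_mul, map_mul, hs] at h2
        exact h2
      · intro hx m hm
        have h1 := hx (Φ m) ((h m).1 hm)
        rw [← map_mul, ← map_mul] at h1
        exact EquivLike.injective Φ h1
    ext x
    have h1 := key _ _ (key (((LG Γ).toStarSubalgebra.comap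
          (δ.repr.conjStarAlgEquiv : (H →L[ℂ] H) →⋆ₐ[ℂ] (Ell Γ →L[ℂ] Ell Γ)) :
            StarSubalgebra ℂ (H →L[ℂ] H)) : Set (H →L[ℂ] H))
        ((LG Γ).toStarSubalgebra : Set (Ell Γ →L[ℂ] Ell Γ)) (fun _ => Iff.rfl)) x
    refine h1.trans ?_
    have h2 := (LG Γ).centralizer_centralizer'
    exact (Set.ext_iff.1 h2 (Φ x))

theorem mem_VN (δ : HilbertBasis Γ ℂ H) (T : H →L[ℂ] H) :
    T ∈ VN δ ↔ δ.repr.conjStarAlgEquiv T ∈ LG Γ := Iff.rfl

theorem VN_coe (δ : HilbertBasis Γ ℂ H) : (VN δ : Set (H →L[ℂ] H)) = LL δ := by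
  ext T
  exact (LL_iff δ T).symm

end

section
variable {Γ Γ' : Type} [Group Γ] [Group Γ']
  {H K : Type} [NormedAddCommGroup H] [InnerProductSpace ℂ H] [CompleteSpace H]
  [NormedAddCommGroup K] [InnerProductSpace ℂ K] [CompleteSpace K]

theorem transfer (h : Final.Sp Γ Γ') (δ : HilbertBasis Γ ℂ H) (δ' : HilbertBasis Γ' ℂ K) :
    ∃ W : H ≃ₗᵢ[ℂ] K, ∀ T : H →L[ℂ] H, T ∈ LL δ ↔ W.conjStarAlgEquiv T ∈ LL δ' := by
  obtain ⟨W, hW⟩ := h
  refine ⟨(δ.repr.trans W).trans δ'.repr.symm, fun T => ?_⟩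
  rw [LL_iff, LL_iff, hW]
  have e : δ'.repr.conjStarAlgEquiv
      (((δ.repr.trans W).trans δ'.repr.symm).conjStarAlgEquiv T) =
      W.conjStarAlgEquiv (δ.repr.conjStarAlgEquiv T) := by
    ext1 x
    simp
  rw [e]

/-- the star algebra isomorphism given by a unitary -/
theorem star_iso (M : VonNeumannAlgebra H) (N : VonNeumannAlgebra K) (W : H ≃ₗᵢ[ℂ] K)
    (h : ∀ T : H →L[ℂ] H, T ∈ M ↔ W.conjStarAlgEquiv T ∈ N) :
    Nonempty (M.toStarSubalgebra ≃⋆ₐ[ℂ] N.toStarSubalgebra) :=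
  ⟨{ toFun := fun x => ⟨W.conjStarAlgEquiv x.1, (h _).1 x.2⟩
     invFun := fun y => ⟨W.conjStarAlgEquiv.symm y.1, (h _).2 (by
       rw [StarAlgEquiv.apply_symm_apply]; exact y.2)⟩
     left_inv := fun x => Subtype.ext (W.conjStarAlgEquiv.symm_apply_apply _)
     right_inv := fun y => Subtype.ext (W.conjStarAlgEquiv.apply_symm_apply _)
     map_mul' := fun _ _ => Subtype.ext (map_mul W.conjStarAlgEquiv _ _)
     map_add' := fun _ _ => Subtype.ext (map_add W.conjStarAlgEquiv _ _)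
     map_smul' := fun _ _ => Subtype.ext (map_smul W.conjStarAlgEquiv _ _)
     map_star' := fun _ => Subtype.ext (map_star W.conjStarAlgEquiv _) }⟩

end

end Pool.Agent.H581R.FF.Abst
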