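import Mathlib
import Pool.Agent.H581R.FF.Stubs

/-! Task STAR: the derivation commutes with the involution. -/

namespace Pool.Agent.H581R.FF.TSTAR

open scoped ComplexConjugate

variable {κ : Type}

/-- the involution as an additive map -/
noncomputable def stH (κ : Type) : GR κ →+ GR κ where
  toFun := st
  map_zero' := by simp [st]
  map_add' f g := by
    unfold st
    rw [MonoidAlgebra.coeff_add, Finsupp.sum_add_index']
    · intro w; simp
    · intro w s t; rw [map_add, MonoidAlgebra.single_add]

theorem stH_apply (f : GR κ) : stH κ f = st f := rfl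

theorem st_single (w : FreeGroup κ) (s : ℂ) :
    st (MonoidAlgebra.single w s) = MonoidAlgebra.single w⁻¹ (conj s) := by
  unfold st
  rw [MonoidAlgebra.coeff_single, Finsupp.sum_single_index]
  simp

theorem st_zero : st (0 : GR κ) = 0 := by rw [← stH_apply, map_zero]

theorem st_smul (r : ℂ) (f : GR κ) : st (r • f) = conj r • st f := by
  induction f using MonoidAlgebra.induction_linear with
  | zero => rw [smul_zero, st_zero, smul_zero]
  | add x y hx hy =>
    rw [smul_add, ← stH_apply, map_add, stH_apply, stH_apply, hx, hy, ← stH_apply (x + y), map_add,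
      stH_apply, stH_apply, smul_add]
  | single m s =>
    rw [MonoidAlgebra.smul_single, st_single, st_single, MonoidAlgebra.smul_single]
    simp

theorem bs_mul (w w' : FreeGroup κ) : bs (w * w') = bs w * bs w' := by
  simp [bs, MonoidAlgebra.single_mul_single]

theorem bs_one : bs (1 : FreeGroup κ) = 1 := rfl

theorem bs_mul_inv (w : FreeGroup κ) : bs w * bs w⁻¹ = 1 := by
  rw [← bs_mul, mul_inv_cancel, bs_one]

theorem bs_inv_mul (w : FreeGroup κ) : bs w⁻¹ * bs w = 1 := by
  rw [← bs_mul, inv_mul_cancel, bs_one]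

theorem st_bs (w : FreeGroup κ) : st (bs w) = bs w⁻¹ := by
  rw [bs, st_single]; simp

/-- the involution is multiplicative (reversing the order) -/
theorem st_mul (f g : GR κ) : st (f * g) = st g * st f := by
  induction f using MonoidAlgebra.induction_linear with
  | zero => rw [zero_mul, st_zero, mul_zero]
  | add x y hx hy =>
    rw [add_mul, ← stH_apply, map_add, stH_apply, stH_apply, hx, hy, ← stH_apply (x + y), map_add,
      stH_apply, stH_apply, mul_add]
  | single m s =>
    induction g using MonoidAlgebra.induction_linear with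
    | zero => rw [mul_zero, st_zero, zero_mul]
    | add x y hx hy =>
      rw [mul_add, ← stH_apply, map_add, stH_apply, stH_apply, hx, hy, ← stH_apply (x + y), map_add,
        stH_apply, stH_apply, add_mul]
    | single m' s' =>
      rw [MonoidAlgebra.single_mul_single, st_single, st_single, st_single,
        MonoidAlgebra.single_mul_single, mul_inv_rev, map_mul, mul_comm (conj s')]

theorem st_st (f : GR κ) : st (st f) = f := by
  induction f using MonoidAlgebra.induction_linear with
  | zero => rw [st_zero, st_zero]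
  | add x y hx hy =>
    rw [← stH_apply (x + y), map_add, ← stH_apply (_ + _), map_add, stH_apply, stH_apply, stH_apply,
      stH_apply, hx, hy]
  | single m s => rw [st_single, st_single]; simp

theorem D_one {D : GR κ →ₗ[ℂ] GR κ} (h : Leib D) : D 1 = 0 := by
  have h1 := h 1 1
  rw [mul_one, mul_one, one_mul] at h1
  exact left_eq_add.mp h1

theorem D_inv {D : GR κ →ₗ[ℂ] GR κ} (h : Leib D) (w : FreeGroup κ) :
    D (bs w⁻¹) = -(bs w⁻¹ * D (bs w) * bs w⁻¹) := by
  have h1 := h (bs w) (bs w⁻¹)
  rw [bs_mul_inv, D_one h] at h1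
  have h2 : bs w⁻¹ * (D (bs w) * bs w⁻¹ + bs w * D (bs w⁻¹)) = 0 := by
    rw [← h1, mul_zero]
  rw [mul_add, ← mul_assoc, ← mul_assoc, bs_inv_mul, one_mul] at h2
  exact eq_neg_of_add_eq_zero_right h2

theorem kk_star {ι : Type} (k : ℤ →₀ ℂ) (ks : ∀ m, k (-m) = conj (k m)) :
    st (kk k : GR (Option ι)) = kk k := by
  unfold kk Finsupp.sum
  rw [← stH_apply, map_sum]
  simp only [stH_apply, st_single]
  refine Finset.sum_nbij' (fun m => -m) (fun m => -m) ?_ ?_ ?_ ?_ ?_
  · intro m hm
    rw [Finsupp.mem_support_iff] at hm ⊢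
    rw [ks]
    simpa using hm
  · intro m hm
    rw [Finsupp.mem_support_iff] at hm ⊢
    rw [ks]
    simpa using hm
  · intro m _; simp
  · intro m _; simp
  · intro m _
    rw [ks, zpow_neg]

theorem ad_star {ι : Type} (c : FreeGroup ι →₀ ℝ) (k : ℤ →₀ ℂ) (ks : ∀ m, k (-m) = conj (k m)) :
    st (Ad c k) = Ad c k := by
  unfold Ad
  rw [← stH_apply, map_finsuppSum]
  refine Finsupp.sum_congr fun β _ => ?_
  rw [stH_apply, st_smul, st_mul, st_mul, kk_star k ks, st_bs, st_bs, inv_inv, Complex.conj_ofReal,
    mul_assoc]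

theorem key {ι : Type} (u : ι) (c : FreeGroup ι →₀ ℝ) (k : ℤ →₀ ℂ)
    (D : GR (Option ι) →ₗ[ℂ] GR (Option ι)) (hD : DU u c k D) (w : FreeGroup (Option ι)) :
    D (bs w⁻¹) = st (D (bs w)) := by
  induction w using FreeGroup.induction_on with
  | C1 => rw [inv_one, bs_one, D_one hD.leib, st_zero]
  | of z =>
    show D (bs (FreeGroup.of z)⁻¹) = st (D (bs (FreeGroup.of z)))
    rw [D_inv hD.leib]
    by_cases hz : z = some u
    · subst hz
      rw [hD.du, st_smul, st_mul, ad_star c k hD.ks, st_bs, Complex.conj_I, mul_smul_comm,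
        smul_mul_assoc, ← mul_assoc, bs_inv_mul, one_mul, neg_smul]
    · rw [hD.dz z hz, mul_zero, zero_mul, neg_zero, st_zero]
  | inv_of z ih =>
    have ih' : D (bs (FreeGroup.of z)⁻¹) = st (D (bs (FreeGroup.of z))) := ih
    show D (bs (FreeGroup.of z)⁻¹⁻¹) = st (D (bs (FreeGroup.of z)⁻¹))
    rw [ih', st_st, inv_inv]
  | mul x y hx hy =>
    rw [mul_inv_rev, bs_mul, hD.leib, hx, hy, bs_mul, hD.leib, ← stH_apply (_ + _), map_add,
      stH_apply, stH_apply, st_mul, st_mul, st_bs, st_bs, add_comm]

/-- the derivation commutes with the involution -/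
theorem t_STAR : S_STAR := by
  intro ι u c k D hD
  refine ⟨ad_star c k hD.ks, fun x => ?_⟩
  induction x using MonoidAlgebra.induction_linear with
  | zero => rw [st_zero, map_zero, st_zero]
  | add x y hx hy =>
    rw [← stH_apply (x + y), map_add, map_add, stH_apply, stH_apply, hx, hy, map_add,
      ← stH_apply (_ + _), map_add, stH_apply, stH_apply]
  | single m s =>
    have h1 : (MonoidAlgebra.single m s : GR (Option ι)) = s • bs m := by
      rw [bs, MonoidAlgebra.smul_single]; simp
    rw [h1, st_smul, st_bs, map_smul, map_smul, st_smul, key u c k D hD]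

end Pool.Agent.H581R.FF.TSTAR
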