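import Mathlib
import Pool.Agent.H581R.FF.Stubs

/-! The main theorem from the stage lemma, the limit construction and the isomorphism lemma. -/

namespace Pool.Agent.H581R.FF.TMAIN

open Pool.Agent.H581R.FF
open Pool.Agent.H667R2.FG (Ell permOp lam rho delta LG EltG tau)

theorem countable_freeGroup (κ : Type) [Countable κ] : Countable (FreeGroup κ) := by
  have : Function.Surjective (FreeGroup.mk : List (κ × Bool) → FreeGroup κ) :=
    Quot.mk_surjective
  exact this.countable

theorem t_MAIN (hstage : S_STAGE) (hlim : S_LIM) (hinit : S_INIT) (hiso : S_ISO)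
    (hcong : S_CONG) : S_MAIN := by
  intro n hn
  have : Countable (FreeGroup (Option (Fin n))) := countable_freeGroup _
  obtain ⟨a, b, u, hab, hau, hbu⟩ : ∃ a b u : Fin n, a ≠ b ∧ a ≠ u ∧ b ≠ u := by
    refine ⟨⟨0, by omega⟩, ⟨1, by omega⟩, ⟨2, by omega⟩, ?_, ?_, ?_⟩ <;>
      simp [Fin.ext_iff]
  obtain ⟨σ, hσ, hσc⟩ := hlim (Fin n) (FreeGroup (Option (Fin n))) a b u
    (fun π h1 h2 => hstage (Fin n) (FreeGroup (Option (Fin n))) a b u hab hau hbu π h1 h2)
    (hinit (Option (Fin n)))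
  obtain ⟨e1⟩ := hiso (Fin n) (FreeGroup (Option (Fin n))) σ hσ hσc
  obtain ⟨e2⟩ := hcong (FreeGroup (Option (Fin n))) (FreeGroup (Fin (n + 1)))
    (FreeGroup.freeGroupCongr (finSuccEquiv n).symm)
  exact ⟨e1.trans e2⟩

end Pool.Agent.H581R.FF.TMAIN
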