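import Mathlib
import Pool.Agent.H581R.FF.Stubs

/-! NSTEP: the flow for time one in `N` steps. -/

namespace Pool.Agent.H581R.FF

open Pool.Agent.H667R2.FG (Ell permOp lam rho delta LG EltG tau)
open scoped ComplexConjugate

namespace NstepAux

/-- `‖exp y - 1 - y‖ ≤ ‖y‖²` for `‖y‖ ≤ 1` -/
lemma exp_bound {A : Type} [NormedRing A] [NormedAlgebra ℂ A] [CompleteSpace A] (y : A)
    (hy : ‖y‖ ≤ 1) : ‖NormedSpace.exp y - 1 - y‖ ≤ ‖y‖ ^ 2 := by
  have h1 : HasSum (fun n : ℕ => ((n.factorial : ℂ)⁻¹) • y ^ n) (NormedSpace.exp y) :=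
    NormedSpace.exp_series_hasSum_exp' (𝕂 := ℂ) y
  have h2 := (hasSum_nat_add_iff' 2).2 h1
  have h3 : HasSum (fun n : ℕ => ((n.factorial : ℝ)⁻¹) • ‖y‖ ^ n) (NormedSpace.exp ‖y‖) :=
    NormedSpace.exp_series_hasSum_exp' (𝕂 := ℝ) ‖y‖
  have h4 := (hasSum_nat_add_iff' 2).2 h3
  rw [← Real.exp_eq_exp_ℝ] at h4
  simp only [Finset.sum_range_succ, Finset.sum_range_zero, Nat.factorial_zero, Nat.cast_one,
    inv_one, pow_zero, one_smul, zero_add, Nat.factorial_one, pow_one] at h2 h4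
  have h5 : ‖NormedSpace.exp y - (1 + y)‖ ≤ Real.exp ‖y‖ - (1 + ‖y‖) := by
    rw [← h2.tsum_eq]
    refine tsum_of_norm_bounded h4 (fun n => ?_)
    rw [norm_smul, smul_eq_mul]
    refine mul_le_mul (le_of_eq ?_) (norm_pow_le' y (by omega)) (norm_nonneg _) (by positivity)
    rw [norm_inv, Complex.norm_natCast]
  have h6 : ‖Real.exp ‖y‖ - 1 - ‖y‖‖ ≤ ‖(‖y‖)‖ ^ 2 :=
    Real.norm_exp_sub_one_sub_id_le (by rwa [norm_norm])
  rw [norm_norm] at h6
  have h7 := (le_abs_self _).trans h6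
  rw [sub_sub]
  refine h5.trans ?_
  linarith

lemma tele {H : Type} [SeminormedAddCommGroup H] (a : ℕ → H) (B : ℝ) (N : ℕ)
    (h : ∀ j < N, ‖a (j + 1) - a j‖ ≤ B) : ‖a N - a 0‖ ≤ N * B := by
  induction N with
  | zero => simp
  | succ N ih =>
    have h1 := ih (fun j hj => h j (by omega))
    have h2 := h N (by omega)
    have e : a (N + 1) - a 0 = (a (N + 1) - a N) + (a N - a 0) := by abel
    rw [e]
    refine (norm_add_le _ _).trans ?_
    push_cast
    linarith

lemma ev_bs {κ G : Type} [Group G] (π : FreeGroup κ →* unitary (Op G)) (w : FreeGroup κ) :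
    ev π (bs w) = (π w : Op G) := by
  unfold ev bs
  rw [MonoidAlgebra.lift_single, one_smul]
  rfl

end NstepAux

open NstepAux in
theorem t_NSTEP (_h1 : S_L1) (_h2 : S_EV1) (h3 : S_EV2) (h4 : S_EVST) (h5 : S_FLOW) (h6 : S_TAY)
    (h7 : S_BACK) (h8 : S_FSTD) (h9 : S_FCYC) (h10 : S_FFIX) (h11 : S_L2) : S_NSTEP := by
  intro κ _ D hD K hK hB k0 E g u hg hk0 hst η hη G _ π hS hC
  obtain ⟨Cu, hCu0, hCu⟩ := h6 κ D hD K hK hB (bs u)
  obtain ⟨Cg, hCg0, hCg⟩ := h6 κ D hD K hK hB (bs g)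
  have hXs : ev π k0 ∈ selfAdjoint (Op G) := by
    rw [selfAdjoint.mem_iff, ← (h4 κ G π k0 k0).1, hst]
  have hXr : ∀ r : ℝ, (r : ℂ) • ev π k0 ∈ selfAdjoint (Op G) := by
    intro r
    rw [selfAdjoint.mem_iff] at hXs ⊢
    rw [star_smul, hXs, Complex.star_def, Complex.conj_ofReal]
  -- choice of N
  obtain ⟨N, hN⟩ := exists_nat_gt (max (max 1 (2 * K)) (max ‖ev π k0‖
    (max (Cu / η) ((Cg + ‖ev π k0‖ ^ 2) / η))))
  have hN1 : (1 : ℝ) < N := lt_of_le_of_lt ((le_max_left _ _).trans (le_max_left _ _)) hN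
  have hN2 : 2 * K < N := lt_of_le_of_lt ((le_max_right _ _).trans (le_max_left _ _)) hN
  have hN3 : ‖ev π k0‖ < N := lt_of_le_of_lt ((le_max_left _ _).trans (le_max_right _ _)) hN
  have hN4 : Cu / η < N := lt_of_le_of_lt
    ((le_max_left _ _).trans ((le_max_right _ _).trans (le_max_right _ _))) hN
  have hN5 : (Cg + ‖ev π k0‖ ^ 2) / η < N := lt_of_le_of_lt
    ((le_max_right _ _).trans ((le_max_right _ _).trans (le_max_right _ _))) hN
  have hN0 : (0 : ℝ) < N := by linarith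
  set t : ℝ := 1 / N with ht
  have ht0 : 0 < t := by positivity
  have hNt : (N : ℝ) * t = 1 := by rw [ht]; field_simp
  have htK : |t| * K < 1 / 2 := by
    rw [abs_of_pos ht0, ht, one_div, inv_mul_eq_div, div_lt_iff₀ hN0]
    linarith
  -- one step
  have step : ∀ s : {p : FreeGroup κ →* unitary (Op G) // Std p ∧ Cyc p},
      ∃ s' : {p : FreeGroup κ →* unitary (Op G) // Std p ∧ Cyc p}, Flow D t s.1 s'.1 := by
    rintro ⟨p, hp1, hp2⟩
    obtain ⟨p', hp'⟩ := h5 κ D hD K hK hB G p t (by linarith)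
    refine ⟨⟨p', h8 κ D hD G p p' t hp' hp1, ?_⟩, hp'⟩
    exact h9 κ D G p p' (-t) (h7 κ D K hK hB G p p' t htK hp') hp2
  choose F hF using step
  set s : ℕ → {p : FreeGroup κ →* unitary (Op G) // Std p ∧ Cyc p} :=
    fun n => F^[n] ⟨π, hS, hC⟩ with hs
  have hs0 : (s 0).1 = π := rfl
  have hsF : ∀ n, Flow D t (s n).1 (s (n + 1)).1 := by
    intro n
    have e : s (n + 1) = F (s n) := by
      simp only [hs, Function.iterate_succ_apply']
    rw [e]
    exact hF (s n)
  have hfix : ∀ n, ∀ w, D (bs w) = 0 → (s n).1 w = π w := by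
    intro n
    induction n with
    | zero => intro w _; rfl
    | succ n ih =>
      intro w hw
      rw [h10 κ D G _ _ t (hsF n) w hw, ih w hw]
  have hXn : ∀ n, ev (s n).1 k0 = ev π k0 := by
    intro n
    induction n with
    | zero => rfl
    | succ n ih =>
      have h12 := hsF n k0
      have h13 : HasSum (fun m : ℕ => ((t : ℂ) ^ m / (m.factorial : ℂ)) • ev (s n).1 (D^[m] k0))
          (ev (s n).1 k0) := by
        have h14 := hasSum_single (f := fun m : ℕ =>
          ((t : ℂ) ^ m / (m.factorial : ℂ)) • ev (s n).1 (D^[m] k0)) 0 (by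
            intro m hm
            obtain ⟨m', rfl⟩ := Nat.exists_eq_succ_of_ne_zero hm
            rw [Function.iterate_succ_apply, hk0]
            have : D^[m'] 0 = 0 := by
              rw [← Module.End.pow_apply]
              exact map_zero _
            rw [this, map_zero, smul_zero])
        simpa using h14
      rw [← ih]
      exact h12.unique h13
  -- Taylor steps
  have hδ : ‖(delta 1 : Ell G)‖ = 1 := Pool.Agent.H667R2.FG.TL2.norm_delta 1
  have app : ∀ T : Op G, ‖T (delta 1)‖ ≤ ‖T‖ := by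
    intro T
    have := T.le_opNorm (delta 1)
    rwa [hδ, mul_one] at this
  have hstepu : ∀ j, ‖((s (j + 1)).1 u : Op G) (delta 1) - ((s j).1 u : Op G) (delta 1)‖ ≤
      t * l2 (D (bs u)) + Cu * t ^ 2 := by
    intro j
    have h12 := hCu G (s j).1 (s (j + 1)).1 t htK.le (hsF j)
    rw [ev_bs, ev_bs] at h12
    have h13 := (app _).trans h12
    have h14 : ‖((t : ℂ) • ev (s j).1 (D (bs u))) (delta 1)‖ = t * l2 (D (bs u)) := by
      rw [_root_.smul_apply, norm_smul, (h3 κ G (s j).1 (s j).2.1 _).2, Complex.norm_real,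
        Real.norm_of_nonneg ht0.le]
    have e : ((s (j + 1)).1 u : Op G) (delta 1) - ((s j).1 u : Op G) (delta 1) =
        (((s (j + 1)).1 u : Op G) - ((s j).1 u : Op G) - (t : ℂ) • ev (s j).1 (D (bs u))) (delta 1) +
          ((t : ℂ) • ev (s j).1 (D (bs u))) (delta 1) := by
      rw [_root_.sub_apply, _root_.sub_apply]; abel
    rw [e]
    refine (norm_add_le _ _).trans ?_
    rw [h14]
    linarith
  have hu := tele (fun j => ((s j).1 u : Op G) (delta 1)) _ N (fun j _ => hstepu j)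
  have hCuN : Cu * t ≤ η := by
    rw [ht, mul_one_div, div_le_iff₀ hN0]
    rw [div_lt_iff₀ hη] at hN4
    linarith
  -- the one-parameter group
  set V : ℝ → unitary (Op G) := fun r => selfAdjoint.expUnitary ⟨(r : ℂ) • ev π k0, hXr r⟩ with hV
  have hVadd : ∀ r r' : ℝ, V (r + r') = V r * V r' := by
    intro r r'
    simp only [hV]
    have hc : Commute ((r : ℂ) • ev π k0) ((r' : ℂ) • ev π k0) :=
      ((Commute.refl (ev π k0)).smul_left (r : ℂ)).smul_right (r' : ℂ)
    have h12 := Commute.expUnitary_add (a := (⟨(r : ℂ) • ev π k0, hXr r⟩ : selfAdjoint (Op G)))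
      (b := ⟨(r' : ℂ) • ev π k0, hXr r'⟩) hc
    rw [← h12]
    congr 1
    apply Subtype.ext
    show ((r + r' : ℝ) : ℂ) • ev π k0 = (r : ℂ) • ev π k0 + (r' : ℂ) • ev π k0
    rw [← add_smul, Complex.ofReal_add]
  have hV0 : V 0 = 1 := by
    simp only [hV]
    rw [← selfAdjoint.expUnitary_zero]
    congr 1
    apply Subtype.ext
    show ((0 : ℝ) : ℂ) • ev π k0 = 0
    rw [Complex.ofReal_zero, zero_smul]
  have hV1 : (V 1 : Op G) = NormedSpace.exp (Complex.I • ev π k0) := by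
    simp only [hV, selfAdjoint.expUnitary_coe, Complex.ofReal_one, one_smul]
  have hVt : ‖(V t : Op G) - 1 - (Complex.I * t) • ev π k0‖ ≤ ‖ev π k0‖ ^ 2 * t ^ 2 := by
    have e : (V t : Op G) = NormedSpace.exp ((Complex.I * t) • ev π k0) := by
      simp only [hV, selfAdjoint.expUnitary_coe]
      rw [mul_smul]
    rw [e]
    have hn : ‖(Complex.I * t) • ev π k0‖ = t * ‖ev π k0‖ := by
      rw [norm_smul, norm_mul, Complex.norm_I, one_mul, Complex.norm_real,
        Real.norm_of_nonneg ht0.le]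
    have h12 := exp_bound ((Complex.I * t) • ev π k0) (by
      rw [hn, ht, one_div, inv_mul_eq_div, div_le_one hN0]
      exact hN3.le)
    rw [hn] at h12
    refine h12.trans (le_of_eq ?_)
    ring
  have hstepg : ∀ j < N, ‖((V (((N : ℝ) - (j + 1 : ℕ)) * t) : Op G) * ((s (j + 1)).1 g : Op G)) (delta 1) -
      ((V (((N : ℝ) - j) * t) : Op G) * ((s j).1 g : Op G)) (delta 1)‖ ≤
      t * l2 E + (Cg + ‖ev π k0‖ ^ 2) * t ^ 2 := by
    intro j _
    have e1 : V (((N : ℝ) - j) * t) = V (((N : ℝ) - (j + 1 : ℕ)) * t) * V t := by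
      rw [← hVadd]
      congr 1
      push_cast
      ring
    rw [e1]
    have e2 : ((V (((N : ℝ) - (j + 1 : ℕ)) * t) : Op G) * ((s (j + 1)).1 g : Op G)) (delta 1) -
        ((((V (((N : ℝ) - (j + 1 : ℕ)) * t) * V t : unitary (Op G))) : Op G) * ((s j).1 g : Op G)) (delta 1) =
        (V (((N : ℝ) - (j + 1 : ℕ)) * t) : Op G) ((((s (j + 1)).1 g : Op G) -
          (V t : Op G) * ((s j).1 g : Op G)) (delta 1)) := by
      rw [show ((V (((N : ℝ) - (j + 1 : ℕ)) * t) * V t : unitary (Op G)) : Op G) =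
        (V (((N : ℝ) - (j + 1 : ℕ)) * t) : Op G) * (V t : Op G) from rfl, _root_.sub_apply, map_sub]
      rfl
    rw [e2, ContinuousLinearMap.norm_map_of_mem_unitary (V (((N : ℝ) - (j + 1 : ℕ)) * t)).2]
    have h12 := hCg G (s j).1 (s (j + 1)).1 t htK.le (hsF j)
    rw [ev_bs, ev_bs, hg, map_smul, map_mul, map_add, hXn j, ev_bs] at h12
    have h13 : ‖(ev (s j).1 E * ((s j).1 g : Op G)) (delta 1)‖ = l2 E := by
      have := (h3 κ G (s j).1 (s j).2.1 (E * bs g)).2
      rw [map_mul, ev_bs, (h11 κ E g 1).1] at this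
      exact this
    have e3 : ((s (j + 1)).1 g : Op G) - (V t : Op G) * ((s j).1 g : Op G) =
        (((s (j + 1)).1 g : Op G) - ((s j).1 g : Op G) -
          (t : ℂ) • (Complex.I • ((ev π k0 + ev (s j).1 E) * ((s j).1 g : Op G)))) +
        ((Complex.I * t) • (ev (s j).1 E * ((s j).1 g : Op G))) -
        ((V t : Op G) - 1 - (Complex.I * t) • ev π k0) * ((s j).1 g : Op G) := by
      rw [sub_mul, sub_mul, one_mul, smul_smul, mul_comm (t : ℂ) Complex.I, add_mul, smul_add,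
        smul_mul_assoc]
      abel
    rw [e3, _root_.sub_apply, _root_.add_apply]
    have h14 : ‖((Complex.I * t) • (ev (s j).1 E * ((s j).1 g : Op G))) (delta 1)‖ = t * l2 E := by
      rw [_root_.smul_apply, norm_smul, h13, norm_mul, Complex.norm_I, one_mul,
        Complex.norm_real, Real.norm_of_nonneg ht0.le]
    have h15 : ‖(((V t : Op G) - 1 - (Complex.I * t) • ev π k0) * ((s j).1 g : Op G)) (delta 1)‖ ≤
        ‖ev π k0‖ ^ 2 * t ^ 2 := by
      have h16 := ((V t : Op G) - 1 - (Complex.I * t) • ev π k0).le_opNorm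
        (((s j).1 g : Op G) (delta 1))
      rw [ContinuousLinearMap.norm_map_of_mem_unitary ((s j).1 g).2, hδ, mul_one] at h16
      exact h16.trans hVt
    refine (norm_sub_le _ _).trans ?_
    refine (add_le_add (norm_add_le _ _) le_rfl).trans ?_
    rw [h14]
    have h17 := (app _).trans h12
    linarith
  have hgN := tele (fun j => ((V (((N : ℝ) - (j : ℕ)) * t) : Op G) * ((s j).1 g : Op G)) (delta 1))
    _ N hstepg
  have hCgN : (Cg + ‖ev π k0‖ ^ 2) * t ≤ η := by
    rw [ht, mul_one_div, div_le_iff₀ hN0]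
    rw [div_lt_iff₀ hη] at hN5
    linarith
  refine ⟨(s N).1, (s N).2.1, (s N).2.2, hfix N, ?_, ?_⟩
  · rw [_root_.sub_apply]
    refine hu.trans ?_
    have : (N : ℝ) * (t * l2 (D (bs u)) + Cu * t ^ 2) =
        (N * t) * l2 (D (bs u)) + (N * t) * (Cu * t) := by ring
    rw [this, hNt]
    linarith
  · have e1 : V (((N : ℝ) - (N : ℕ)) * t) = 1 := by rw [sub_self, zero_mul, hV0]
    have e2 : V (((N : ℝ) - ((0 : ℕ) : ℝ)) * t) = V 1 := by
      rw [Nat.cast_zero, sub_zero, hNt]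
    simp only [e1, e2] at hgN
    rw [hV1] at hgN
    rw [_root_.sub_apply]
    have e3 : (((1 : unitary (Op G)) : Op G) * ((s N).1 g : Op G)) (delta 1) =
        ((s N).1 g : Op G) (delta 1) := by
      rw [OneMemClass.coe_one, one_mul]
    rw [e3] at hgN
    refine hgN.trans ?_
    have : (N : ℝ) * (t * l2 E + (Cg + ‖ev π k0‖ ^ 2) * t ^ 2) =
        (N * t) * l2 E + (N * t) * ((Cg + ‖ev π k0‖ ^ 2) * t) := by ring
    rw [this, hNt]
    linarith

end Pool.Agent.H581R.FF
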