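import Mathlib
import Pool.Agent.H581R.FF.Stubs
import Pool.Agent.H844R3.FG.Core

namespace Pool.Agent.H581R.FF.TCORE

open Pool.Agent.H581R.FF

lemma n2_lt {α : Type} (c : α →₀ ℝ) {ε : ℝ} (hε : 0 < ε) (h : H844FG.nsq c < ε ^ 2) :
    n2 c < ε := by
  unfold n2
  rw [Real.sqrt_lt' hε]
  exact h

lemma ZZ_ofFn {Γ : Type} [Group Γ] {L : ℕ} (x : Fin L → Γ) (c : Γ →₀ ℝ) :
    ZZ (List.ofFn x) c = ∑ l, c.mapDomain (fun g => x l * g) := by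
  unfold ZZ act
  rw [List.map_ofFn, List.sum_ofFn]
  rfl

theorem t_CORE : S_CORE := by
  intro Γ _ x hx ε hε
  obtain ⟨L, c, h1, h2⟩ := H844FG.exists_small x hx (ε := ε ^ 2) (by positivity)
  refine ⟨L, c, n2_lt c hε h1, ?_⟩
  rw [ZZ_ofFn]
  exact n2_lt _ hε h2

end Pool.Agent.H581R.FF.TCORE
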