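import Mathlib
import Pool.Agent.H581R.FF.Stubs
import Pool.Agent.H844R3.FG.Word

namespace Pool.Agent.H581R.FF.TWORD

open Pool.Agent.H581R.FF

/-- products `∏_(i<n) y_i u` -/
def PP {α : Type} [Group α] (y : ℕ → α) (u : α) : ℕ → α
  | 0 => 1
  | n + 1 => PP y u n * (y n * u)

lemma PP_left {α : Type} [Group α] (y : ℕ → α) (u : α) (n : ℕ) :
    PP y u (n + 1) = y 0 * u * PP (fun i => y (i + 1)) u n := by
  induction n with
  | zero => simp [PP]
  | succ n ih =>
    rw [PP, ih, PP, mul_assoc]

lemma pref_ofFn {α : Type} [Group α] (u : α) (L : ℕ) : ∀ (y : ℕ → α),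
    pref u (List.ofFn (fun i : Fin L => y i)) = List.ofFn (fun l : Fin L => PP y u (l + 1)) := by
  induction L with
  | zero => intro y; simp [pref]
  | succ L ih =>
    intro y
    rw [List.ofFn_succ, pref, List.ofFn_succ]
    have h := ih (fun i => y (i + 1))
    simp only [Fin.val_succ] at h ⊢
    rw [h, List.map_ofFn]
    congr 1
    · simp [PP]
    · congr 1
      funext l
      simp only [Function.comp]
      rw [PP_left y u (l + 1)]
      rfl

lemma pre_eq {α : Type} [Group α] (a b u : α) (n : ℕ) :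
    H844FG.pre a b u n = PP (fun i => a ^ i * b * (a ^ i)⁻¹) u n := by
  induction n with
  | zero => rfl
  | succ n ih => rw [H844FG.pre_succ, ih, PP]

theorem t_WORD : S_WORD := by
  intro ι a b u hab hau hbu L
  refine ⟨List.ofFn (fun i : Fin L => (FreeGroup.of a) ^ (i : ℕ) * FreeGroup.of b *
    ((FreeGroup.of a) ^ (i : ℕ))⁻¹), fun l : Fin L => H844FG.pre (FreeGroup.of a) (FreeGroup.of b)
      (FreeGroup.of u) (l + 1), ?_, ?_, H844FG.lift_pre_injective a b u hab hau hbu L⟩
  · intro y hy
    rw [List.mem_ofFn] at hy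
    obtain ⟨i, rfl⟩ := hy
    have ha : FreeGroup.of a ∈ Subgroup.closure {FreeGroup.of a, FreeGroup.of b} :=
      Subgroup.subset_closure (by simp)
    have hb : FreeGroup.of b ∈ Subgroup.closure {FreeGroup.of a, FreeGroup.of b} :=
      Subgroup.subset_closure (by simp)
    exact mul_mem (mul_mem (pow_mem ha _) hb) (inv_mem (pow_mem ha _))
  · have h := pref_ofFn (FreeGroup.of u) L
      (fun i => (FreeGroup.of a) ^ i * FreeGroup.of b * ((FreeGroup.of a) ^ i)⁻¹)
    rw [h]
    congr 1
    funext l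
    rw [pre_eq]

end Pool.Agent.H581R.FF.TWORD
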