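import Mathlib
import Pool.Agent.H581R.FF.Stubs

/-! Task ISO: a cyclic system gives an isomorphism of the von Neumann algebras. -/

namespace Pool.Agent.H581R.FF.TISO

open Pool.Agent.H667R2.FG (Ell permOp lam rho delta LG EltG tau)
open Pool.Agent.H667R2.FG
open scoped ComplexConjugate InnerProductSpace

section comm
variable {G : Type} [Group G]

theorem hasSum_apply (X : Ell G →L[ℂ] Ell G) (v : Ell G) (k : G) :
    HasSum (fun l => (X (delta l)) k * v l) ((X v) k) := by
  have h1 := lp.hasSum_inner (𝕜 := ℂ) ((star X) (delta k)) v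
  have h2 : ⟪(star X) (delta k), v⟫_ℂ = (X v) k := by
    rw [ContinuousLinearMap.star_eq_adjoint, ContinuousLinearMap.adjoint_inner_left,
      TL2.inner_delta]
  rw [h2] at h1
  refine h1.congr_fun fun l => ?_
  have h3 : ((star X) (delta k)) l = conj ((X (delta l)) k) := by
    rw [← TL2.inner_delta l, ContinuousLinearMap.star_eq_adjoint,
      ContinuousLinearMap.adjoint_inner_right, ← inner_conj_symm, TL2.inner_delta]
  rw [h3]
  simp [mul_comm]

theorem coef_left (Y : Ell G →L[ℂ] Ell G) (hY : ∀ g : G, lam g * Y = Y * lam g) (l k : G) :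
    (Y (delta l)) k = (Y (delta 1)) (l⁻¹ * k) := by
  have h1 : (delta l : Ell G) = lam l (delta 1) := by rw [lam_delta, mul_one]
  have h2 := congrArg (fun z : Ell G →L[ℂ] Ell G => z (delta 1)) (hY l)
  have h3 : lam l (Y (delta 1)) = Y (lam l (delta 1)) := h2
  rw [h1, ← h3]
  rfl

theorem comm_XY (X Y : Ell G →L[ℂ] Ell G) (hX : ∀ g, X * rho g = rho g * X)
    (hY : ∀ g : G, lam g * Y = Y * lam g) : Y * X = X * Y := by
  classical
  have hd : ∀ h k : G, (Y (X (delta h))) k = (X (Y (delta h))) k := by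
    intro h k
    have e1 := hasSum_apply Y (X (delta h)) k
    have e2 := hasSum_apply X (Y (delta h)) k
    let e : G ≃ G :=
      { toFun := fun m => h * m⁻¹ * k
        invFun := fun l => k * l⁻¹ * h
        left_inv := fun m => by group
        right_inv := fun m => by group }
    have e3 := (e.hasSum_iff (f := fun l => (X (delta l)) k * (Y (delta h)) l)).2 e2
    refine e1.unique (e3.congr_fun fun m => ?_)
    show (Y (delta m)) k * (X (delta h)) m =
      (X (delta (h * m⁻¹ * k))) k * (Y (delta h)) (h * m⁻¹ * k)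
    rw [coef_left Y hY m k, coef_left Y hY h, TL2.coef_apply X hX h m,
      TL2.coef_apply X hX (h * m⁻¹ * k) k, mul_comm]
    congr 2
    · group
    · group
  have hb : Y * X = X * Y := by
    ext v k
    have key : ∀ (Z : Ell G →L[ℂ] Ell G), (∀ h k : G, (Z (delta h)) k = 0) → Z = 0 := by
      intro Z hZ
      ext v k
      have := hasSum_apply Z v k
      simp only [hZ, zero_mul] at this
      exact (this.unique hasSum_zero).trans rfl
    have h0 := key (Y * X - X * Y) (fun h k => by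
      show (Y (X (delta h))) k - (X (Y (delta h))) k = 0
      rw [hd, sub_self])
    rw [sub_eq_zero] at h0
    rw [h0]
  exact hb

theorem mem_of_comm (X : Ell G →L[ℂ] Ell G) (hX : ∀ g, X * rho g = rho g * X) : X ∈ LG G := by
  rw [TL2.mem_LG]
  intro t ht
  have ht' := (TL2.mem_comm t).1 ht
  refine ⟨comm_XY X t hX ht', comm_XY X (star t) hX ?_⟩
  intro g
  have h1 := congrArg star (ht' g⁻¹)
  rw [star_mul, star_mul, star_lam, inv_inv] at h1
  exact h1.symm

end comm

section sys
variable {κ G : Type} [Group G] (σ : FreeGroup κ →* unitary (Op G))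

/-- the vectors `σ(w) δ_1` -/
noncomputable def e (w : FreeGroup κ) : Ell G := (σ w : Op G) (delta 1)

theorem sig_e (w w' : FreeGroup κ) : (σ w : Op G) (e σ w') = e σ (w * w') := by
  unfold e
  rw [map_mul]
  rfl

theorem e_orth (h : Std σ) : Orthonormal ℂ (e σ) := by
  classical
  rw [orthonormal_iff_ite]
  intro w w'
  have h1 : ⟪e σ w, e σ w'⟫_ℂ = tau (σ (w⁻¹ * w') : Op G) := by
    have h2 : (σ (w⁻¹ * w') : Op G) = star (σ w : Op G) * (σ w' : Op G) := by
      rw [map_mul, map_inv]; rfl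
    rw [h2]
    unfold tau
    rw [← TL2.inner_delta (1 : G), ContinuousLinearMap.star_eq_adjoint,
      ContinuousLinearMap.mul_def, ContinuousLinearMap.comp_apply,
      ContinuousLinearMap.adjoint_inner_right]
    rfl
  rw [h1]
  by_cases hw : w = w'
  · subst hw
    rw [if_pos rfl, inv_mul_cancel, map_one]
    unfold tau
    show (delta (1 : G) : Ell G) 1 = 1
    rw [delta_apply, if_pos rfl]
  · rw [if_neg hw]
    exact h.free _ (fun h => hw (inv_mul_eq_one.1 h))

theorem ev_delta (f : GR κ) : ev σ f (delta 1) = f.coeff.sum fun w c => c • e σ w := by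
  unfold ev
  rw [MonoidAlgebra.lift_apply]
  unfold Finsupp.sum
  rw [ContinuousLinearMap.sum_apply]
  rfl

theorem e_dense (hc : Cyc σ) : ⊤ ≤ (Submodule.span ℂ (Set.range (e σ))).topologicalClosure := by
  intro ξ _
  rw [← SetLike.mem_coe, Submodule.topologicalClosure_coe, Metric.mem_closure_iff]
  intro ε hε
  obtain ⟨f, hf⟩ := hc ξ ε hε
  refine ⟨ev σ f (delta 1), ?_, ?_⟩
  · rw [ev_delta]
    refine Submodule.sum_mem _ fun w _ => Submodule.smul_mem _ _ (Submodule.subset_span ⟨w, rfl⟩)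
  · rw [dist_eq_norm]; exact hf

end sys

section iso
variable {κ G : Type} [Group G] (σ : FreeGroup κ →* unitary (Op G)) (h : Std σ) (hc : Cyc σ)

/-- the Hilbert basis `σ(w) δ_1` -/
noncomputable def bas : HilbertBasis (FreeGroup κ) ℂ (Ell G) :=
  HilbertBasis.mk (e_orth σ h) (e_dense σ hc)

theorem bas_apply (w : FreeGroup κ) : bas σ h hc w = e σ w := by
  unfold bas
  rw [HilbertBasis.coe_mk]

/-- the conjugation with the unitary `δ_w ↦ σ(w) δ_1` -/
noncomputable def phi : (Ell G →L[ℂ] Ell G) ≃⋆ₐ[ℂ] (Ell (FreeGroup κ) →L[ℂ] Ell (FreeGroup κ)) :=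
  (bas σ h hc).repr.conjStarAlgEquiv

theorem delta_eq' {Γ : Type} [Group Γ] [DecidableEq Γ] (g : Γ) :
    (delta g : Ell Γ) = lp.single 2 g (1 : ℂ) := by
  ext k
  rw [delta_apply]
  by_cases hk : k = g
  · subst hk
    rw [if_pos rfl, lp.single_apply_self]
  · rw [if_neg hk, lp.single_apply_ne _ _ _ hk]

theorem repr_e (w : FreeGroup κ) : (bas σ h hc).repr (e σ w) = delta w := by
  classical
  rw [← bas_apply σ h hc, delta_eq']
  exact (bas σ h hc).repr_self w

theorem phi_symm_apply (Z : Ell (FreeGroup κ) →L[ℂ] Ell (FreeGroup κ)) (w w' : FreeGroup κ)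
    (hZ : Z (delta w) = delta w') : (phi σ h hc).symm Z (e σ w) = e σ w' := by
  unfold phi
  rw [LinearIsometryEquiv.symm_conjStarAlgEquiv_apply_apply, repr_e, hZ, ← repr_e σ h hc w',
    LinearIsometryEquiv.symm_apply_apply]

include h hc in
theorem ext_e (X Y : Ell G →L[ℂ] Ell G) (hXY : ∀ w, X (e σ w) = Y (e σ w)) : X = Y := by
  refine ContinuousLinearMap.ext_on (s := Set.range (bas σ h hc)) ?_ ?_
  · have := (bas σ h hc).dense_span
    rw [Submodule.dense_iff_topologicalClosure_eq_top]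
    exact this
  · rintro _ ⟨w, rfl⟩
    rw [bas_apply]
    exact hXY w

theorem phi_sig (w : FreeGroup κ) : phi σ h hc (σ w : Op G) = lam w := by
  have h1 : (σ w : Op G) = (phi σ h hc).symm (lam w) := by
    refine ext_e σ h hc _ _ fun w' => ?_
    rw [phi_symm_apply σ h hc (lam w) w' (w * w') (lam_delta w w'), sig_e]
  rw [h1]
  exact (phi σ h hc).apply_symm_apply _

/-- the right translations in the new basis -/
noncomputable def R (w : FreeGroup κ) : Ell G →L[ℂ] Ell G := (phi σ h hc).symm (rho w)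

theorem R_e (w w' : FreeGroup κ) : R σ h hc w (e σ w') = e σ (w' * w⁻¹) :=
  phi_symm_apply σ h hc (rho w) w' (w' * w⁻¹) (rho_delta w w')

theorem R_ev (w : FreeGroup κ) (f : GR κ) :
    R σ h hc w (ev σ f (delta 1)) = (ev σ f * (σ w⁻¹ : Op G)) (delta 1) := by
  have h1 : (ev σ f * (σ w⁻¹ : Op G)) (delta 1) = ev σ f (e σ w⁻¹) := rfl
  rw [h1, ev_delta]
  unfold ev
  rw [MonoidAlgebra.lift_apply]
  unfold Finsupp.sum
  rw [ContinuousLinearMap.sum_apply, map_sum]
  refine Finset.sum_congr rfl fun w' _ => ?_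
  rw [map_smul, R_e]
  show f.coeff w' • e σ (w' * w⁻¹) = f.coeff w' • ((σ w' : Op G) (e σ w⁻¹))
  rw [sig_e]

include h in
theorem ev_comm (f : GR κ) (g : G) : ev σ f * rho g = rho g * ev σ f := by
  unfold ev
  rw [MonoidAlgebra.lift_apply]
  unfold Finsupp.sum
  rw [Finset.sum_mul, Finset.mul_sum]
  refine Finset.sum_congr rfl fun w' _ => ?_
  rw [smul_mul_assoc, mul_smul_comm]
  congr 1
  exact h.comm w' g

theorem R_mul (w : FreeGroup κ) (X : Ell G →L[ℂ] Ell G) (hX : ∀ g, X * rho g = rho g * X) :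
    R σ h hc w (X (delta 1)) = (X * (σ w⁻¹ : Op G)) (delta 1) := by
  have key : ∀ ε : ℝ, 0 < ε → ‖R σ h hc w (X (delta 1)) - (X * (σ w⁻¹ : Op G)) (delta 1)‖ ≤
      (‖R σ h hc w‖ + 1) * ε := by
    intro ε hε
    obtain ⟨f, hf⟩ := hc (X (delta 1)) ε hε
    have hXf : ∀ g, (X - ev σ f) * rho g = rho g * (X - ev σ f) := by
      intro g
      rw [sub_mul, mul_sub, hX, ev_comm σ h]
    have h1 : R σ h hc w (X (delta 1)) - (X * (σ w⁻¹ : Op G)) (delta 1) =
        R σ h hc w (X (delta 1) - ev σ f (delta 1)) -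
          ((X - ev σ f) * (σ w⁻¹ : Op G)) (delta 1) := by
      rw [map_sub, R_ev, sub_mul]
      show _ = _ - ((X * (σ w⁻¹ : Op G)) (delta 1) - (ev σ f * (σ w⁻¹ : Op G)) (delta 1))
      abel
    rw [h1]
    refine (norm_sub_le _ _).trans ?_
    rw [norm_mul_unitary_delta (X - ev σ f) (σ w⁻¹ : Op G) hXf (h.comm w⁻¹) (σ w⁻¹).2]
    have h2 : ‖R σ h hc w (X (delta 1) - ev σ f (delta 1))‖ ≤ ‖R σ h hc w‖ * ε :=
      ((R σ h hc w).le_opNorm _).trans (mul_le_mul_of_nonneg_left hf.le (norm_nonneg _))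
    have h3 : ‖(X - ev σ f) (delta 1)‖ ≤ ε := hf.le
    linarith
  rw [← sub_eq_zero, ← norm_le_zero_iff]
  refine le_of_forall_pos_le_add fun ε hε => ?_
  have hp : 0 < ‖R σ h hc w‖ + 1 := by positivity
  have := key (ε / (‖R σ h hc w‖ + 1)) (by positivity)
  rw [mul_div_cancel₀ _ hp.ne'] at this
  linarith

theorem R_comm (w : FreeGroup κ) (T : Ell G →L[ℂ] Ell G) (hT : ∀ g, T * rho g = rho g * T) :
    T * R σ h hc w = R σ h hc w * T := by
  refine ext_e σ h hc _ _ fun w' => ?_
  show T (R σ h hc w ((σ w' : Op G) (delta 1))) = R σ h hc w ((T * (σ w' : Op G)) (delta 1))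
  rw [R_mul σ h hc w _ (h.comm w'), R_mul σ h hc w (T * (σ w' : Op G)) (fun g => by
    rw [mul_assoc, h.comm, ← mul_assoc, hT, mul_assoc])]
  rfl

theorem mem_iff (x : Ell G →L[ℂ] Ell G) :
    phi σ h hc x ∈ (LG (FreeGroup κ)).toStarSubalgebra ↔ x ∈ (LG G).toStarSubalgebra := by
  constructor
  · intro hx
    refine mem_of_comm x fun g => ?_
    have h1 : ∀ w : FreeGroup κ, lam w * phi σ h hc (rho g) = phi σ h hc (rho g) * lam w := by
      intro w
      rw [← phi_sig σ h hc w, ← map_mul, ← map_mul, h.comm w g]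
    have h2 := ((TL2.mem_LG (phi σ h hc x)).1 hx _ ((TL2.mem_comm _).2 h1)).1
    have h3 : phi σ h hc (x * rho g) = phi σ h hc (rho g * x) := by
      rw [map_mul, map_mul, h2]
    exact (phi σ h hc).injective h3
  · intro hx
    have hx' : ∀ g, x * rho g = rho g * x := comm_rho x hx
    refine mem_of_comm _ fun w => ?_
    have h1 := R_comm σ h hc w x hx'
    have h2 := congrArg (phi σ h hc) h1
    rw [map_mul, map_mul] at h2
    unfold R at h2
    rw [StarAlgEquiv.apply_symm_apply] at h2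
    exact h2

/-- the isomorphism -/
noncomputable def toElt : EltG G ≃⋆ₐ[ℂ] EltG (FreeGroup κ) where
  toFun x := ⟨phi σ h hc (x : Ell G →L[ℂ] Ell G), (mem_iff σ h hc _).2 x.2⟩
  invFun y := ⟨(phi σ h hc).symm (y : Ell (FreeGroup κ) →L[ℂ] Ell (FreeGroup κ)), by
    rw [← mem_iff σ h hc, StarAlgEquiv.apply_symm_apply]; exact y.2⟩
  left_inv x := Subtype.ext ((phi σ h hc).symm_apply_apply _)
  right_inv y := Subtype.ext ((phi σ h hc).apply_symm_apply _)
  map_mul' x y := Subtype.ext (map_mul (phi σ h hc) _ _)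
  map_add' x y := Subtype.ext (map_add (phi σ h hc) _ _)
  map_smul' c x := Subtype.ext (map_smul (phi σ h hc) _ _)
  map_star' x := Subtype.ext (map_star (phi σ h hc) _)

end iso

theorem t_ISO : S_ISO := by
  intro κ G _ σ h hc
  exact ⟨(toElt σ h hc).symm⟩

end Pool.Agent.H581R.FF.TISO
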